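import Pool.Agent.Helper59.DG.BlaB

/-! Factorisation of bounded analytic functions: the factorisation theorem. -/

set_option autoImplicit false

namespace Pool.Agent.Helper59.DGA.Bla

open MeasureTheory AddCircle Metric Filter Topology ComplexConjugate

noncomputable section

theorem prod_eq {g : ℕ → ℂ → ℂ} {a : ℕ → ℂ} {n : ℕ}
    (hrec : ∀ k < n, ∀ z ∈ ball (0 : ℂ) 1, g k z = bfac (a k) z * g (k + 1) z) {z : ℂ}
    (hz : z ∈ ball (0 : ℂ) 1) :
    ∀ m ≤ n, g 0 z = (∏ k ∈ Finset.range m, bfac (a k) z) * g m z := by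
  intro m
  induction m with
  | zero => intro _; simp
  | succ m ih =>
    intro hm
    rw [Finset.prod_range_succ, mul_assoc, ← hrec m (by omega) z hz]
    exact ih (by omega)

theorem summable_of {g : ℕ → ℂ → ℂ} {a : ℕ → ℂ} (hg : ∀ n, Sch (g n)) (ha : ∀ n, ‖a n‖ < 1)
    (hrec : ∀ n, ∀ z ∈ ball (0 : ℂ) 1, g n z = bfac (a n) z * g (n + 1) z) {z : ℂ}
    (hz : z ∈ ball (0 : ℂ) 1) (hne : g 0 z ≠ 0) : Summable fun n => 1 - ‖a n‖ := by
  have hz1 : ‖z‖ < 1 := by simpa using hz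
  have hc : 0 < (1 - ‖z‖ ^ 2) / 4 := by nlinarith [norm_nonneg z]
  have h0 : 0 < ‖g 0 z‖ ^ 2 := by
    have := norm_pos_iff.2 hne
    positivity
  refine summable_of_sum_range_le (c := -Real.log (‖g 0 z‖ ^ 2) / ((1 - ‖z‖ ^ 2) / 4))
    (fun n => by linarith [ha n]) (fun n => ?_)
  have h1 := prod_eq (g := g) (a := a) (n := n) (fun k _ => hrec k) hz n le_rfl
  have h2 : ‖g 0 z‖ ^ 2 ≤
      Real.exp (-((1 - ‖z‖ ^ 2) / 4 * ∑ k ∈ Finset.range n, (1 - ‖a k‖))) := by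
    rw [h1, norm_mul, mul_pow, norm_prod, ← Finset.prod_pow, Finset.mul_sum,
      ← Finset.sum_neg_distrib, Real.exp_sum]
    have h3 : ‖g n z‖ ^ 2 ≤ 1 := by
      have := (hg n).2 z hz
      nlinarith [norm_nonneg (g n z)]
    have h4 : ∏ i ∈ Finset.range n, ‖bfac (a i) z‖ ^ 2 ≤
        ∏ i ∈ Finset.range n, Real.exp (-((1 - ‖z‖ ^ 2) / 4 * (1 - ‖a i‖))) :=
      Finset.prod_le_prod (fun i _ => by positivity) (fun i _ => norm_bfac_sq_le (ha i) hz1)
    have h5 : 0 ≤ ∏ i ∈ Finset.range n, ‖bfac (a i) z‖ ^ 2 :=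
      Finset.prod_nonneg (fun i _ => by positivity)
    nlinarith
  have h6 := Real.log_le_log h0 h2
  rw [Real.log_exp] at h6
  rw [le_div_iff₀ hc]
  linarith

section inf

variable {g : ℕ → ℂ → ℂ} {a : ℕ → ℂ} (hg : ∀ n, Sch (g n)) (ha : ∀ n, ‖a n‖ < 1)
    (hmin : ∀ n, ∀ w ∈ ball (0 : ℂ) 1, g n w = 0 → ‖a n‖ ≤ ‖w‖)
    (hrec : ∀ n, ∀ z ∈ ball (0 : ℂ) 1, g n z = bfac (a n) z * g (n + 1) z)
    (hs : Summable fun n => 1 - ‖a n‖)

/-- from the index `n` on, all zeros have modulus greater than `|z|` -/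
def Good (a : ℕ → ℂ) (r : ℝ) (n : ℕ) : Prop := ∀ k, n ≤ k → r < ‖a k‖

theorem Good.mono {a : ℕ → ℂ} {r : ℝ} {m n : ℕ} (h : Good a r m) (hmn : m ≤ n) : Good a r n :=
  fun k hk => h k (hmn.trans hk)

theorem Good.mono' {a : ℕ → ℂ} {r s : ℝ} {n : ℕ} (h : Good a r n) (hrs : s ≤ r) : Good a s n :=
  fun k hk => hrs.trans_lt (h k hk)

theorem Good.ne {a : ℕ → ℂ} {z : ℂ} {n : ℕ} (ha : ∀ n, ‖a n‖ < 1) (hz : ‖z‖ < 1)
    (h : Good a ‖z‖ n) (k : ℕ) (hk : n ≤ k) : bfac (a k) z ≠ 0 := by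
  intro h0
  have h1 := bfac_eq_zero (ha k) hz h0
  have h2 := h k hk
  rw [← h1] at h2
  exact lt_irrefl _ h2

theorem exists_good {a : ℕ → ℂ} (hs : Summable fun n => 1 - ‖a n‖) {r : ℝ} (hr : r < 1) :
    ∃ n, Good a r n := by
  have h1 := hs.tendsto_atTop_zero
  have h2 : ∀ᶠ n in atTop, 1 - ‖a n‖ < 1 - r := h1.eventually (gt_mem_nhds (by linarith))
  obtain ⟨n, hn⟩ := eventually_atTop.1 h2
  exact ⟨n, fun k hk => by linarith [hn k hk]⟩

/-- the zero free factor -/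
def GG (g : ℕ → ℂ → ℂ) (a : ℕ → ℂ) (z : ℂ) : ℂ :=
  open Classical in
  if h : ∃ n, Good a ‖z‖ n then g h.choose z / T a h.choose z else 0

include ha hrec hs

theorem quot_succ {z : ℂ} (hz : z ∈ ball (0 : ℂ) 1) {n : ℕ} (hn : Good a ‖z‖ n) :
    ∀ m, g (n + m) z / T a (n + m) z = g n z / T a n z := by
  have hz1 : ‖z‖ < 1 := by simpa using hz
  intro m
  induction m with
  | zero => simp
  | succ m ih =>
    rw [← ih, hrec (n + m) z hz, T_succ ha hs (n + m) hz,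
      mul_div_mul_left _ _ (hn.ne ha hz1 (n + m) (by omega))]
    rfl

theorem GG_eq {z : ℂ} (hz : z ∈ ball (0 : ℂ) 1) {n : ℕ} (hn : Good a ‖z‖ n) :
    GG g a z = g n z / T a n z := by
  have hex : ∃ n, Good a ‖z‖ n := ⟨n, hn⟩
  have h1 : GG g a z = g hex.choose z / T a hex.choose z := by
    unfold GG
    rw [dif_pos hex]
  rw [h1]
  have hc := hex.choose_spec
  rcases le_total n hex.choose with h | h
  · obtain ⟨m, hm⟩ := Nat.exists_eq_add_of_le h
    rw [hm]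
    exact quot_succ ha hrec hs hz hn m
  · obtain ⟨m, hm⟩ := Nat.exists_eq_add_of_le h
    have := quot_succ ha hrec hs hz hc m
    rw [← hm] at this
    exact this.symm

include hg

theorem GG_analytic : AnalyticOnNhd ℂ (GG g a) (ball 0 1) := by
  intro z hz
  have hz1 : ‖z‖ < 1 := by simpa using hz
  obtain ⟨r, hzr, hr1⟩ := exists_between hz1
  obtain ⟨n, hn⟩ := exists_good hs hr1
  have h1 : GG g a =ᶠ[𝓝 z] fun w => g n w / T a n w := by
    have : ball (0 : ℂ) r ∈ 𝓝 z := isOpen_ball.mem_nhds (by simpa using hzr)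
    filter_upwards [this] with w hw
    have hwr : ‖w‖ < r := by simpa using hw
    exact GG_eq ha hrec hs (by simpa using hwr.trans hr1) (hn.mono' hwr.le)
  have h2 : AnalyticAt ℂ (fun w => g n w / T a n w) z :=
    ((hg n).1 z hz).div (T_analytic ha hs n z hz)
      (T_ne ha hs n hz (fun k hk => (hn.mono' hzr.le).ne ha hz1 k hk))
  exact h2.congr h1.symm

include hmin

theorem GG_ne {z : ℂ} (hz : z ∈ ball (0 : ℂ) 1) : GG g a z ≠ 0 := by
  have hz1 : ‖z‖ < 1 := by simpa using hz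
  obtain ⟨n, hn⟩ := exists_good hs hz1
  rw [GG_eq ha hrec hs hz hn]
  refine div_ne_zero (fun h => ?_) (T_ne ha hs n hz (fun k hk => hn.ne ha hz1 k hk))
  have h1 := hmin n z hz h
  have h2 := hn n le_rfl
  linarith

omit hmin

theorem GG_norm_le {z : ℂ} (hz : z ∈ ball (0 : ℂ) 1) : ‖GG g a z‖ ≤ 1 := by
  have hz1 : ‖z‖ < 1 := by simpa using hz
  obtain ⟨n, hn⟩ := exists_good hs hz1
  have h1 := T_tendsto ha hs hz (N := n) (fun k hk => hn.ne ha hz1 k hk)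
  have h2 : ∀ m, ‖GG g a z‖ * ‖T a (n + m) z‖ ≤ 1 := by
    intro m
    have hm : Good a ‖z‖ (n + m) := hn.mono (by omega)
    rw [GG_eq ha hrec hs hz hm, norm_div,
      div_mul_cancel₀ _ (norm_ne_zero_iff.2
        (T_ne ha hs (n + m) hz (fun k hk => hm.ne ha hz1 k hk)))]
    exact (hg _).2 z hz
  have h3 := h1.const_mul ‖GG g a z‖
  rw [mul_one] at h3
  exact le_of_tendsto' h3 h2

theorem GG_fac {z : ℂ} (hz : z ∈ ball (0 : ℂ) 1) : ∃ b, HasProd (fun i => bfac (a i) z) b ∧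
    ‖b‖ ≤ 1 ∧ g 0 z = b * GG g a z := by
  have hz1 : ‖z‖ < 1 := by simpa using hz
  obtain ⟨n, hn⟩ := exists_good hs hz1
  have h0 := T_hasProd ha hs 0 hz
  simp only [zero_add] at h0
  refine ⟨T a 0 z, h0, ?_, ?_⟩
  · have h1 := h0.tendsto_prod_nat.norm
    refine le_of_tendsto' h1 (fun m => ?_)
    rw [norm_prod]
    exact Finset.prod_le_one (fun _ _ => norm_nonneg _) (fun i _ => norm_bfac_le (ha i) hz1)
  · have h2 : T a 0 z = (∏ k ∈ Finset.range n, bfac (a k) z) * T a n z :=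
      prod_eq (g := fun n => T a n) (a := a) (n := n)
        (fun k _ w hw => T_succ ha hs k hw) hz n le_rfl
    have h3 : g 0 z = (∏ k ∈ Finset.range n, bfac (a k) z) * g n z :=
      prod_eq (n := n) (fun k _ => hrec k) hz n le_rfl
    rw [h3, h2, GG_eq ha hrec hs hz hn, mul_assoc,
      mul_div_cancel₀ _ (T_ne ha hs n hz (fun k hk => hn.ne ha hz1 k hk))]

end inf

theorem factor {F : ℂ → ℂ} (hF : Sch F) (hne : ∃ z ∈ ball (0 : ℂ) 1, F z ≠ 0) :
    ∃ (ι : Type) (_ : Countable ι) (a : ι → ℂ) (G : ℂ → ℂ), (∀ i, ‖a i‖ < 1) ∧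
      Summable (fun i => 1 - ‖a i‖) ∧ AnalyticOnNhd ℂ G (ball 0 1) ∧
      (∀ z ∈ ball (0 : ℂ) 1, G z ≠ 0 ∧ ‖G z‖ ≤ 1) ∧
      ∀ z ∈ ball (0 : ℂ) 1, ∃ b, HasProd (fun i => bfac (a i) z) b ∧ ‖b‖ ≤ 1 ∧
        F z = b * G z := by
  obtain ⟨z0, hz0, hFz0⟩ := hne
  choose st hst using exists_step
  let g : ℕ → {G : ℂ → ℂ // Sch G} := fun n => Nat.rec ⟨F, hF⟩ (fun _ G => (st G).2) n
  have hg0 : (g 0).1 = F := rfl
  have hgs : ∀ n, g (n + 1) = (st (g n)).2 := fun n => rfl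
  by_cases hall : ∀ n, ∃ w ∈ ball (0 : ℂ) 1, (g n).1 w = 0
  · have ha : ∀ n, ‖(st (g n)).1‖ < 1 := fun n => (hst (g n) (hall n)).1
    have hmin : ∀ n, ∀ w ∈ ball (0 : ℂ) 1, (g n).1 w = 0 → ‖(st (g n)).1‖ ≤ ‖w‖ :=
      fun n => (hst (g n) (hall n)).2.1
    have hrec : ∀ n, ∀ z ∈ ball (0 : ℂ) 1, (g n).1 z = bfac (st (g n)).1 z * (g (n + 1)).1 z :=
      fun n => (hst (g n) (hall n)).2.2
    have hs := summable_of (g := fun n => (g n).1) (a := fun n => (st (g n)).1)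
      (fun n => (g n).2) ha hrec hz0 hFz0
    refine ⟨ℕ, inferInstance, fun n => (st (g n)).1,
      GG (fun n => (g n).1) (fun n => (st (g n)).1), ha, hs, ?_, ?_, ?_⟩
    · exact GG_analytic (fun n => (g n).2) ha hrec hs
    · exact fun z hz => ⟨GG_ne (fun n => (g n).2) ha hmin hrec hs hz,
        GG_norm_le (fun n => (g n).2) ha hrec hs hz⟩
    · exact fun z hz => GG_fac (g := fun n => (g n).1) (fun n => (g n).2) ha hrec hs hz
  · push Not at hall
    classical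
    have hfind := Nat.find_spec hall
    have hlt : ∀ k < Nat.find hall, ∃ w ∈ ball (0 : ℂ) 1, (g k).1 w = 0 := by
      intro k hk
      have := Nat.find_min hall hk
      push Not at this
      exact this
    set n := Nat.find hall with hn
    refine ⟨Fin n, inferInstance, fun i => (st (g i)).1, (g n).1,
      fun i => (hst (g i) (hlt i i.2)).1, Summable.of_finite, (g n).2.1,
      fun z hz => ⟨hfind z hz, (g n).2.2 z hz⟩, fun z hz => ?_⟩
    have hz1 : ‖z‖ < 1 := by simpa using hz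
    refine ⟨∏ i : Fin n, bfac (st (g i)).1 z, hasProd_fintype _, ?_, ?_⟩
    · rw [norm_prod]
      exact Finset.prod_le_one (fun _ _ => norm_nonneg _)
        (fun i _ => norm_bfac_le (hst (g i) (hlt i i.2)).1 hz1)
    · have h1 := prod_eq (g := fun n => (g n).1) (a := fun n => (st (g n)).1) (n := n)
        (fun k hk => (hst (g k) (hlt k hk)).2.2) hz n le_rfl
      rw [Fin.prod_univ_eq_prod_range (fun i => bfac (st (g i)).1 z) n]
      exact h1

end

end Pool.Agent.Helper59.DGA.Bla
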