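import Pool.Agent.Helper59.DG.Hin
import Pool.Agent.Helper59.DG.BlaC

/-! Inner functions which are not Blaschke products. -/

set_option autoImplicit false

namespace Pool.Agent.Helper59.DGA

open MeasureTheory AddCircle Metric Filter Topology

noncomputable section

theorem exists_harmonic {I : Cir → ℂ} (hI : IsInner I) (hn : ¬ IsBlaschke I) :
    ∃ h : ℂ → ℝ, PosHarm h ∧ 0 < h 0 ∧
      ∀ z ∈ ball (0 : ℂ) 1, ‖ext I z‖ ≤ Real.exp (-h z) := by
  have hle : ∀ᵐ t ∂mC, ‖I t‖ ≤ 1 := hI.2.mono (fun t ht => ht.le)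
  have hS : Bla.Sch (ext I) := ⟨Hinf.analytic hI.1, fun z hz =>
    ext_norm_le hle (by simpa using hz)⟩
  have hne : ∃ z ∈ ball (0 : ℂ) 1, ext I z ≠ 0 := by
    by_contra hcon
    push Not at hcon
    have h1 := Hinf.norm_le hI.1 (C := 0) (fun z hz => by rw [hcon z hz, norm_zero])
    obtain ⟨t, ht1, ht2⟩ := (h1.and hI.2).exists
    linarith
  obtain ⟨ι, hι, a, G, ha, hs, hG, hG2, hfac⟩ := Bla.factor hS hne
  have h0 : (0 : ℂ) ∈ ball (0 : ℂ) 1 := by simp
  refine ⟨fun z => -Real.log ‖G z‖, ⟨?_, ?_⟩, ?_, ?_⟩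
  · intro z hz
    exact ((hG z hz).harmonicAt_log_norm (hG2 z hz).1).neg
  · intro z hz
    have := Real.log_nonpos (norm_nonneg (G z)) (hG2 z hz).2
    linarith
  · have h1 : Real.log ‖G 0‖ ≤ 0 := Real.log_nonpos (norm_nonneg _) (hG2 0 h0).2
    rcases h1.lt_or_eq with h2 | h2
    · linarith
    · exfalso
      apply hn
      have h3 : ‖G 0‖ = 1 := by
        have h4 : 0 < ‖G 0‖ := norm_pos_iff.2 (hG2 0 h0).1
        exact Real.eq_one_of_pos_of_log_eq_zero h4 h2
      have h5 : Set.EqOn G (Function.const ℂ (G 0)) (ball 0 1) := by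
        refine Complex.eqOn_of_isPreconnected_of_isMaxOn_norm
          (convex_ball (0 : ℂ) 1).isPreconnected isOpen_ball hG.differentiableOn h0 ?_
        intro z hz
        show ‖G z‖ ≤ ‖G 0‖
        rw [h3]
        exact (hG2 z hz).2
      refine ⟨hI, G 0, ι, hι, a, h3, ha, hs, fun z hz => ?_⟩
      obtain ⟨b, hb, -, hb2⟩ := hfac z (by simpa using hz)
      have h6 : G z = G 0 := h5 (by simpa using hz)
      rw [hb2, h6, mul_div_cancel_right₀ _ (hG2 0 h0).1]
      exact hb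
  · intro z hz
    obtain ⟨b, -, hb1, hb2⟩ := hfac z hz
    rw [neg_neg, Real.exp_log (norm_pos_iff.2 (hG2 z hz).1), hb2, norm_mul]
    exact mul_le_of_le_one_left (norm_nonneg _) hb1

/-- a Blaschke product without zeros is constant -/
theorem IsBlaschke.zero_or_const {B : Cir → ℂ} (hB : IsBlaschke B) :
    (∃ z ∈ ball (0 : ℂ) 1, ext B z = 0) ∨ ‖ext B 0‖ = 1 := by
  obtain ⟨hI, c, ι, hι, a, hc, ha, hs, hp⟩ := hB
  have hc0 : c ≠ 0 := by
    intro h
    rw [h, norm_zero] at hc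
    exact zero_ne_one hc
  rcases isEmpty_or_nonempty ι with he | ⟨⟨i⟩⟩
  · right
    have h1 := hp 0 (by simp)
    have h2 : HasProd (fun i : ι => bfac (a i) 0) 1 := hasProd_empty
    have h3 := h1.unique h2
    rw [div_eq_one_iff_eq hc0] at h3
    rw [h3, hc]
  · left
    refine ⟨a i, by simpa using ha i, ?_⟩
    have h1 := hp (a i) (ha i)
    have h2 : HasProd (fun j => bfac (a j) (a i)) 0 :=
      hasProd_zero_of_exists_eq_zero ⟨i, Bla.bfac_self (a i)⟩
    have h3 := h1.unique h2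
    exact (div_eq_zero_iff.1 h3).resolve_right hc0

end

end Pool.Agent.Helper59.DGA
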