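import Pool.Agent.Helper59.DG.Def

/-! Factorisation of bounded analytic functions: Blaschke product times a zero-free function. -/

set_option autoImplicit false

namespace Pool.Agent.Helper59.DGA.Bla

open MeasureTheory AddCircle Metric Filter Topology ComplexConjugate

noncomputable section

/-- the factor with which `z - a` has to be multiplied to get `bfac a z` -/
def kap (a z : ℂ) : ℂ := if a = 0 then 1 else -((‖a‖ / a : ℂ) / (1 - conj a * z))

theorem one_sub_ne {a z : ℂ} (ha : ‖a‖ < 1) (hz : ‖z‖ < 1) : 1 - conj a * z ≠ 0 := by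
  intro h
  have h1 : conj a * z = 1 := by
    have := sub_eq_zero.1 h
    exact this.symm
  have h2 : ‖a‖ * ‖z‖ = 1 := by
    have := congrArg norm h1
    simpa using this
  nlinarith [norm_nonneg a, norm_nonneg z]

theorem bfac_eq (a z : ℂ) : bfac a z = (z - a) * kap a z := by
  unfold bfac kap
  split_ifs with h
  · simp [h]
  · rw [mul_div_assoc', mul_neg, mul_div_assoc', ← neg_div]
    congr 1
    ring

theorem kap_ne {a z : ℂ} (ha : ‖a‖ < 1) (hz : ‖z‖ < 1) : kap a z ≠ 0 := by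
  unfold kap
  split_ifs with h
  · exact one_ne_zero
  · have h1 := one_sub_ne ha hz
    have h2 : (‖a‖ : ℂ) ≠ 0 := by
      simpa using h
    exact neg_ne_zero.2 (div_ne_zero (div_ne_zero h2 h) h1)

theorem kap_analytic {a : ℂ} (ha : ‖a‖ < 1) : AnalyticOnNhd ℂ (kap a) (ball 0 1) := by
  intro z hz
  have hz' : ‖z‖ < 1 := by simpa using hz
  unfold kap
  split_ifs with h
  · exact analyticAt_const
  · have h1 := one_sub_ne ha hz'
    refine AnalyticAt.neg (AnalyticAt.div analyticAt_const ?_ h1)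
    exact analyticAt_const.sub (analyticAt_const.mul analyticAt_id)

theorem bfac_analytic {a : ℂ} (ha : ‖a‖ < 1) : AnalyticOnNhd ℂ (bfac a) (ball 0 1) := by
  have : bfac a = fun z => (z - a) * kap a z := funext (bfac_eq a)
  rw [this]
  intro z hz
  exact (analyticAt_id.sub analyticAt_const).mul (kap_analytic ha z hz)

theorem bfac_self (a : ℂ) : bfac a a = 0 := by
  rw [bfac_eq]; simp

theorem bfac_eq_zero {a z : ℂ} (ha : ‖a‖ < 1) (hz : ‖z‖ < 1) (h : bfac a z = 0) : z = a := by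
  rw [bfac_eq] at h
  rcases mul_eq_zero.1 h with h | h
  · exact sub_eq_zero.1 h
  · exact absurd h (kap_ne ha hz)

/-- the Moebius involution -/
def phi (a z : ℂ) : ℂ := (a - z) / (1 - conj a * z)

theorem norm_bfac (a z : ℂ) : ‖bfac a z‖ = ‖phi a z‖ := by
  unfold bfac phi
  split_ifs with h
  · subst h; simp
  · rw [norm_mul]
    have : ‖((‖a‖ / a : ℂ))‖ = 1 := by
      rw [norm_div]
      simp [h]
    rw [this, one_mul]

theorem norm_sq_one_sub (a z : ℂ) :
    ‖1 - conj a * z‖ ^ 2 - ‖a - z‖ ^ 2 = (1 - ‖a‖ ^ 2) * (1 - ‖z‖ ^ 2) := by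
  rw [← Complex.normSq_eq_norm_sq, ← Complex.normSq_eq_norm_sq, ← Complex.normSq_eq_norm_sq,
    ← Complex.normSq_eq_norm_sq]
  simp only [Complex.normSq_apply, Complex.sub_re, Complex.sub_im, Complex.mul_re, Complex.mul_im,
    Complex.conj_re, Complex.conj_im, Complex.one_re, Complex.one_im]
  ring

theorem norm_phi_sq {a z : ℂ} (ha : ‖a‖ < 1) (hz : ‖z‖ < 1) :
    1 - ‖phi a z‖ ^ 2 = (1 - ‖a‖ ^ 2) * (1 - ‖z‖ ^ 2) / ‖1 - conj a * z‖ ^ 2 := by
  have h1 := one_sub_ne ha hz
  have h2 : ‖1 - conj a * z‖ ^ 2 ≠ 0 := pow_ne_zero _ (norm_ne_zero_iff.2 h1)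
  have h3 := norm_sq_one_sub a z
  unfold phi
  rw [norm_div, div_pow, eq_div_iff h2, sub_mul, div_mul_cancel₀ _ h2, one_mul]
  exact h3

theorem norm_phi_lt {a z : ℂ} (ha : ‖a‖ < 1) (hz : ‖z‖ < 1) : ‖phi a z‖ < 1 := by
  have h1 := one_sub_ne ha hz
  have h2 : 0 < ‖1 - conj a * z‖ ^ 2 := by
    have := norm_pos_iff.2 h1
    positivity
  have h3 := norm_phi_sq ha hz
  have h4 : 0 < (1 - ‖a‖ ^ 2) * (1 - ‖z‖ ^ 2) := by
    have := norm_nonneg a
    have := norm_nonneg z
    apply mul_pos <;> nlinarith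
  have h5 : 0 < 1 - ‖phi a z‖ ^ 2 := by
    rw [h3]; positivity
  nlinarith [norm_nonneg (phi a z)]

theorem norm_bfac_le {a z : ℂ} (ha : ‖a‖ < 1) (hz : ‖z‖ < 1) : ‖bfac a z‖ ≤ 1 := by
  rw [norm_bfac]; exact (norm_phi_lt ha hz).le

theorem phi_phi {a z : ℂ} (ha : ‖a‖ < 1) (hz : ‖z‖ < 1) : phi a (phi a z) = z := by
  have h1 := one_sub_ne ha hz
  have h2 := one_sub_ne ha (norm_phi_lt ha hz)
  have h3 : (1 : ℂ) - conj a * a ≠ 0 := one_sub_ne ha ha
  have h4 : 1 - conj a * phi a z = (1 - conj a * a) / (1 - conj a * z) := by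
    rw [eq_div_iff h1]
    unfold phi
    rw [sub_mul, mul_assoc, div_mul_cancel₀ _ h1]
    ring
  have h5 : a - phi a z = z * (1 - conj a * a) / (1 - conj a * z) := by
    rw [eq_div_iff h1]
    unfold phi
    rw [sub_mul, div_mul_cancel₀ _ h1]
    ring
  have h6 : phi a (phi a z) = (a - phi a z) / (1 - conj a * phi a z) := rfl
  rw [h6, h4, h5, div_div_div_cancel_right₀ h1, mul_div_assoc, div_self h3, mul_one]

theorem phi_diff {a : ℂ} (ha : ‖a‖ < 1) : DifferentiableOn ℂ (phi a) (ball 0 1) := by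
  intro z hz
  have hz' : ‖z‖ < 1 := by simpa using hz
  have h1 := one_sub_ne ha hz'
  unfold phi
  refine DifferentiableAt.differentiableWithinAt ?_
  exact DifferentiableAt.div (by fun_prop) (by fun_prop) h1

/-- a class of functions: analytic on the disc and bounded by one -/
def Sch (G : ℂ → ℂ) : Prop := AnalyticOnNhd ℂ G (ball 0 1) ∧ ∀ z ∈ ball (0 : ℂ) 1, ‖G z‖ ≤ 1

theorem schwarz_pick {G : ℂ → ℂ} (hG : Sch G) {a : ℂ} (ha : ‖a‖ < 1) (h0 : G a = 0) {z : ℂ}
    (hz : ‖z‖ < 1) : ‖G z‖ ≤ ‖phi a z‖ := by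
  have hd : DifferentiableOn ℂ (fun w => G (phi a w)) (ball 0 1) := by
    refine DifferentiableOn.comp (t := ball 0 1) hG.1.differentiableOn (phi_diff ha) ?_
    intro w hw
    simpa using norm_phi_lt ha (by simpa using hw : ‖w‖ < 1)
  have hm : Set.MapsTo (fun w => G (phi a w)) (ball 0 1) (closedBall 0 1) := by
    intro w hw
    have := hG.2 (phi a w) (by simpa using norm_phi_lt ha (by simpa using hw : ‖w‖ < 1))
    simpa using this
  have h00 : (fun w => G (phi a w)) 0 = 0 := by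
    simp [phi, h0]
  have := Complex.norm_le_norm_of_mapsTo_ball hd hm h00 (norm_phi_lt ha hz)
  simpa [phi_phi ha hz] using this

/-- division by one Blaschke factor -/
theorem div_one' {G : ℂ → ℂ} (hG : Sch G) {a : ℂ} (ha : ‖a‖ < 1) (h0 : G a = 0) :
    ∃ G1 : ℂ → ℂ, Sch G1 ∧ ∀ z ∈ ball (0 : ℂ) 1, G z = bfac a z * G1 z := by
  have hab : a ∈ ball (0 : ℂ) 1 := by simpa using ha
  have hds : AnalyticOnNhd ℂ (dslope G a) (ball 0 1) := by
    have : DifferentiableOn ℂ (dslope G a) (ball 0 1) :=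
      (Complex.differentiableOn_dslope (isOpen_ball.mem_nhds hab)).2 hG.1.differentiableOn
    exact this.analyticOnNhd isOpen_ball
  have hfac : ∀ z ∈ ball (0 : ℂ) 1, G z = bfac a z * (dslope G a z / kap a z) := by
    intro z hz
    have hz' : ‖z‖ < 1 := by simpa using hz
    have h1 := sub_smul_dslope G a z
    rw [h0, sub_zero, smul_eq_mul] at h1
    rw [bfac_eq]
    have h2 := kap_ne ha hz'
    field_simp
    exact h1.symm
  have han : AnalyticOnNhd ℂ (fun z => dslope G a z / kap a z) (ball 0 1) := by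
    intro z hz
    exact (hds z hz).div (kap_analytic ha z hz) (kap_ne ha (by simpa using hz))
  refine ⟨fun z => dslope G a z / kap a z, ⟨han, ?_⟩, hfac⟩
  have hne : ∀ z ∈ ball (0 : ℂ) 1, z ≠ a → ‖dslope G a z / kap a z‖ ≤ 1 := by
    intro z hz hza
    have hz' : ‖z‖ < 1 := by simpa using hz
    have h1 := schwarz_pick hG ha h0 hz'
    rw [hfac z hz, norm_mul, norm_bfac] at h1
    have h2 : 0 < ‖phi a z‖ := by
      rw [← norm_bfac]
      exact norm_pos_iff.2 (fun h => hza (bfac_eq_zero ha hz' h))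
    by_contra hcon
    push Not at hcon
    nlinarith
  intro z hz
  by_cases hza : z = a
  · subst hza
    have hc : ContinuousAt (fun w => ‖dslope G z w / kap z w‖) z :=
      (han z hz).continuousAt.norm
    have ht : Tendsto (fun w => ‖dslope G z w / kap z w‖) (𝓝[≠] z)
        (𝓝 ‖dslope G z z / kap z z‖) := hc.tendsto.mono_left nhdsWithin_le_nhds
    refine le_of_tendsto ht ?_
    have h1 : ∀ᶠ w in 𝓝[≠] z, w ∈ ball (0 : ℂ) 1 :=
      nhdsWithin_le_nhds (isOpen_ball.mem_nhds hz)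
    filter_upwards [h1, self_mem_nhdsWithin] with w hw hw2
    exact hne w hw hw2
  · exact hne z hz hza

end

end Pool.Agent.Helper59.DGA.Bla
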