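import Pool.Agent.Helper59.DG.BlaA

/-! Factorisation of bounded analytic functions: the infinite product. -/

set_option autoImplicit false

namespace Pool.Agent.Helper59.DGA.Bla

open MeasureTheory AddCircle Metric Filter Topology ComplexConjugate

noncomputable section

theorem exists_min_zero {G : ℂ → ℂ} (hG : Sch G) (hz : ∃ w ∈ ball (0 : ℂ) 1, G w = 0) :
    ∃ a, ‖a‖ < 1 ∧ G a = 0 ∧ ∀ w ∈ ball (0 : ℂ) 1, G w = 0 → ‖a‖ ≤ ‖w‖ := by
  obtain ⟨w0, hw0, h0⟩ := hz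
  have hw0' : ‖w0‖ < 1 := by simpa using hw0
  have hsub : closedBall (0 : ℂ) ‖w0‖ ⊆ ball 0 1 := closedBall_subset_ball hw0'
  have hcl : IsClosed (closedBall (0 : ℂ) ‖w0‖ ∩ G ⁻¹' {0}) :=
    ContinuousOn.preimage_isClosed_of_isClosed (hG.1.continuousOn.mono hsub)
      isClosed_closedBall isClosed_singleton
  have hcomp : IsCompact (closedBall (0 : ℂ) ‖w0‖ ∩ G ⁻¹' {0}) :=
    (isCompact_closedBall (0 : ℂ) ‖w0‖).of_isClosed_subset hcl Set.inter_subset_left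
  obtain ⟨a, ha, hmin⟩ := hcomp.exists_isMinOn ⟨w0, by simp, h0⟩ continuous_norm.continuousOn
  have ha1 : ‖a‖ ≤ ‖w0‖ := by simpa using ha.1
  refine ⟨a, ha1.trans_lt hw0', ha.2, fun w hw hGw => ?_⟩
  by_cases hle : ‖w‖ ≤ ‖w0‖
  · exact hmin ⟨by simpa using hle, hGw⟩
  · push Not at hle
    exact ha1.trans hle.le

theorem exists_step (G : {G : ℂ → ℂ // Sch G}) : ∃ p : ℂ × {G : ℂ → ℂ // Sch G},
    (∃ w ∈ ball (0 : ℂ) 1, G.1 w = 0) → ‖p.1‖ < 1 ∧
      (∀ w ∈ ball (0 : ℂ) 1, G.1 w = 0 → ‖p.1‖ ≤ ‖w‖) ∧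
      ∀ z ∈ ball (0 : ℂ) 1, G.1 z = bfac p.1 z * p.2.1 z := by
  by_cases h : ∃ w ∈ ball (0 : ℂ) 1, G.1 w = 0
  · obtain ⟨a, ha, h0, hmin⟩ := exists_min_zero G.2 h
    obtain ⟨G1, hG1, hf⟩ := div_one' G.2 ha h0
    exact ⟨(a, ⟨G1, hG1⟩), fun _ => ⟨ha, hmin, hf⟩⟩
  · exact ⟨(0, G), fun h' => absurd h' h⟩

theorem norm_bfac_sub_one {a z : ℂ} (ha : ‖a‖ < 1) (hz : ‖z‖ < 1) :
    ‖bfac a z - 1‖ ≤ 2 / (1 - ‖z‖) * (1 - ‖a‖) := by
  have hz0 := norm_nonneg z
  have h1z : 0 < 1 - ‖z‖ := by linarith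
  by_cases h : a = 0
  · subst h
    have h1 : bfac 0 z = z := by simp [bfac]
    have h2 : ‖z - 1‖ ≤ 2 := by
      have := norm_sub_le z 1
      simp only [norm_one] at this
      linarith
    have h3 : (2 : ℝ) ≤ 2 / (1 - ‖z‖) := by
      rw [le_div_iff₀ h1z]; linarith
    rw [h1, norm_zero, sub_zero, mul_one]
    exact h2.trans h3
  · have hd := one_sub_ne ha hz
    have hcc : conj a * a = (‖a‖ : ℂ) * ‖a‖ := by
      rw [mul_comm, Complex.mul_conj, Complex.normSq_eq_norm_sq]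
      push_cast
      ring
    have h1 : bfac a z - 1 = -((1 - (‖a‖ : ℂ)) * (a + ‖a‖ * z) / (a * (1 - conj a * z))) := by
      have h2 : bfac a z = (‖a‖ : ℂ) * (a - z) / (a * (1 - conj a * z)) := by
        unfold bfac
        rw [if_neg h, div_mul_div_comm]
      rw [h2, ← neg_div, sub_eq_iff_eq_add, div_add_one (mul_ne_zero h hd)]
      congr 1
      linear_combination z * hcc
    have h3 : ‖a + ‖a‖ * z‖ ≤ ‖a‖ * 2 := by
      have := norm_add_le a (‖a‖ * z)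
      rw [norm_mul, Complex.norm_real, norm_norm] at this
      nlinarith [norm_nonneg a]
    have h4 : 1 - ‖z‖ ≤ ‖1 - conj a * z‖ := by
      have := norm_sub_norm_le (1 : ℂ) (conj a * z)
      rw [norm_mul, norm_one, RCLike.norm_conj] at this
      nlinarith [norm_nonneg a]
    have h5 : ‖(1 : ℂ) - (‖a‖ : ℂ)‖ = 1 - ‖a‖ := by
      have : (1 : ℂ) - (‖a‖ : ℂ) = ((1 - ‖a‖ : ℝ) : ℂ) := by push_cast; ring
      rw [this, Complex.norm_real, Real.norm_eq_abs, abs_of_nonneg (by linarith)]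
    have ha0 : 0 < ‖a‖ := norm_pos_iff.2 h
    rw [h1, norm_neg, norm_div, norm_mul, norm_mul, h5]
    rw [div_le_iff₀ (mul_pos ha0 (lt_of_lt_of_le h1z h4))]
    have h6 : 2 / (1 - ‖z‖) * (1 - ‖a‖) * (‖a‖ * ‖1 - conj a * z‖)
        = ((1 - ‖a‖) * (‖a‖ * 2)) * (‖1 - conj a * z‖ / (1 - ‖z‖)) := by
      field_simp
    rw [h6]
    have h7 : 1 ≤ ‖1 - conj a * z‖ / (1 - ‖z‖) := by
      rw [le_div_iff₀ h1z]; linarith
    have h8 : (1 - ‖a‖) * ‖a + ‖a‖ * z‖ ≤ (1 - ‖a‖) * (‖a‖ * 2) :=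
      mul_le_mul_of_nonneg_left h3 (by linarith)
    have h9 : 0 ≤ (1 - ‖a‖) * (‖a‖ * 2) := by
      apply mul_nonneg <;> nlinarith
    calc (1 - ‖a‖) * ‖a + ‖a‖ * z‖ ≤ (1 - ‖a‖) * (‖a‖ * 2) := h8
      _ = (1 - ‖a‖) * (‖a‖ * 2) * 1 := (mul_one _).symm
      _ ≤ _ := mul_le_mul_of_nonneg_left h7 h9

theorem norm_bfac_sq_le {a z : ℂ} (ha : ‖a‖ < 1) (hz : ‖z‖ < 1) :
    ‖bfac a z‖ ^ 2 ≤ Real.exp (-((1 - ‖z‖ ^ 2) / 4 * (1 - ‖a‖))) := by
  have h1 := norm_phi_sq ha hz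
  have hd := one_sub_ne ha hz
  have hd' : 0 < ‖1 - conj a * z‖ := norm_pos_iff.2 hd
  have h2 : ‖1 - conj a * z‖ ≤ 2 := by
    have := norm_sub_le (1 : ℂ) (conj a * z)
    rw [norm_mul, norm_one, RCLike.norm_conj] at this
    nlinarith [norm_nonneg a, norm_nonneg z]
  have hz2 : 0 ≤ 1 - ‖z‖ ^ 2 := by nlinarith [norm_nonneg z]
  have h3 : (1 - ‖z‖ ^ 2) / 4 * (1 - ‖a‖) ≤ 1 - ‖phi a z‖ ^ 2 := by
    rw [h1, le_div_iff₀ (by positivity)]
    have h4 : ‖1 - conj a * z‖ ^ 2 ≤ 4 := by nlinarith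
    have h5 : 0 ≤ 1 - ‖a‖ := by linarith
    calc (1 - ‖z‖ ^ 2) / 4 * (1 - ‖a‖) * ‖1 - conj a * z‖ ^ 2
        ≤ (1 - ‖z‖ ^ 2) / 4 * (1 - ‖a‖) * 4 := by gcongr
      _ = (1 - ‖a‖) * (1 - ‖z‖ ^ 2) := by ring
      _ ≤ (1 - ‖a‖ ^ 2) * (1 - ‖z‖ ^ 2) := by
        apply mul_le_mul_of_nonneg_right _ hz2
        nlinarith [norm_nonneg a]
  rw [norm_bfac]
  have h6 := Real.add_one_le_exp (-((1 - ‖z‖ ^ 2) / 4 * (1 - ‖a‖)))
  linarith

section prod

variable {a : ℕ → ℂ} (ha : ∀ n, ‖a n‖ < 1) (hs : Summable fun n => 1 - ‖a n‖)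

/-- the tail of the Blaschke product -/
def T (a : ℕ → ℂ) (N : ℕ) (z : ℂ) : ℂ := ∏' k, bfac (a (N + k)) z

include ha hs

theorem T_unif (N : ℕ) :
    HasProdLocallyUniformlyOn (fun k z => bfac (a (N + k)) z) (T a N) (ball 0 1) := by
  have hs' : Summable fun k => 1 - ‖a (N + k)‖ := by
    have := (summable_nat_add_iff N).2 hs
    exact this.congr (fun k => by rw [add_comm])
  have key : HasProdLocallyUniformlyOn (fun k z => 1 + (bfac (a (N + k)) z - 1))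
      (fun z => ∏' k, (1 + (bfac (a (N + k)) z - 1))) (ball 0 1) := by
    apply hasProdLocallyUniformlyOn_of_forall_compact isOpen_ball
    intro K hK hcK
    rcases K.eq_empty_or_nonempty with hN | hN
    · simpa [hasProdUniformlyOn_iff_tendstoUniformlyOn, hN] using tendstoUniformlyOn_empty
    · obtain ⟨q₀, hq₀, _, HB⟩ := hcK.exists_sSup_image_eq_and_ge hN
        (show ContinuousOn (fun q : ℂ ↦ ‖q‖) K by fun_prop)
      have hq1 : ‖q₀‖ < 1 := by simpa using hK hq₀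
      refine (hs'.mul_left (2 / (1 - ‖q₀‖))).hasProdUniformlyOn_one_add hcK
        (.of_forall fun n x hx ↦ ?_) (fun n ↦ ?_)
      · have hx1 : ‖x‖ < 1 := by simpa using hK hx
        refine (norm_bfac_sub_one (ha _) hx1).trans ?_
        have h1 : 0 < 1 - ‖q₀‖ := by linarith
        have h2 : ‖x‖ ≤ ‖q₀‖ := HB x hx
        have h3 : 0 ≤ 1 - ‖a (N + n)‖ := by linarith [ha (N + n)]
        gcongr
      · exact (((bfac_analytic (ha _)).continuousOn).mono hK).sub continuousOn_const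
  have e1 : (fun k z => 1 + (bfac (a (N + k)) z - 1)) = fun k z => bfac (a (N + k)) z := by
    funext k z; ring
  have e2 : (fun z => ∏' k, (1 + (bfac (a (N + k)) z - 1))) = T a N := by
    funext z
    exact tprod_congr (fun k => by ring)
  rw [e1, e2] at key
  exact key

theorem T_hasProd (N : ℕ) {z : ℂ} (hz : z ∈ ball (0 : ℂ) 1) :
    HasProd (fun k => bfac (a (N + k)) z) (T a N z) :=
  (T_unif ha hs N).hasProd hz

theorem T_analytic (N : ℕ) : AnalyticOnNhd ℂ (T a N) (ball 0 1) := by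
  have : DifferentiableOn ℂ (T a N) (ball 0 1) :=
    (T_unif ha hs N).differentiableOn
    (.of_forall fun s ↦ by
      have : (fun z => ∏ k ∈ s, bfac (a (N + k)) z) = ∏ k ∈ s, bfac (a (N + k)) := by
        ext z; simp
      simpa [this] using DifferentiableOn.finsetProd
        (fun k _ => (bfac_analytic (ha (N + k))).differentiableOn)) Metric.isOpen_ball
  exact this.analyticOnNhd isOpen_ball

theorem T_succ (N : ℕ) {z : ℂ} (hz : z ∈ ball (0 : ℂ) 1) :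
    T a N z = bfac (a N) z * T a (N + 1) z := by
  have h1 : Multipliable fun k => bfac (a (N + (k + 1))) z := by
    have := (T_hasProd ha hs (N + 1) hz).multipliable
    exact this.congr (fun k => by rw [add_assoc, add_comm 1 k])
  have h2 := tprod_eq_zero_mul' (f := fun k => bfac (a (N + k)) z) h1
  have h3 : T a (N + 1) z = ∏' k, bfac (a (N + (k + 1))) z := by
    unfold T
    exact tprod_congr (fun k => by rw [add_assoc, add_comm 1 k])
  rw [h3]
  exact h2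

theorem T_ne (N : ℕ) {z : ℂ} (hz : z ∈ ball (0 : ℂ) 1) (h : ∀ k, N ≤ k → bfac (a k) z ≠ 0) :
    T a N z ≠ 0 := by
  have hz1 : ‖z‖ < 1 := by simpa using hz
  have hs' : Summable fun k => 1 - ‖a (N + k)‖ := by
    have := (summable_nat_add_iff N).2 hs
    exact this.congr (fun k => by rw [add_comm])
  have h1 : ∏' k, (1 + (bfac (a (N + k)) z - 1)) ≠ 0 := by
    apply tprod_one_add_ne_zero_of_summable
    · intro k
      simpa using h (N + k) (by omega)
    · exact Summable.of_nonneg_of_le (fun _ => norm_nonneg _)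
        (fun k => norm_bfac_sub_one (ha _) hz1) (hs'.mul_left _)
  simpa [T] using h1

theorem T_tendsto {z : ℂ} (hz : z ∈ ball (0 : ℂ) 1) {N : ℕ}
    (h : ∀ k, N ≤ k → bfac (a k) z ≠ 0) :
    Tendsto (fun n => ‖T a (N + n) z‖) atTop (𝓝 1) := by
  have h0 := T_ne ha hs N hz h
  have h1 := (T_hasProd ha hs N hz).tendsto_prod_nat
  have h2 : ∀ n, T a N z = (∏ k ∈ Finset.range n, bfac (a (N + k)) z) * T a (N + n) z := by
    intro n
    induction n with
    | zero => simp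
    | succ n ih =>
      rw [Finset.prod_range_succ, mul_assoc, ← add_assoc, ← T_succ ha hs (N + n) hz, ← ih]
  have h3 : ∀ n, T a (N + n) z = T a N z / (∏ k ∈ Finset.range n, bfac (a (N + k)) z) := by
    intro n
    have h4 : (∏ k ∈ Finset.range n, bfac (a (N + k)) z) ≠ 0 :=
      Finset.prod_ne_zero_iff.2 (fun k _ => h _ (by omega))
    rw [eq_div_iff h4, mul_comm]
    exact (h2 n).symm
  have h5 : Tendsto (fun n => T a (N + n) z) atTop (𝓝 (T a N z / T a N z)) := by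
    simp_rw [h3]
    exact tendsto_const_nhds.div h1 h0
  rw [div_self h0] at h5
  simpa using h5.norm

end prod

end

end Pool.Agent.Helper59.DGA.Bla
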