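import Mathlib

/-!
# Douglas algebras: definitions
-/

set_option autoImplicit false

namespace Pool.Agent.Helper59.DGA

open MeasureTheory AddCircle Metric

noncomputable section

/-- the circle, parametrised by `ℝ / ℤ` -/
abbrev Cir : Type := UnitAddCircle

/-- normalised Lebesgue measure on the circle -/
abbrev mC : Measure Cir := haarAddCircle

/-- the point `exp (2 π i t)` of the unit circle with parameter `t` -/
def e (t : Cir) : ℂ := (toCircle t : ℂ)

/-- the Poisson kernel -/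
def P (z : ℂ) (t : Cir) : ℝ := (1 - ‖z‖ ^ 2) / ‖e t - z‖ ^ 2

/-- the Poisson integral of a function on the circle -/
def ext (f : Cir → ℂ) (z : ℂ) : ℂ := ∫ t, (P z t : ℂ) * f t ∂mC

/-- the (boundary values of) bounded analytic functions: essentially bounded functions whose
Fourier coefficients of negative index vanish -/
def Hinf : Set (Cir → ℂ) := {f | MemLp f ⊤ mC ∧ ∀ n : ℤ, n < 0 → fourierCoeff f n = 0}

/-- inner functions -/
def IsInner (f : Cir → ℂ) : Prop := f ∈ Hinf ∧ ∀ᵐ t ∂mC, ‖f t‖ = 1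

/-- the complex conjugate function -/
def cj (f : Cir → ℂ) (t : Cir) : ℂ := starRingEnd ℂ (f t)

/-- Douglas algebras: closed subalgebras of `L^∞` which contain `H^∞` -/
structure IsDouglas (D : Set (Cir → ℂ)) : Prop where
  bdd : ∀ f ∈ D, MemLp f ⊤ mC
  hinf : Hinf ⊆ D
  add : ∀ f ∈ D, ∀ g ∈ D, f + g ∈ D
  mul : ∀ f ∈ D, ∀ g ∈ D, f * g ∈ D
  closed : ∀ f, MemLp f ⊤ mC → (∀ δ > 0, ∃ g ∈ D, ∀ᵐ t ∂mC, ‖f t - g t‖ ≤ δ) → f ∈ D

/-- the inner functions which are invertible in `D` -/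
def Inv (D : Set (Cir → ℂ)) : Set (Cir → ℂ) := {I | IsInner I ∧ cj I ∈ D}

/-- a Blaschke factor -/
def bfac (a z : ℂ) : ℂ :=
  if a = 0 then z else (‖a‖ / a : ℂ) * ((a - z) / (1 - starRingEnd ℂ a * z))

/-- Blaschke products -/
def IsBlaschke (B : Cir → ℂ) : Prop :=
  IsInner B ∧ ∃ (c : ℂ) (ι : Type) (_ : Countable ι) (a : ι → ℂ), ‖c‖ = 1 ∧ (∀ i, ‖a i‖ < 1) ∧
    Summable (fun i => 1 - ‖a i‖) ∧
    ∀ z : ℂ, ‖z‖ < 1 → HasProd (fun i => bfac (a i) z) (ext B z / c)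

/-- the set of points of the open unit disc where `|B| > 1 - ε` -/
def Lev (B : Cir → ℂ) (ε : ℝ) : Set ℂ := {z | ‖z‖ < 1 ∧ 1 - ε < ‖ext B z‖}

/-- positive harmonic functions on the open unit disc -/
def PosHarm (h : ℂ → ℝ) : Prop :=
  InnerProductSpace.HarmonicOnNhd h (ball 0 1) ∧ ∀ z ∈ ball (0 : ℂ) 1, 0 ≤ h z

/-- the Poisson integral of a measure -/
def PI (μ : Measure Cir) (z : ℂ) : ℝ := ∫ t, P z t ∂μ

/-- the Herglotz integral of a measure -/
def HI (μ : Measure Cir) (z : ℂ) : ℂ := ∫ t, (e t + z) / (e t - z) ∂μ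

end

end Pool.Agent.Helper59.DGA
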