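import Pool.Agent.Helper59.DG.Ker

/-! Duality for Poisson kernels. -/

set_option autoImplicit false

namespace Pool.Agent.Helper59.DGA

open MeasureTheory AddCircle Metric Filter Topology

noncomputable section

namespace DualAux

open scoped CompactlySupported in
/-- Riesz representation on a compact space. -/
theorem riesz {α : Type*} [TopologicalSpace α] [T2Space α] [CompactSpace α] [MeasurableSpace α]
    [BorelSpace α] (φ : C(α, ℝ) →ₗ[ℝ] ℝ) (hpos : ∀ w : C(α, ℝ), 0 ≤ w → 0 ≤ φ w) :
    ∃ μ : Measure α, IsFiniteMeasure μ ∧ ∀ w : C(α, ℝ), ∫ y, w y ∂μ = φ w := by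
  let toCM : C_c(α, ℝ) →ₗ[ℝ] C(α, ℝ) :=
    { toFun := fun f => f.toContinuousMap
      map_add' := fun _ _ => rfl
      map_smul' := fun _ _ => rfl }
  let L : C_c(α, ℝ) →ₚ[ℝ] ℝ := PositiveLinearMap.mk₀ (φ ∘ₗ toCM) (fun f hf => hpos _ hf)
  refine ⟨RealRMK.rieszMeasure L, inferInstance, fun w => ?_⟩
  have := RealRMK.integral_rieszMeasure L (CompactlySupportedContinuousMap.continuousMapEquiv w)
  exact this

end DualAux

open DualAux

theorem exists_measure {E : Set ℂ} (hE : ∀ z ∈ E, ‖z‖ < 1) {K : Set Cir} (hK : IsCompact K)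
    {η : ℝ} (hη : 0 < η)
    (hn : ¬ ∃ (s : Finset ℂ) (a : ℂ → ℝ), (∀ z ∈ s, z ∈ E ∧ 0 ≤ a z) ∧ ∑ z ∈ s, a z < η ∧
      ∀ t ∈ K, 1 ≤ ∑ z ∈ s, a z * P z t) :
    ∃ μ : Measure Cir, IsFiniteMeasure μ ∧ μ Kᶜ = 0 ∧ 0 < μ K ∧ ∃ M : ℝ, ∀ z ∈ E, PI μ z ≤ M := by
  classical
  have : CompactSpace K := isCompact_iff_compactSpace.1 hK
  -- the Poisson kernel as a continuous function on `K` (zero outside the disc)
  let p : ℂ → C(K, ℝ) := fun z =>
    if hz : ‖z‖ < 1 then ⟨fun x => P z (x : Cir), (continuous_P hz).comp continuous_subtype_val⟩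
    else 0
  have hp : ∀ z, ‖z‖ < 1 → ∀ x : K, p z x = P z (x : Cir) := by
    intro z hz x
    simp only [p, dif_pos hz]
    rfl
  let S : Set C(K, ℝ) := {f | ∃ (s : Finset ℂ) (a : ℂ → ℝ), (∀ z ∈ s, z ∈ E ∧ 0 ≤ a z) ∧
    ∑ z ∈ s, a z < η ∧ f = ∑ z ∈ s, a z • p z}
  let O : Set C(K, ℝ) := {f | ∀ x, 1 < f x}
  have hO1 : Convex ℝ O := by
    intro f hf g hg a b ha hb hab x
    have h1 := hf x
    have h2 := hg x
    have : (a • f + b • g) x = a * f x + b * g x := rfl
    rw [this]
    rcases eq_or_lt_of_le ha with h0 | h0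
    · rw [← h0] at hab ⊢
      rw [zero_add] at hab
      rw [hab]
      simpa using h2
    · nlinarith
  have hO2 : IsOpen O := by
    have : O = {f : C(K, ℝ) | Set.MapsTo f Set.univ (Set.Ioi 1)} := by
      ext f
      simp [O, Set.MapsTo]
    rw [this]
    exact ContinuousMap.isOpen_setOfPred_mapsTo isCompact_univ isOpen_Ioi
  have hS : Convex ℝ S := by
    rintro f ⟨s, a, hs, ha, rfl⟩ g ⟨s', a', hs', ha', rfl⟩ α β hα hβ hαβ
    refine ⟨s ∪ s', fun z => α * (if z ∈ s then a z else 0) + β * (if z ∈ s' then a' z else 0),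
      ?_, ?_, ?_⟩
    · intro z hz
      constructor
      · rcases Finset.mem_union.1 hz with h | h
        · exact (hs z h).1
        · exact (hs' z h).1
      · have h1 : 0 ≤ (if z ∈ s then a z else 0) := by
          split_ifs with h
          · exact (hs z h).2
          · exact le_rfl
        have h2 : 0 ≤ (if z ∈ s' then a' z else 0) := by
          split_ifs with h
          · exact (hs' z h).2
          · exact le_rfl
        positivity
    · rw [Finset.sum_add_distrib, ← Finset.mul_sum, ← Finset.mul_sum, Finset.sum_ite_mem,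
        Finset.sum_ite_mem, Finset.union_inter_cancel_left, Finset.union_inter_cancel_right]
      rcases eq_or_lt_of_le hα with h0 | h0
      · rw [← h0] at hαβ ⊢
        rw [zero_add] at hαβ
        rw [hαβ]
        simpa using ha'
      · nlinarith
    · simp only [add_smul, mul_smul, ite_smul, zero_smul]
      rw [Finset.sum_add_distrib, ← Finset.smul_sum, ← Finset.smul_sum, Finset.sum_ite_mem,
        Finset.sum_ite_mem, Finset.union_inter_cancel_left, Finset.union_inter_cancel_right]
  have hd : Disjoint O S := by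
    rw [Set.disjoint_left]
    rintro f hf ⟨s, a, hs, ha, rfl⟩
    apply hn
    refine ⟨s, a, hs, ha, fun t ht => ?_⟩
    have h1 := hf ⟨t, ht⟩
    rw [ContinuousMap.sum_apply] at h1
    refine h1.le.trans (le_of_eq ?_)
    refine Finset.sum_congr rfl fun z hz => ?_
    rw [ContinuousMap.smul_apply, hp z (hE z (hs z hz).1), smul_eq_mul]
  obtain ⟨f, u, h1, h2⟩ := geometric_hahn_banach_open hO1 hO2 hS hd
  have hu : u ≤ 0 := by
    have : (0 : C(K, ℝ)) ∈ S := ⟨∅, 0, by simp, by simpa using hη, by simp⟩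
    simpa using h2 0 this
  -- positivity
  have hpos : ∀ w : C(K, ℝ), 0 ≤ w → 0 ≤ -f w := by
    intro w hw
    by_contra hneg
    have hneg : 0 < f w := by linarith
    have h3 : ∀ t : ℝ, 0 ≤ t → f (2 : C(K, ℝ)) + t * f w < u := by
      intro t ht
      have h4 : (2 : C(K, ℝ)) + t • w ∈ O := by
        intro x
        have h5 : 0 ≤ w x := hw x
        have : ((2 : C(K, ℝ)) + t • w) x = 2 + t * w x := rfl
        rw [this]
        nlinarith [mul_nonneg ht h5]
      have h6 := h1 _ h4
      rwa [map_add, map_smul, smul_eq_mul] at h6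
    have h7 := h3 (|f (2 : C(K, ℝ))| / f w) (by positivity)
    rw [div_mul_cancel₀ _ hneg.ne'] at h7
    have := neg_abs_le (f (2 : C(K, ℝ)))
    linarith
  obtain ⟨ν, hν, hint⟩ := riesz (-(f : C(K, ℝ) →ₗ[ℝ] ℝ)) (fun w hw => hpos w hw)
  have hcast : Measurable (Subtype.val : K → Cir) := measurable_subtype_coe
  refine ⟨ν.map Subtype.val, inferInstance, ?_, ?_, -(2 * u / η), ?_⟩
  · rw [Measure.map_apply hcast hK.isClosed.isOpen_compl.measurableSet]
    simp
  · rw [Measure.map_apply hcast hK.isClosed.measurableSet]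
    have h8 : (Subtype.val : K → Cir) ⁻¹' K = Set.univ := by
      ext x
      simp
    rw [h8, Measure.measure_univ_pos]
    rintro rfl
    have h9 := hint 2
    rw [integral_zero_measure] at h9
    have h10 : (2 : C(K, ℝ)) ∈ O := fun x => by
      have : (2 : C(K, ℝ)) x = 2 := rfl
      rw [this]
      norm_num
    have h11 := h1 _ h10
    have h12 : (-(f : C(K, ℝ) →ₗ[ℝ] ℝ)) (2 : C(K, ℝ)) = -f 2 := rfl
    rw [h12] at h9
    linarith
  · intro z hz
    have h13 : (η / 2) • p z ∈ S := by
      refine ⟨{z}, fun _ => η / 2, ?_, ?_, ?_⟩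
      · intro w hw
        rw [Finset.mem_singleton.1 hw]
        exact ⟨hz, by positivity⟩
      · simpa using half_lt_self hη
      · simp
    have h14 := h2 _ h13
    rw [map_smul, smul_eq_mul] at h14
    have h15 : PI (ν.map Subtype.val) z = -f (p z) := by
      rw [PI, integral_map hcast.aemeasurable
        ((continuous_P (hE z hz)).measurable.aestronglyMeasurable)]
      have h16 := hint (p z)
      have h12 : (-(f : C(K, ℝ) →ₗ[ℝ] ℝ)) (p z) = -f (p z) := rfl
      rw [h12] at h16
      rw [← h16]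
      exact integral_congr_ae (Eventually.of_forall fun x => (hp z (hE z hz) x).symm)
    rw [h15]
    have h17 : 2 * u / η ≤ f (p z) := by
      rw [div_le_iff₀ hη]
      linarith
    linarith

end

end Pool.Agent.Helper59.DGA
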