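import Pool.Agent.Helper59.DG.LP

/-! The main estimate. -/

set_option autoImplicit false

namespace Pool.Agent.Helper59.DGA

open MeasureTheory AddCircle Metric Filter Topology

noncomputable section

/-- the test function -/
def Phi (A B f g : ℂ → ℂ) (n : ℕ) (z : ℂ) : ℂ :=
  Complex.exp (-starRingEnd ℂ (A z)) * (1 + 2 * (A z).re + 2 * (A z).re ^ 2 : ℝ) *
    (B z ^ (n + 2) * (f z * g z))

namespace EstAux

theorem e1 (x : ℝ) : x * Real.exp (-x) ≤ 1 := by
  have h := Real.add_one_le_exp x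
  have h2 : x ≤ Real.exp x := by linarith
  calc x * Real.exp (-x) ≤ Real.exp x * Real.exp (-x) :=
        mul_le_mul_of_nonneg_right h2 (Real.exp_pos _).le
    _ = 1 := by rw [← Real.exp_add]; simp

theorem e2 (x : ℝ) (hx : 0 ≤ x) : x ^ 2 * Real.exp (-x) ≤ 2 := by
  have h := Real.quadratic_le_exp_of_nonneg hx
  have h2 : x ^ 2 ≤ 2 * Real.exp x := by linarith
  calc x ^ 2 * Real.exp (-x) ≤ 2 * Real.exp x * Real.exp (-x) :=
        mul_le_mul_of_nonneg_right h2 (Real.exp_pos _).le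
    _ = 2 := by rw [mul_assoc, ← Real.exp_add]; simp

theorem b1 {δ m p : ℝ} (hδ : 0 < δ) (hm : 0 < m) (hp : 0 ≤ p) :
    p * Real.exp (-(p / 2)) * Real.exp (-(m * (δ * min 1 p))) ≤ 2 / (m * δ) := by
  have hmd : 0 < m * δ := mul_pos hm hδ
  rw [le_div_iff₀ hmd]
  rcases le_total p 1 with h | h
  · rw [min_eq_right h]
    have h1 := e1 (m * (δ * p))
    have h2 : Real.exp (-(p / 2)) ≤ 1 := by
      rw [Real.exp_le_one_iff]; linarith
    have h3 : 0 < Real.exp (-(p / 2)) := Real.exp_pos _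
    calc p * Real.exp (-(p / 2)) * Real.exp (-(m * (δ * p))) * (m * δ)
        = Real.exp (-(p / 2)) * ((m * (δ * p)) * Real.exp (-(m * (δ * p)))) := by ring
      _ ≤ 1 * 1 := by
          apply mul_le_mul h2 h1 _ zero_le_one
          positivity
      _ ≤ 2 := by norm_num
  · rw [min_eq_left h]
    have h1 := e1 (m * (δ * 1))
    have h2 := e1 (p / 2)
    have h3 : 0 ≤ (p / 2) * Real.exp (-(p / 2)) := by positivity
    have h4 : 0 ≤ (m * (δ * 1)) * Real.exp (-(m * (δ * 1))) := by positivity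
    calc p * Real.exp (-(p / 2)) * Real.exp (-(m * (δ * 1))) * (m * δ)
        = 2 * (((p / 2) * Real.exp (-(p / 2))) * ((m * (δ * 1)) * Real.exp (-(m * (δ * 1))))) := by
          ring
      _ ≤ 2 * (1 * 1) := by
          apply mul_le_mul_of_nonneg_left _ (by norm_num)
          exact mul_le_mul h2 h1 h4 zero_le_one
      _ = 2 := by norm_num

theorem b2 {δ m p : ℝ} (hδ : 0 < δ) (hm : 0 < m) (hp : 0 ≤ p) :
    p ^ 2 * Real.exp (-(p / 2)) * Real.exp (-(m * (δ * min 1 p))) ≤ 8 / (m * δ) := by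
  have hmd : 0 < m * δ := mul_pos hm hδ
  rw [le_div_iff₀ hmd]
  rcases le_total p 1 with h | h
  · rw [min_eq_right h]
    have h1 := e1 (m * (δ * p))
    have h2 : Real.exp (-(p / 2)) ≤ 1 := by
      rw [Real.exp_le_one_iff]; linarith
    have h3 : 0 < Real.exp (-(p / 2)) := Real.exp_pos _
    have h4 : 0 ≤ (m * (δ * p)) * Real.exp (-(m * (δ * p))) := by positivity
    calc p ^ 2 * Real.exp (-(p / 2)) * Real.exp (-(m * (δ * p))) * (m * δ)
        = p * Real.exp (-(p / 2)) * ((m * (δ * p)) * Real.exp (-(m * (δ * p)))) := by ring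
      _ ≤ 1 * 1 := by
          apply mul_le_mul _ h1 h4 zero_le_one
          calc p * Real.exp (-(p / 2)) ≤ 1 * 1 := mul_le_mul h h2 h3.le zero_le_one
            _ = 1 := by norm_num
      _ ≤ 8 := by norm_num
  · rw [min_eq_left h]
    have h1 := e1 (m * (δ * 1))
    have h2 := e2 (p / 2) (by linarith)
    have h3 : 0 ≤ (p / 2) ^ 2 * Real.exp (-(p / 2)) := by positivity
    have h4 : 0 ≤ (m * (δ * 1)) * Real.exp (-(m * (δ * 1))) := by positivity
    calc p ^ 2 * Real.exp (-(p / 2)) * Real.exp (-(m * (δ * 1))) * (m * δ)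
        = 4 * (((p / 2) ^ 2 * Real.exp (-(p / 2))) *
            ((m * (δ * 1)) * Real.exp (-(m * (δ * 1))))) := by
          ring
      _ ≤ 4 * (2 * 1) := by
          apply mul_le_mul_of_nonneg_left _ (by norm_num)
          exact mul_le_mul h2 h1 h4 (by norm_num)
      _ = 8 := by norm_num

theorem b3 {δ m p : ℝ} (hδ : 0 < δ) (hm : 0 < m) (hp : 0 ≤ p) :
    p ^ 2 * Real.exp (-(p / 2)) * Real.exp (-(m * (δ * min 1 p))) ≤ 16 / (m * δ) ^ 2 := by
  have hmd : 0 < m * δ := mul_pos hm hδ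
  rw [le_div_iff₀ (by positivity)]
  rcases le_total p 1 with h | h
  · rw [min_eq_right h]
    have h1 := e2 (m * (δ * p)) (by positivity)
    have h2 : Real.exp (-(p / 2)) ≤ 1 := by
      rw [Real.exp_le_one_iff]; linarith
    have h3 : 0 < Real.exp (-(p / 2)) := Real.exp_pos _
    have h4 : 0 ≤ (m * (δ * p)) ^ 2 * Real.exp (-(m * (δ * p))) := by positivity
    calc p ^ 2 * Real.exp (-(p / 2)) * Real.exp (-(m * (δ * p))) * (m * δ) ^ 2
        = Real.exp (-(p / 2)) * ((m * (δ * p)) ^ 2 * Real.exp (-(m * (δ * p)))) := by ring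
      _ ≤ 1 * 2 := mul_le_mul h2 h1 h4 zero_le_one
      _ ≤ 16 := by norm_num
  · rw [min_eq_left h]
    have h1 := e2 (m * (δ * 1)) (by positivity)
    have h2 := e2 (p / 2) (by linarith)
    have h3 : 0 ≤ (p / 2) ^ 2 * Real.exp (-(p / 2)) := by positivity
    have h4 : 0 ≤ (m * (δ * 1)) ^ 2 * Real.exp (-(m * (δ * 1))) := by positivity
    calc p ^ 2 * Real.exp (-(p / 2)) * Real.exp (-(m * (δ * 1))) * (m * δ) ^ 2
        = 4 * (((p / 2) ^ 2 * Real.exp (-(p / 2))) *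
            ((m * (δ * 1)) ^ 2 * Real.exp (-(m * (δ * 1))))) := by
          ring
      _ ≤ 4 * (2 * 2) := by
          apply mul_le_mul_of_nonneg_left _ (by norm_num)
          exact mul_le_mul h2 h1 h4 (by norm_num)
      _ = 16 := by norm_num

theorem pw {δ p a s β F G F' G' B' : ℝ} (n : ℕ) (hδ : 0 < δ) (hp : 0 ≤ p) (ha : 0 ≤ a)
    (hs : 0 ≤ s) (hβ : 0 ≤ β) (hβ' : β ≤ Real.exp (-(δ * min 1 p))) (hF : 0 ≤ F) (hG : 0 ≤ G)
    (hF' : 0 ≤ F') (hG' : 0 ≤ G') (hB' : 0 ≤ B') (has : a * Real.exp (-(p / 4)) = 4 * s) :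
    2 * Real.exp (-p) * a * (p * a * β ^ (n + 2) * (F * G) +
      p ^ 2 * (((n : ℝ) + 2) * β ^ (n + 1) * B' * (F * G) + β ^ (n + 2) * (F' * G + F * G'))) ≤
    24 * (8 / δ + 32 / δ ^ 2) / ((n : ℝ) + 1) *
      ((s * F) ^ 2 + (s * G) ^ 2 + (B' * G) ^ 2 + F' ^ 2 + G' ^ 2) := by
  set m : ℝ := (n : ℝ) + 1 with hm
  have hm1 : 1 ≤ m := by rw [hm]; have : (0 : ℝ) ≤ n := Nat.cast_nonneg n; linarith
  have hm0 : 0 < m := by linarith
  set E : ℝ := Real.exp (-(p / 2)) with hE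
  have hE0 : 0 < E := Real.exp_pos _
  set X : ℝ := Real.exp (-(m * (δ * min 1 p))) with hX
  have hX0 : 0 < X := Real.exp_pos _
  have hb0 : 0 ≤ min 1 p := le_min zero_le_one hp
  have hβ1 : β ≤ 1 := hβ'.trans (by rw [Real.exp_le_one_iff]; nlinarith)
  have hp1 : β ^ (n + 1) ≤ X := by
    calc β ^ (n + 1) ≤ (Real.exp (-(δ * min 1 p))) ^ (n + 1) := pow_le_pow_left₀ hβ hβ' _
      _ = X := by
          rw [hX, ← Real.exp_nat_mul]
          congr 1
          rw [hm]; push_cast; ring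
  have hp2 : β ^ (n + 2) ≤ X :=
    (pow_le_pow_of_le_one hβ hβ1 (by omega)).trans hp1
  have hpn1 : 0 ≤ β ^ (n + 1) := pow_nonneg hβ _
  have hpn2 : 0 ≤ β ^ (n + 2) := pow_nonneg hβ _
  set C1 : ℝ := 8 / δ + 32 / δ ^ 2 with hC1
  have hC10 : 0 < C1 := by positivity
  -- elementary bounds
  have h1 : p * E * X ≤ C1 / m := by
    refine (b1 hδ hm0 hp).trans ?_
    rw [hC1, div_le_div_iff₀ (by positivity) hm0]
    have : 2 * m ≤ 8 / δ * (m * δ) := by
      have : 8 / δ * (m * δ) = 8 * m := by field_simp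
      rw [this]; linarith
    have h' : 0 ≤ 32 / δ ^ 2 * (m * δ) := by positivity
    nlinarith
  have h2 : p ^ 2 * E * X ≤ C1 / m := by
    refine (b2 hδ hm0 hp).trans ?_
    rw [hC1, div_le_div_iff₀ (by positivity) hm0]
    have : 8 / δ * (m * δ) = 8 * m := by field_simp
    have h' : 0 ≤ 32 / δ ^ 2 * (m * δ) := by positivity
    nlinarith
  have h3 : ((n : ℝ) + 2) * (p ^ 2 * E * X) ≤ C1 / m := by
    have h31 : (n : ℝ) + 2 ≤ 2 * m := by rw [hm]; have : (0 : ℝ) ≤ n := Nat.cast_nonneg n; linarith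
    have h32 : 0 ≤ p ^ 2 * E * X := by positivity
    calc ((n : ℝ) + 2) * (p ^ 2 * E * X) ≤ (2 * m) * (16 / (m * δ) ^ 2) := by
          apply mul_le_mul h31 (b3 hδ hm0 hp) h32 (by positivity)
      _ = (32 / δ ^ 2) / m := by field_simp; ring
      _ ≤ C1 / m := by
          apply div_le_div_of_nonneg_right _ hm0.le
          rw [hC1]
          have : 0 ≤ 8 / δ := by positivity
          linarith
  have hE2 : Real.exp (-p) = E * E := by rw [hE, ← Real.exp_add]; ring_nf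
  have hq : E = Real.exp (-(p / 4)) * Real.exp (-(p / 4)) := by rw [hE, ← Real.exp_add]; ring_nf
  have haE : a * a * E = 16 * s ^ 2 := by
    calc a * a * E = (a * Real.exp (-(p / 4))) * (a * Real.exp (-(p / 4))) := by rw [hq]; ring
      _ = 16 * s ^ 2 := by rw [has]; ring
  have haE1 : a * E ≤ 4 * s := by
    calc a * E = (a * Real.exp (-(p / 4))) * Real.exp (-(p / 4)) := by rw [hq]; ring
      _ ≤ (4 * s) * 1 := by
          rw [has]
          apply mul_le_mul_of_nonneg_left _ (by positivity)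
          rw [Real.exp_le_one_iff]; linarith
      _ = 4 * s := by ring
  have hCm : 0 ≤ C1 / m := by positivity
  have T1 : E * E * a * (p * a * β ^ (n + 2) * (F * G)) ≤ C1 / m * (16 * s ^ 2 * (F * G)) := by
    calc E * E * a * (p * a * β ^ (n + 2) * (F * G))
        ≤ E * E * a * (p * a * X * (F * G)) := by gcongr
      _ = (p * E * X) * ((a * a * E) * (F * G)) := by ring
      _ ≤ C1 / m * (16 * s ^ 2 * (F * G)) := by
          rw [haE]
          apply mul_le_mul_of_nonneg_right h1 (by positivity)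
  have T2 : E * E * a * (p ^ 2 * (((n : ℝ) + 2) * β ^ (n + 1) * B' * (F * G))) ≤
      C1 / m * (4 * s * (B' * (F * G))) := by
    calc E * E * a * (p ^ 2 * (((n : ℝ) + 2) * β ^ (n + 1) * B' * (F * G)))
        ≤ E * E * a * (p ^ 2 * (((n : ℝ) + 2) * X * B' * (F * G))) := by gcongr
      _ = (((n : ℝ) + 2) * (p ^ 2 * E * X)) * ((a * E) * (B' * (F * G))) := by ring
      _ ≤ C1 / m * ((4 * s) * (B' * (F * G))) := by
          apply mul_le_mul h3 _ (by positivity) hCm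
          exact mul_le_mul_of_nonneg_right haE1 (by positivity)
  have T3 : E * E * a * (p ^ 2 * (β ^ (n + 2) * (F' * G + F * G'))) ≤
      C1 / m * (4 * s * (F' * G + F * G')) := by
    calc E * E * a * (p ^ 2 * (β ^ (n + 2) * (F' * G + F * G')))
        ≤ E * E * a * (p ^ 2 * (X * (F' * G + F * G'))) := by gcongr
      _ = (p ^ 2 * E * X) * ((a * E) * (F' * G + F * G')) := by ring
      _ ≤ C1 / m * ((4 * s) * (F' * G + F * G')) := by
          apply mul_le_mul h2 _ (by positivity) hCm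
          exact mul_le_mul_of_nonneg_right haE1 (by positivity)
  have T4 : 16 * s ^ 2 * (F * G) + 4 * s * (B' * (F * G)) + 4 * s * (F' * G + F * G') ≤
      12 * ((s * F) ^ 2 + (s * G) ^ 2 + (B' * G) ^ 2 + F' ^ 2 + G' ^ 2) := by
    nlinarith [sq_nonneg (s * F - s * G), sq_nonneg (s * F - B' * G), sq_nonneg (s * G - F'),
      sq_nonneg (s * F - G'), sq_nonneg (s * G), sq_nonneg (B' * G), sq_nonneg F', sq_nonneg G']
  rw [hE2]
  calc 2 * (E * E) * a * (p * a * β ^ (n + 2) * (F * G) +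
      p ^ 2 * (((n : ℝ) + 2) * β ^ (n + 1) * B' * (F * G) + β ^ (n + 2) * (F' * G + F * G')))
      = 2 * (E * E * a * (p * a * β ^ (n + 2) * (F * G)) +
        E * E * a * (p ^ 2 * (((n : ℝ) + 2) * β ^ (n + 1) * B' * (F * G))) +
        E * E * a * (p ^ 2 * (β ^ (n + 2) * (F' * G + F * G')))) := by ring
    _ ≤ 2 * (C1 / m * (16 * s ^ 2 * (F * G)) + C1 / m * (4 * s * (B' * (F * G))) +
        C1 / m * (4 * s * (F' * G + F * G'))) := by linarith
    _ = 2 * (C1 / m) * (16 * s ^ 2 * (F * G) + 4 * s * (B' * (F * G)) +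
        4 * s * (F' * G + F * G')) := by ring
    _ ≤ 2 * (C1 / m) * (12 * ((s * F) ^ 2 + (s * G) ^ 2 + (B' * G) ^ 2 + F' ^ 2 + G' ^ 2)) :=
        mul_le_mul_of_nonneg_left T4 (by positivity)
    _ = 24 * C1 / m * ((s * F) ^ 2 + (s * G) ^ 2 + (B' * G) ^ 2 + F' ^ 2 + G' ^ 2) := by ring

/-- the three pairs -/
theorem decomp (A H : ℂ) :
    Complex.exp (-starRingEnd ℂ A) * (1 + 2 * A.re + 2 * A.re ^ 2 : ℝ) * H =
    starRingEnd ℂ (Complex.exp (-A)) * ((1 + A + A ^ 2 / 2) * H) +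
    starRingEnd ℂ (A * Complex.exp (-A)) * ((1 + A) * H) +
    starRingEnd ℂ (A ^ 2 / 2 * Complex.exp (-A)) * H := by
  have h1 : (A.re : ℂ) = (A + starRingEnd ℂ A) / 2 := by
    rw [Complex.add_conj]; push_cast; ring
  have h2 : starRingEnd ℂ (Complex.exp (-A)) = Complex.exp (-starRingEnd ℂ A) := by
    rw [← Complex.exp_conj, map_neg]
  have h3 : starRingEnd ℂ (2 : ℂ) = 2 := Complex.conj_ofNat 2
  simp only [map_mul, map_div₀, map_pow, h2, h3]
  push_cast
  rw [h1]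
  ring

theorem dident (A A' H H' : ℂ) :
    starRingEnd ℂ (Complex.exp (-A) * -A') *
      ((A' + 2 * A * A' / 2) * H + (1 + A + A ^ 2 / 2) * H') +
    starRingEnd ℂ (A' * Complex.exp (-A) + A * (Complex.exp (-A) * -A')) *
      (A' * H + (1 + A) * H') +
    starRingEnd ℂ (2 * A * A' / 2 * Complex.exp (-A) + A ^ 2 / 2 * (Complex.exp (-A) * -A')) * H' =
    -2 * Complex.exp (-starRingEnd ℂ A) * starRingEnd ℂ A' *
      ((A.re : ℂ) * A' * H + (A.re : ℂ) ^ 2 * H') := by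
  have h1 : (A.re : ℂ) = (A + starRingEnd ℂ A) / 2 := by
    rw [Complex.add_conj]; push_cast; ring
  have h2 : starRingEnd ℂ (Complex.exp (-A)) = Complex.exp (-starRingEnd ℂ A) := by
    rw [← Complex.exp_conj, map_neg]
  have h3 : starRingEnd ℂ (2 : ℂ) = 2 := Complex.conj_ofNat 2
  simp only [map_mul, map_div₀, map_pow, map_add, map_neg, h2, h3]
  rw [h1]
  ring

theorem normQ {δ : ℝ} (hδ : 0 < δ) (n : ℕ) (A A' B B' f f' g g' : ℂ) (hA : 0 ≤ A.re)
    (hB : ‖B‖ ≤ Real.exp (-(δ * min 1 A.re))) :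
    ‖-2 * Complex.exp (-starRingEnd ℂ A) * starRingEnd ℂ A' *
      ((A.re : ℂ) * A' * (B ^ (n + 2) * (f * g)) +
        (A.re : ℂ) ^ 2 * (((n : ℂ) + 2) * B ^ (n + 1) * B' * (f * g) +
          B ^ (n + 2) * (f' * g + f * g')))‖ ≤
    24 * (8 / δ + 32 / δ ^ 2) / ((n : ℝ) + 1) *
      (‖Complex.exp (-(A / 4)) * -(A' / 4) * f‖ ^ 2 +
        ‖Complex.exp (-(A / 4)) * -(A' / 4) * g‖ ^ 2 + ‖B' * g‖ ^ 2 + ‖f'‖ ^ 2 + ‖g'‖ ^ 2) := by
  have hs : ‖Complex.exp (-(A / 4)) * -(A' / 4)‖ = Real.exp (-(A.re / 4)) * (‖A'‖ / 4) := by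
    rw [norm_mul, Complex.norm_exp, norm_neg, norm_div]
    congr 2
    · simp
    · norm_num
  have key := pw (δ := δ) (p := A.re) (a := ‖A'‖) (s := Real.exp (-(A.re / 4)) * (‖A'‖ / 4))
    (β := ‖B‖) (F := ‖f‖) (G := ‖g‖) (F' := ‖f'‖) (G' := ‖g'‖) (B' := ‖B'‖) n hδ hA (norm_nonneg _)
    (by positivity) (norm_nonneg _) hB (norm_nonneg _) (norm_nonneg _) (norm_nonneg _)
    (norm_nonneg _) (norm_nonneg _) (by ring)
  rw [norm_mul (Complex.exp (-(A / 4)) * -(A' / 4)) f, norm_mul (Complex.exp (-(A / 4)) * -(A' / 4)) g,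
    norm_mul B' g, hs]
  refine le_trans ?_ key
  have hn1 : ‖Complex.exp (-starRingEnd ℂ A)‖ = Real.exp (-A.re) := by
    rw [Complex.norm_exp]; simp
  have hn2 : ‖starRingEnd ℂ A'‖ = ‖A'‖ := Complex.norm_conj A'
  have hn3 : ‖(A.re : ℂ)‖ = A.re := by rw [Complex.norm_real, Real.norm_eq_abs, abs_of_nonneg hA]
  have hn4 : ‖((n : ℂ) + 2)‖ = (n : ℝ) + 2 := by
    have : ((n : ℂ) + 2) = (((n : ℝ) + 2 : ℝ) : ℂ) := by push_cast; ring
    rw [this, Complex.norm_real, Real.norm_eq_abs, abs_of_nonneg (by positivity)]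
  have hn5 : ‖(-2 : ℂ)‖ = 2 := by simp
  rw [norm_mul, norm_mul, norm_mul, hn1, hn2, hn5]
  apply mul_le_mul_of_nonneg_left _ (by positivity)
  refine (norm_add_le _ _).trans ?_
  apply add_le_add
  · rw [norm_mul, norm_mul, norm_mul, norm_mul, norm_pow, hn3]
    exact le_of_eq (by ring)
  · rw [norm_mul, norm_pow, hn3]
    apply mul_le_mul_of_nonneg_left _ (by positivity)
    refine (norm_add_le _ _).trans ?_
    apply add_le_add
    · rw [norm_mul, norm_mul, norm_mul, norm_mul, norm_pow, hn4]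
    · rw [norm_mul, norm_pow]
      apply mul_le_mul_of_nonneg_left _ (by positivity)
      refine (norm_add_le _ _).trans ?_
      rw [norm_mul, norm_mul]

/-- analytic pieces -/
theorem contOn {u : ℂ → ℂ} (hu : AnalyticOnNhd ℂ u (ball 0 1)) {r : ℝ} (hr1 : r < 1) :
    ContinuousOn u (closedBall 0 r) :=
  hu.continuousOn.mono (closedBall_subset_ball hr1)

theorem cint {E : Type} [NormedAddCommGroup E] [NormedSpace ℝ E] {ψ : ℂ → E} {r : ℝ} (hr : 0 < r)
    (h : ContinuousOn ψ (closedBall 0 r)) : CircleIntegrable ψ 0 r :=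
  (h.mono sphere_subset_closedBall).circleIntegrable hr.le

theorem avg_mono {ψ φ : ℂ → ℝ} {r : ℝ} (hr : 0 < r) (hψ : ContinuousOn ψ (closedBall 0 r))
    (hφ : ContinuousOn φ (closedBall 0 r)) (h : ∀ z ∈ closedBall (0 : ℂ) r, ψ z ≤ φ z) :
    Real.circleAverage ψ 0 r ≤ Real.circleAverage φ 0 r := by
  apply Real.circleAverage_mono (cint hr hψ) (cint hr hφ)
  intro x hx
  rw [abs_of_pos hr] at hx
  exact h x (sphere_subset_closedBall hx)

/-- the product rule estimate -/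
theorem lp_prod {σ f : ℂ → ℂ} (hσ : AnalyticOnNhd ℂ σ (ball 0 1))
    (hf : AnalyticOnNhd ℂ f (ball 0 1)) (hσ1 : ∀ z ∈ ball (0 : ℂ) 1, ‖σ z‖ ≤ 1) {r : ℝ}
    (hr : 0 < r) (hr1 : r < 1) :
    LL r (fun z => ‖deriv σ z * f z‖ ^ 2) ≤ 4 * Real.circleAverage (fun z => ‖f z‖ ^ 2) 0 r := by
  have hsf : AnalyticOnNhd ℂ (fun z => σ z * f z) (ball 0 1) := hσ.mul hf
  have c1 : ContinuousOn (fun z => ‖deriv σ z * f z‖ ^ 2) (closedBall 0 r) :=
    (((contOn hσ.deriv hr1).mul (contOn hf hr1)).norm).pow 2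
  have c2 : ContinuousOn (fun z => ‖deriv (fun z => σ z * f z) z‖ ^ 2) (closedBall 0 r) :=
    ((contOn hsf.deriv hr1).norm).pow 2
  have c3 : ContinuousOn (fun z => ‖deriv f z‖ ^ 2) (closedBall 0 r) :=
    ((contOn hf.deriv hr1).norm).pow 2
  have c4 : ContinuousOn (fun z => ‖σ z * f z‖ ^ 2) (closedBall 0 r) :=
    ((contOn hsf hr1).norm).pow 2
  have c5 : ContinuousOn (fun z => ‖f z‖ ^ 2) (closedBall 0 r) :=
    ((contOn hf hr1).norm).pow 2
  have h1 : LL r (fun z => ‖deriv σ z * f z‖ ^ 2) ≤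
      LL r (fun z => 2 * ‖deriv (fun z => σ z * f z) z‖ ^ 2 + 2 * ‖deriv f z‖ ^ 2) := by
    apply LL_mono hr c1 ((c2.const_smul (2 : ℝ)).add (c3.const_smul (2 : ℝ)))
    intro z hz
    have hz1 : z ∈ ball (0 : ℂ) 1 := closedBall_subset_ball hr1 hz
    have hd : deriv (fun z => σ z * f z) z = deriv σ z * f z + σ z * deriv f z := by
      have := (((hσ z hz1).differentiableAt.hasDerivAt).mul
        ((hf z hz1).differentiableAt.hasDerivAt)).deriv
      exact this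
    have h2 : deriv σ z * f z = deriv (fun z => σ z * f z) z - σ z * deriv f z := by
      rw [hd]; ring
    have h3 : ‖deriv σ z * f z‖ ≤ ‖deriv (fun z => σ z * f z) z‖ + ‖deriv f z‖ := by
      rw [h2]
      refine (norm_sub_le _ _).trans ?_
      rw [norm_mul]
      have := hσ1 z hz1
      nlinarith [norm_nonneg (deriv f z), norm_nonneg (σ z)]
    have h4 := norm_nonneg (deriv σ z * f z)
    have h5 := norm_nonneg (deriv (fun z => σ z * f z) z)
    have h6 := norm_nonneg (deriv f z)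
    calc ‖deriv σ z * f z‖ ^ 2 ≤ (‖deriv (fun z => σ z * f z) z‖ + ‖deriv f z‖) ^ 2 :=
          pow_le_pow_left₀ h4 h3 2
      _ ≤ 2 * ‖deriv (fun z => σ z * f z) z‖ ^ 2 + 2 * ‖deriv f z‖ ^ 2 := by
          nlinarith [sq_nonneg (‖deriv (fun z => σ z * f z) z‖ - ‖deriv f z‖)]
  rw [LL_add hr (ψ := fun z => 2 * ‖deriv (fun z => σ z * f z) z‖ ^ 2)
    (φ := fun z => 2 * ‖deriv f z‖ ^ 2) (c2.const_smul (2 : ℝ)) (c3.const_smul (2 : ℝ)),
    LL_const_mul, LL_const_mul] at h1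
  have h2 := lp_sq hsf hr hr1
  have h3 := lp_sq hf hr hr1
  have h4 : Real.circleAverage (fun z => ‖σ z * f z‖ ^ 2) 0 r ≤
      Real.circleAverage (fun z => ‖f z‖ ^ 2) 0 r := by
    apply avg_mono hr c4 c5
    intro z hz
    have hz1 : z ∈ ball (0 : ℂ) 1 := closedBall_subset_ball hr1 hz
    apply pow_le_pow_left₀ (norm_nonneg _)
    rw [norm_mul]
    have := hσ1 z hz1
    nlinarith [norm_nonneg (f z), norm_nonneg (σ z)]
  linarith

end EstAux

open EstAux in
theorem est (δ : ℝ) (hδ : 0 < δ) : ∃ C : ℝ, 0 < C ∧ ∀ A B f g : ℂ → ℂ,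
    AnalyticOnNhd ℂ A (ball 0 1) → AnalyticOnNhd ℂ B (ball 0 1) →
    AnalyticOnNhd ℂ f (ball 0 1) → AnalyticOnNhd ℂ g (ball 0 1) →
    (∀ z ∈ ball (0 : ℂ) 1, 0 ≤ (A z).re) →
    (∀ z ∈ ball (0 : ℂ) 1, ‖B z‖ ≤ Real.exp (-(δ * min 1 (A z).re))) → f 0 * g 0 = 0 →
    ∀ (n : ℕ) (r : ℝ), 0 < r → r < 1 → ‖Real.circleAverage (Phi A B f g n) 0 r‖ ≤
      C / (n + 1) * (Real.circleAverage (fun z => ‖f z‖ ^ 2) 0 r +
        Real.circleAverage (fun z => ‖g z‖ ^ 2) 0 r) := by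
  refine ⟨24 * (8 / δ + 32 / δ ^ 2) * 13, by positivity, ?_⟩
  intro A B f g hA hB hf hg hA0 hB0 hfg n r hr hr1
  set H : ℂ → ℂ := fun z => B z ^ (n + 2) * (f z * g z) with hH
  have hHa : AnalyticOnNhd ℂ H (ball 0 1) := (hB.pow (n + 2)).mul (hf.mul hg)
  set v0 : ℂ → ℂ := fun z => Complex.exp (-A z) with hv0
  set v1 : ℂ → ℂ := fun z => A z * Complex.exp (-A z) with hv1
  set v2 : ℂ → ℂ := fun z => A z ^ 2 / 2 * Complex.exp (-A z) with hv2
  set u0 : ℂ → ℂ := fun z => (1 + A z + A z ^ 2 / 2) * H z with hu0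
  set u1 : ℂ → ℂ := fun z => (1 + A z) * H z with hu1
  have hc1 : AnalyticOnNhd ℂ (fun _ : ℂ => (1 : ℂ)) (ball 0 1) := analyticOnNhd_const
  have hA2 : AnalyticOnNhd ℂ (fun z => A z ^ 2 / 2) (ball 0 1) := by
    have := (hA.pow 2).mul (analyticOnNhd_const (v := (1 / 2 : ℂ)) (s := ball 0 1))
    refine this.congr isOpen_ball ?_
    intro z _
    simp only [Pi.pow_apply]
    ring
  have hv0a : AnalyticOnNhd ℂ v0 (ball 0 1) := fun z hz => ((hA z hz).neg).cexp
  have hv1a : AnalyticOnNhd ℂ v1 (ball 0 1) := hA.mul hv0a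
  have hv2a : AnalyticOnNhd ℂ v2 (ball 0 1) := hA2.mul hv0a
  have hu0a : AnalyticOnNhd ℂ u0 (ball 0 1) := ((hc1.add hA).add hA2).mul hHa
  have hu1a : AnalyticOnNhd ℂ u1 (ball 0 1) := (hc1.add hA).mul hHa
  -- decomposition of the average
  have hH0 : H 0 = 0 := by simp [hH, hfg]
  have cc : ∀ {u v : ℂ → ℂ}, AnalyticOnNhd ℂ u (ball 0 1) → AnalyticOnNhd ℂ v (ball 0 1) →
      ContinuousOn (fun z => starRingEnd ℂ (v z) * u z) (closedBall 0 r) := by
    intro u v hu hv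
    exact (Complex.continuous_conj.comp_continuousOn (contOn hv hr1)).mul (contOn hu hr1)
  have hPhi : Phi A B f g n = fun z => starRingEnd ℂ (v0 z) * u0 z + starRingEnd ℂ (v1 z) * u1 z +
      starRingEnd ℂ (v2 z) * H z := by
    funext z
    exact decomp (A z) (H z)
  have hsplit : Real.circleAverage (Phi A B f g n) 0 r =
      Real.circleAverage (fun z => starRingEnd ℂ (v0 z) * u0 z) 0 r +
      Real.circleAverage (fun z => starRingEnd ℂ (v1 z) * u1 z) 0 r +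
      Real.circleAverage (fun z => starRingEnd ℂ (v2 z) * H z) 0 r := by
    have c01 : ContinuousOn (fun z => starRingEnd ℂ (v0 z) * u0 z + starRingEnd ℂ (v1 z) * u1 z)
        (closedBall 0 r) := (cc hu0a hv0a).add (cc hu1a hv1a)
    rw [hPhi, Real.circleAverage_fun_add (cint hr c01) (cint hr (cc hHa hv2a)),
      Real.circleAverage_fun_add (cint hr (cc hu0a hv0a)) (cint hr (cc hu1a hv1a))]
  set Q : ℂ → ℂ := fun z => starRingEnd ℂ (deriv v0 z) * deriv u0 z +
    starRingEnd ℂ (deriv v1 z) * deriv u1 z + starRingEnd ℂ (deriv v2 z) * deriv H z with hQ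
  have cQ01 : ContinuousOn (fun z => starRingEnd ℂ (deriv v0 z) * deriv u0 z +
      starRingEnd ℂ (deriv v1 z) * deriv u1 z) (closedBall 0 r) :=
    (cc hu0a.deriv hv0a.deriv).add (cc hu1a.deriv hv1a.deriv)
  have cQ : ContinuousOn Q (closedBall 0 r) := cQ01.add (cc hHa.deriv hv2a.deriv)
  have hLL : Real.circleAverage (Phi A B f g n) 0 r = LL r Q := by
    rw [hsplit, lp_identity hu0a hv0a hr hr1, lp_identity hu1a hv1a hr hr1,
      lp_identity hHa hv2a hr hr1, hQ,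
      LL_add_complex hr cQ01 (cc hHa.deriv hv2a.deriv),
      LL_add_complex hr (cc hu0a.deriv hv0a.deriv) (cc hu1a.deriv hv1a.deriv)]
    have e0 : u0 0 = 0 := by simp [hu0, hH0]
    have e1 : u1 0 = 0 := by simp [hu1, hH0]
    rw [e0, e1, hH0]
    ring
  -- the pointwise bound
  set σ : ℂ → ℂ := fun z => Complex.exp (-(A z / 4)) with hσ
  have hA4 : AnalyticOnNhd ℂ (fun z => A z / 4) (ball 0 1) := by
    have := hA.mul (analyticOnNhd_const (v := (1 / 4 : ℂ)) (s := ball 0 1))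
    refine this.congr isOpen_ball ?_
    intro z _
    simp only [Pi.mul_apply]
    ring
  have hσa : AnalyticOnNhd ℂ σ (ball 0 1) := fun z hz => ((hA4 z hz).neg).cexp
  have hσ1 : ∀ z ∈ ball (0 : ℂ) 1, ‖σ z‖ ≤ 1 := by
    intro z hz
    rw [hσ]
    simp only
    rw [Complex.norm_exp, Real.exp_le_one_iff]
    have := hA0 z hz
    simp only [Complex.neg_re, Complex.div_ofNat_re]
    linarith
  have hB1 : ∀ z ∈ ball (0 : ℂ) 1, ‖B z‖ ≤ 1 := by
    intro z hz
    refine (hB0 z hz).trans ?_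
    rw [Real.exp_le_one_iff]
    have : 0 ≤ min 1 (A z).re := le_min zero_le_one (hA0 z hz)
    nlinarith
  set K : ℝ := 24 * (8 / δ + 32 / δ ^ 2) / ((n : ℝ) + 1) with hK
  have hK0 : 0 ≤ K := by positivity
  have hbd : ∀ z ∈ closedBall (0 : ℂ) r, ‖Q z‖ ≤ K * (‖deriv σ z * f z‖ ^ 2 +
      ‖deriv σ z * g z‖ ^ 2 + ‖deriv B z * g z‖ ^ 2 + ‖deriv f z‖ ^ 2 + ‖deriv g z‖ ^ 2) := by
    intro z hz
    have hz1 : z ∈ ball (0 : ℂ) 1 := closedBall_subset_ball hr1 hz
    have dA : HasDerivAt A (deriv A z) z := (hA z hz1).differentiableAt.hasDerivAt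
    have dB : HasDerivAt B (deriv B z) z := (hB z hz1).differentiableAt.hasDerivAt
    have df : HasDerivAt f (deriv f z) z := (hf z hz1).differentiableAt.hasDerivAt
    have dg : HasDerivAt g (deriv g z) z := (hg z hz1).differentiableAt.hasDerivAt
    have dH : HasDerivAt H ((((n : ℂ) + 2) * B z ^ (n + 1) * deriv B z) * (f z * g z) +
        B z ^ (n + 2) * (deriv f z * g z + f z * deriv g z)) z := by
      have := (dB.pow (n + 2)).mul (df.mul dg)
      refine this.congr_deriv ?_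
      simp only [Pi.mul_apply, Pi.pow_apply, Nat.add_sub_cancel]
      push_cast
      rfl
    have dH' : HasDerivAt H (deriv H z) z := (hHa z hz1).differentiableAt.hasDerivAt
    have dE : HasDerivAt v0 (Complex.exp (-A z) * -deriv A z) z := dA.neg.cexp
    have dv1 : HasDerivAt v1 (deriv A z * Complex.exp (-A z) + A z * (Complex.exp (-A z) * -deriv A z))
      z := dA.mul dE
    have dA2 : HasDerivAt (fun z => A z ^ 2 / 2) (2 * A z * deriv A z / 2) z := by
      have := (dA.pow 2).div_const 2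
      refine this.congr_deriv ?_
      norm_num
    have dv2 : HasDerivAt v2 (2 * A z * deriv A z / 2 * Complex.exp (-A z) +
        A z ^ 2 / 2 * (Complex.exp (-A z) * -deriv A z)) z := dA2.mul dE
    have du1' : HasDerivAt (fun z => 1 + A z) (deriv A z) z := dA.const_add 1
    have du1 : HasDerivAt u1 (deriv A z * H z + (1 + A z) * deriv H z) z := du1'.mul dH'
    have du0' : HasDerivAt (fun z => 1 + A z + A z ^ 2 / 2) (deriv A z + 2 * A z * deriv A z / 2) z :=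
      du1'.add dA2
    have du0 : HasDerivAt u0 ((deriv A z + 2 * A z * deriv A z / 2) * H z +
        (1 + A z + A z ^ 2 / 2) * deriv H z) z := du0'.mul dH'
    have dσ : HasDerivAt σ (Complex.exp (-(A z / 4)) * -(deriv A z / 4)) z :=
      (dA.div_const 4).neg.cexp
    have hQz : Q z = -2 * Complex.exp (-starRingEnd ℂ (A z)) * starRingEnd ℂ (deriv A z) *
        (((A z).re : ℂ) * deriv A z * H z + ((A z).re : ℂ) ^ 2 * deriv H z) := by
      rw [hQ]
      simp only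
      rw [dE.deriv, du0.deriv, dv1.deriv, du1.deriv, dv2.deriv]
      exact dident (A z) (deriv A z) (H z) (deriv H z)
    rw [hQz, dH.deriv, dσ.deriv]
    exact normQ hδ n (A z) (deriv A z) (B z) (deriv B z) (f z) (deriv f z) (g z) (deriv g z)
      (hA0 z hz1) (hB0 z hz1)
  -- continuity
  have c1 : ContinuousOn (fun z => ‖deriv σ z * f z‖ ^ 2) (closedBall 0 r) :=
    (((contOn hσa.deriv hr1).mul (contOn hf hr1)).norm).pow 2
  have c2 : ContinuousOn (fun z => ‖deriv σ z * g z‖ ^ 2) (closedBall 0 r) :=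
    (((contOn hσa.deriv hr1).mul (contOn hg hr1)).norm).pow 2
  have c3 : ContinuousOn (fun z => ‖deriv B z * g z‖ ^ 2) (closedBall 0 r) :=
    (((contOn hB.deriv hr1).mul (contOn hg hr1)).norm).pow 2
  have c4 : ContinuousOn (fun z => ‖deriv f z‖ ^ 2) (closedBall 0 r) :=
    ((contOn hf.deriv hr1).norm).pow 2
  have c5 : ContinuousOn (fun z => ‖deriv g z‖ ^ 2) (closedBall 0 r) :=
    ((contOn hg.deriv hr1).norm).pow 2
  have h1 := LL_norm_le hr cQ
  have h2 := LL_mono hr cQ.norm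
    (((((c1.add c2).add c3).add c4).add c5).const_smul K) hbd
  have h3 : LL r (fun z => K * (‖deriv σ z * f z‖ ^ 2 +
      ‖deriv σ z * g z‖ ^ 2 + ‖deriv B z * g z‖ ^ 2 + ‖deriv f z‖ ^ 2 + ‖deriv g z‖ ^ 2)) =
      K * (LL r (fun z => ‖deriv σ z * f z‖ ^ 2) + LL r (fun z => ‖deriv σ z * g z‖ ^ 2) +
        LL r (fun z => ‖deriv B z * g z‖ ^ 2) + LL r (fun z => ‖deriv f z‖ ^ 2) +
        LL r (fun z => ‖deriv g z‖ ^ 2)) := by
    have c12 : ContinuousOn (fun z => ‖deriv σ z * f z‖ ^ 2 + ‖deriv σ z * g z‖ ^ 2)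
      (closedBall 0 r) := c1.add c2
    have c123 : ContinuousOn (fun z => ‖deriv σ z * f z‖ ^ 2 + ‖deriv σ z * g z‖ ^ 2 +
      ‖deriv B z * g z‖ ^ 2) (closedBall 0 r) := c12.add c3
    have c1234 : ContinuousOn (fun z => ‖deriv σ z * f z‖ ^ 2 + ‖deriv σ z * g z‖ ^ 2 +
      ‖deriv B z * g z‖ ^ 2 + ‖deriv f z‖ ^ 2) (closedBall 0 r) := c123.add c4
    rw [LL_const_mul, LL_add hr c1234 c5, LL_add hr c123 c4, LL_add hr c12 c3, LL_add hr c1 c2]
  have l1 := lp_prod hσa hf hσ1 hr hr1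
  have l2 := lp_prod hσa hg hσ1 hr hr1
  have l3 := lp_prod hB hg hB1 hr hr1
  have l4 := lp_sq hf hr hr1
  have l5 := lp_sq hg hr hr1
  have hF0 : 0 ≤ Real.circleAverage (fun z => ‖f z‖ ^ 2) 0 r := by
    have := avg_mono (ψ := fun _ => 0) (φ := fun z => ‖f z‖ ^ 2) hr continuousOn_const
      (((contOn hf hr1).norm).pow 2) (fun z _ => by positivity)
    rwa [Real.circleAverage_const] at this
  have hG0 : 0 ≤ Real.circleAverage (fun z => ‖g z‖ ^ 2) 0 r := by
    have := avg_mono (ψ := fun _ => 0) (φ := fun z => ‖g z‖ ^ 2) hr continuousOn_const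
      (((contOn hg hr1).norm).pow 2) (fun z _ => by positivity)
    rwa [Real.circleAverage_const] at this
  rw [hLL]
  calc ‖LL r Q‖ ≤ LL r (fun z => ‖Q z‖) := h1
    _ ≤ LL r (fun z => K * (‖deriv σ z * f z‖ ^ 2 +
      ‖deriv σ z * g z‖ ^ 2 + ‖deriv B z * g z‖ ^ 2 + ‖deriv f z‖ ^ 2 + ‖deriv g z‖ ^ 2)) := h2
    _ = K * (LL r (fun z => ‖deriv σ z * f z‖ ^ 2) + LL r (fun z => ‖deriv σ z * g z‖ ^ 2) +
        LL r (fun z => ‖deriv B z * g z‖ ^ 2) + LL r (fun z => ‖deriv f z‖ ^ 2) +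
        LL r (fun z => ‖deriv g z‖ ^ 2)) := h3
    _ ≤ K * (13 * (Real.circleAverage (fun z => ‖f z‖ ^ 2) 0 r +
        Real.circleAverage (fun z => ‖g z‖ ^ 2) 0 r)) := by
        apply mul_le_mul_of_nonneg_left _ hK0
        linarith
    _ = 24 * (8 / δ + 32 / δ ^ 2) * 13 / (n + 1) *
      (Real.circleAverage (fun z => ‖f z‖ ^ 2) 0 r +
        Real.circleAverage (fun z => ‖g z‖ ^ 2) 0 r) := by rw [hK]; ring

end

end Pool.Agent.Helper59.DGA
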