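import Pool.Agent.Helper59.DG.Main

/-! Douglas algebras generated by a family of inner functions. -/

set_option autoImplicit false

namespace Pool.Agent.Helper59.DGA

open MeasureTheory AddCircle Metric Filter Topology

noncomputable section

/-- `D` is the Douglas algebra generated by the family `F` of inner functions: the smallest
Douglas algebra in which all members of `F` are invertible -/
structure IsGen (D F : Set (Cir → ℂ)) : Prop where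
  douglas : IsDouglas D
  sub : F ⊆ Inv D
  least : ∀ D' : Set (Cir → ℂ), IsDouglas D' → F ⊆ Inv D' → D ⊆ D'

/-- the points of the open unit disc where all the functions in `s` have modulus `> 1 - ε` -/
def Levs (s : Finset (Cir → ℂ)) (ε : ℝ) : Set ℂ :=
  {z | ‖z‖ < 1 ∧ ∀ B ∈ s, 1 - ε < ‖ext B z‖}

namespace Gen

theorem bound {f : Cir → ℂ} (hf : MemLp f ⊤ mC) : ∃ C : ℝ, 0 ≤ C ∧ ∀ᵐ t ∂mC, ‖f t‖ ≤ C := by
  refine ⟨(eLpNormEssSup f mC).toReal, ENNReal.toReal_nonneg, ?_⟩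
  have h1 : eLpNormEssSup f mC ≠ ⊤ := by
    have := hf.eLpNorm_ne_top
    rwa [eLpNorm_exponent_top] at this
  filter_upwards [ae_le_eLpNormEssSup (f := f) (μ := mC)] with t ht
  have h2 := ENNReal.toReal_mono h1 ht
  simpa using h2

theorem memLp_mul {f g : Cir → ℂ} (hf : MemLp f ⊤ mC) (hg : MemLp g ⊤ mC) :
    MemLp (f * g) ⊤ mC := MemLp.mul (p := ⊤) (q := ⊤) (r := ⊤) hg hf

theorem one_inner : IsInner (1 : Cir → ℂ) := ⟨Hinf.const 1, Eventually.of_forall fun _ => by simp⟩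

theorem mul_inner {f g : Cir → ℂ} (hf : IsInner f) (hg : IsInner g) : IsInner (f * g) := by
  refine ⟨Hinf.mul hf.1 hg.1, ?_⟩
  filter_upwards [hf.2, hg.2] with t h1 h2
  rw [Pi.mul_apply, norm_mul, h1, h2, mul_one]

theorem closure_inner {F : Set (Cir → ℂ)} (hF : ∀ B ∈ F, IsInner B) :
    ∀ B ∈ Submonoid.closure F, IsInner B := by
  intro B hB
  induction hB using Submonoid.closure_induction with
  | mem x hx => exact hF x hx
  | one => exact one_inner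
  | mul x y _ _ hx hy => exact mul_inner hx hy

/-- the algebra generated by a family of inner functions -/
def Alg (F : Set (Cir → ℂ)) : Set (Cir → ℂ) :=
  {f | MemLp f ⊤ mC ∧ ∀ δ > 0, ∃ B ∈ Submonoid.closure F, ∃ g ∈ Hinf,
    ∀ᵐ t ∂mC, ‖f t - cj B t * g t‖ ≤ δ}

theorem cj_mul {z : ℂ} (hz : ‖z‖ = 1) : starRingEnd ℂ z * z = 1 := by
  rw [mul_comm, Complex.mul_conj, Complex.normSq_eq_norm_sq, hz]
  simp

theorem alg_add {F : Set (Cir → ℂ)} (hF : ∀ B ∈ F, IsInner B) {f g : Cir → ℂ}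
    (hf0 : f ∈ Alg F) (hg0 : g ∈ Alg F) : f + g ∈ Alg F := by
  obtain ⟨hf, hf'⟩ := hf0
  obtain ⟨hg, hg'⟩ := hg0
  refine ⟨hf.add hg, fun δ hδ => ?_⟩
  obtain ⟨B1, hB1, g1, hg1, h1⟩ := hf' (δ / 2) (by positivity)
  obtain ⟨B2, hB2, g2, hg2, h2⟩ := hg' (δ / 2) (by positivity)
  have i1 := closure_inner hF B1 hB1
  have i2 := closure_inner hF B2 hB2
  refine ⟨B1 * B2, Submonoid.mul_mem _ hB1 hB2, B2 * g1 + B1 * g2,
    Hinf.add (Hinf.mul i2.1 hg1) (Hinf.mul i1.1 hg2), ?_⟩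
  filter_upwards [h1, h2, i1.2, i2.2] with t h1 h2 h3 h4
  have e1 := cj_mul h3
  have e2 := cj_mul h4
  have : (f + g) t - cj (B1 * B2) t * (B2 * g1 + B1 * g2) t =
      (f t - cj B1 t * g1 t) + (g t - cj B2 t * g2 t) := by
    simp only [Pi.add_apply, Pi.mul_apply, cj, map_mul]
    linear_combination (-(starRingEnd ℂ (B1 t) * g1 t)) * e2 -
      (starRingEnd ℂ (B2 t) * g2 t) * e1
  rw [this]
  refine (norm_add_le _ _).trans ?_
  linarith

theorem alg_mul {F : Set (Cir → ℂ)} {f g : Cir → ℂ}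
    (hf0 : f ∈ Alg F) (hg0 : g ∈ Alg F) : f * g ∈ Alg F := by
  obtain ⟨hf, hf'⟩ := hf0
  obtain ⟨hg, hg'⟩ := hg0
  refine ⟨memLp_mul hf hg, fun δ hδ => ?_⟩
  obtain ⟨C1, hC1, hC1'⟩ := bound hf
  obtain ⟨C2, hC2, hC2'⟩ := bound hg
  have hd : 0 < min 1 (δ / (C1 + C2 + 1)) := lt_min one_pos (by positivity)
  obtain ⟨B1, hB1, g1, hg1, h1⟩ := hf' _ hd
  obtain ⟨B2, hB2, g2, hg2, h2⟩ := hg' _ hd
  refine ⟨B1 * B2, Submonoid.mul_mem _ hB1 hB2, g1 * g2, Hinf.mul hg1 hg2, ?_⟩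
  filter_upwards [h1, h2, hC1', hC2'] with t h1 h2 h3 h4
  have : (f * g) t - cj (B1 * B2) t * (g1 * g2) t =
      f t * (g t - cj B2 t * g2 t) + (f t - cj B1 t * g1 t) * (cj B2 t * g2 t) := by
    simp only [Pi.mul_apply, cj, map_mul]
    ring
  rw [this]
  have h5 : ‖cj B2 t * g2 t‖ ≤ C2 + 1 := by
    have : cj B2 t * g2 t = g t - (g t - cj B2 t * g2 t) := by ring
    rw [this]
    refine (norm_sub_le _ _).trans ?_
    have := h2.trans (min_le_left _ _)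
    linarith
  have h6 : min 1 (δ / (C1 + C2 + 1)) ≤ δ / (C1 + C2 + 1) := min_le_right _ _
  refine (norm_add_le _ _).trans ?_
  rw [norm_mul, norm_mul]
  calc ‖f t‖ * ‖g t - cj B2 t * g2 t‖ + ‖f t - cj B1 t * g1 t‖ * ‖cj B2 t * g2 t‖
      ≤ C1 * (δ / (C1 + C2 + 1)) + (δ / (C1 + C2 + 1)) * (C2 + 1) := by
        apply add_le_add
        · exact mul_le_mul h3 (h2.trans h6) (norm_nonneg _) hC1
        · exact mul_le_mul (h1.trans h6) h5 (norm_nonneg _) (by positivity)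
    _ = δ := by field_simp; ring

theorem alg_hinf {F : Set (Cir → ℂ)} {f : Cir → ℂ} (hf : f ∈ Hinf) : f ∈ Alg F := by
  refine ⟨hf.1, fun δ hδ => ⟨1, Submonoid.one_mem _, f, hf, Eventually.of_forall fun t => ?_⟩⟩
  simp [cj, hδ.le]

theorem alg_closed {F : Set (Cir → ℂ)} {f : Cir → ℂ} (hf : MemLp f ⊤ mC)
    (h : ∀ δ > 0, ∃ g ∈ Alg F, ∀ᵐ t ∂mC, ‖f t - g t‖ ≤ δ) : f ∈ Alg F := by
  refine ⟨hf, fun δ hδ => ?_⟩
  obtain ⟨g, ⟨-, hg'⟩, hfg⟩ := h (δ / 2) (by positivity)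
  obtain ⟨B1, hB1, g1, hg1, h1⟩ := hg' (δ / 2) (by positivity)
  refine ⟨B1, hB1, g1, hg1, ?_⟩
  filter_upwards [hfg, h1] with t h1 h2
  have : f t - cj B1 t * g1 t = (f t - g t) + (g t - cj B1 t * g1 t) := by ring
  rw [this]
  refine (norm_add_le _ _).trans ?_
  linarith

theorem alg_douglas {F : Set (Cir → ℂ)} (hF : ∀ B ∈ F, IsInner B) : IsDouglas (Alg F) :=
  { bdd := fun f hf => hf.1
    hinf := fun f hf => alg_hinf hf
    add := fun f hf g hg => alg_add hF hf hg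
    mul := fun f hf g hg => alg_mul hf hg
    closed := fun f hf h => alg_closed hf h }

theorem memLp_cj {f : Cir → ℂ} (hf : MemLp f ⊤ mC) : MemLp (cj f) ⊤ mC := by
  have h1 : AEStronglyMeasurable (cj f) mC :=
    Complex.continuous_conj.comp_aestronglyMeasurable hf.1
  refine hf.of_le h1 (Eventually.of_forall fun t => ?_)
  simp [cj]

theorem sub_alg {F : Set (Cir → ℂ)} (hF : ∀ B ∈ F, IsInner B) : F ⊆ Inv (Alg F) := by
  intro B hB
  refine ⟨hF B hB, memLp_cj (hF B hB).1.1, fun δ hδ => ?_⟩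
  refine ⟨B, Submonoid.subset_closure hB, 1, Hinf.const 1, Eventually.of_forall fun t => ?_⟩
  simp [hδ.le]

theorem closure_inv {D F : Set (Cir → ℂ)} (hD : IsDouglas D) (hF : F ⊆ Inv D) :
    (Submonoid.closure F : Set (Cir → ℂ)) ⊆ Inv D := by
  intro B hB
  have hB' : B ∈ Submonoid.closure F := hB
  clear hB
  induction hB' using Submonoid.closure_induction with
  | mem x hx => exact hF hx
  | one =>
    refine ⟨one_inner, ?_⟩
    have : cj (1 : Cir → ℂ) = fun _ => 1 := by funext t; simp [cj]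
    rw [this]
    exact hD.hinf (Hinf.const 1)
  | mul x y _ _ hx hy =>
    refine ⟨mul_inner hx.1 hy.1, ?_⟩
    have : cj (x * y) = cj x * cj y := by funext t; simp [cj]
    rw [this]
    exact hD.mul _ hx.2 _ hy.2

theorem ext_mul_norm {f g : Cir → ℂ} (hf : IsInner f) (hg : IsInner g) {z : ℂ} (hz : ‖z‖ < 1) :
    ‖ext (f * g) z‖ = ‖ext f z‖ * ‖ext g z‖ := by
  rw [Hinf.ext_mul hf.1 hg.1 hz, norm_mul]

theorem ext_one {z : ℂ} (hz : ‖z‖ < 1) : ext (1 : Cir → ℂ) z = 1 := by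
  have h := Hinf.ext_pow (Hinf.const 1) 0 hz
  simpa using h

/-- level sets of products -/
theorem lev_prod {F : Set (Cir → ℂ)} (hF : ∀ B ∈ F, IsInner B) (s : Finset (Cir → ℂ))
    (hs : (s : Set (Cir → ℂ)) ⊆ F) (ε : ℝ) :
    (∏ B ∈ s, B) ∈ Submonoid.closure F ∧ Lev (∏ B ∈ s, B) ε ⊆ Levs s ε := by
  have h1 : ∀ s : Finset (Cir → ℂ), (s : Set (Cir → ℂ)) ⊆ F →
      (∏ B ∈ s, B) ∈ Submonoid.closure F := fun s hs =>
    Submonoid.prod_mem _ fun B hB => Submonoid.subset_closure (hs hB)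
  refine ⟨h1 s hs, fun z hz => ⟨hz.1, fun B hB => hz.2.trans_le ?_⟩⟩
  classical
  rw [← Finset.mul_prod_erase s (fun B => B) hB]
  have hs' : ((s.erase B : Finset (Cir → ℂ)) : Set (Cir → ℂ)) ⊆ F := fun x hx =>
    hs (Finset.erase_subset _ _ hx)
  have i2 := closure_inner hF _ (h1 _ hs')
  rw [ext_mul_norm (hF B (hs hB)) i2 hz.1]
  have := IsInner.ext_le i2 hz.1
  nlinarith [norm_nonneg (ext B z)]

theorem lev_closure {F : Set (Cir → ℂ)} (hF : ∀ B ∈ F, IsInner B) (B : Cir → ℂ)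
    (hB : B ∈ Submonoid.closure F) : ∀ ε > 0, ∃ (s : Finset (Cir → ℂ)) (ε' : ℝ),
      (s : Set (Cir → ℂ)) ⊆ F ∧ 0 < ε' ∧ Levs s ε' ⊆ Lev B ε := by
  classical
  induction hB using Submonoid.closure_induction with
  | mem x hx =>
    intro ε hε
    refine ⟨{x}, ε, by simpa using hx, hε, fun z hz => ⟨hz.1, hz.2 x (by simp)⟩⟩
  | one =>
    intro ε hε
    refine ⟨∅, ε, by simp, hε, fun z hz => ⟨hz.1, ?_⟩⟩
    rw [ext_one hz.1]
    simp [hε]
  | mul x y hx hy ihx ihy =>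
    intro ε hε
    set ε1 : ℝ := min (ε / 2) (1 / 2) with hε1
    have hε1p : 0 < ε1 := by positivity
    obtain ⟨s1, e1, hs1, he1, h1⟩ := ihx ε1 hε1p
    obtain ⟨s2, e2, hs2, he2, h2⟩ := ihy ε1 hε1p
    refine ⟨s1 ∪ s2, min e1 e2, ?_, lt_min he1 he2, fun z hz => ⟨hz.1, ?_⟩⟩
    · rw [Finset.coe_union]
      exact Set.union_subset hs1 hs2
    · have z1 := (h1 ⟨hz.1, fun B hB => lt_of_le_of_lt (by
        have := min_le_left e1 e2; linarith) (hz.2 B (Finset.mem_union_left _ hB))⟩).2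
      have z2 := (h2 ⟨hz.1, fun B hB => lt_of_le_of_lt (by
        have := min_le_right e1 e2; linarith) (hz.2 B (Finset.mem_union_right _ hB))⟩).2
      rw [ext_mul_norm (closure_inner hF x hx) (closure_inner hF y hy) hz.1]
      have a1 : ε1 ≤ ε / 2 := min_le_left _ _
      have a2 : ε1 ≤ 1 / 2 := min_le_right _ _
      nlinarith

end Gen

open Gen in
/-- the characterisation for a Douglas algebra generated by a family of inner functions -/
theorem main_gen (D F : Set (Cir → ℂ)) (h : IsGen D F) :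
    [∀ I ∈ Inv D, IsBlaschke I,
      ∀ s : Finset (Cir → ℂ), (s : Set (Cir → ℂ)) ⊆ F → ∀ ε > 0, ∀ h : ℂ → ℝ, PosHarm h →
        BddAbove (h '' Levs s ε) → BddAbove (h '' ball 0 1),
      ∀ s : Finset (Cir → ℂ), (s : Set (Cir → ℂ)) ⊆ F → ∀ ε > 0,
        ∀ K : Set Cir, IsCompact K → mC K = 0 → ∀ η > 0,
        ∃ (S : Finset ℂ) (a : ℂ → ℝ), (∀ z ∈ S, z ∈ Levs s ε ∧ 0 ≤ a z) ∧ ∑ z ∈ S, a z < η ∧
          ∀ t ∈ K, 1 ≤ ∑ z ∈ S, a z * P z t].TFAE := by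
  have hF : ∀ B ∈ F, IsInner B := fun B hB => (h.sub hB).1
  have hsub : D ⊆ Alg F := h.least _ (alg_douglas hF) (sub_alg hF)
  have hm := main D h.douglas (Submonoid.closure F : Set (Cir → ℂ)) (closure_inv h.douglas h.sub)
    (fun I hI => (hsub hI.2).2)
  have m12 := hm.out 0 1
  have m13 := hm.out 0 2
  have e12 : (∀ B ∈ (Submonoid.closure F : Set (Cir → ℂ)), ∀ ε > 0, ∀ h : ℂ → ℝ, PosHarm h →
        BddAbove (h '' Lev B ε) → BddAbove (h '' ball 0 1)) ↔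
      ∀ s : Finset (Cir → ℂ), (s : Set (Cir → ℂ)) ⊆ F → ∀ ε > 0, ∀ h : ℂ → ℝ, PosHarm h →
        BddAbove (h '' Levs s ε) → BddAbove (h '' ball 0 1) := by
    constructor
    · intro H s hs ε hε u hu hb
      obtain ⟨h1, h2⟩ := lev_prod hF s hs ε
      exact H _ h1 ε hε u hu (hb.mono (Set.image_mono h2))
    · intro H B hB ε hε u hu hb
      obtain ⟨s, ε', hs, hε', h1⟩ := lev_closure hF B hB ε hε
      exact H s hs ε' hε' u hu (hb.mono (Set.image_mono h1))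
  have e13 : (∀ B ∈ (Submonoid.closure F : Set (Cir → ℂ)), ∀ ε > 0,
        ∀ K : Set Cir, IsCompact K → mC K = 0 → ∀ η > 0,
        ∃ (S : Finset ℂ) (a : ℂ → ℝ), (∀ z ∈ S, z ∈ Lev B ε ∧ 0 ≤ a z) ∧ ∑ z ∈ S, a z < η ∧
          ∀ t ∈ K, 1 ≤ ∑ z ∈ S, a z * P z t) ↔
      ∀ s : Finset (Cir → ℂ), (s : Set (Cir → ℂ)) ⊆ F → ∀ ε > 0,
        ∀ K : Set Cir, IsCompact K → mC K = 0 → ∀ η > 0,
        ∃ (S : Finset ℂ) (a : ℂ → ℝ), (∀ z ∈ S, z ∈ Levs s ε ∧ 0 ≤ a z) ∧ ∑ z ∈ S, a z < η ∧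
          ∀ t ∈ K, 1 ≤ ∑ z ∈ S, a z * P z t := by
    constructor
    · intro H s hs ε hε K hK hK0 η hη
      obtain ⟨h1, h2⟩ := lev_prod hF s hs ε
      obtain ⟨S, a, h3, h4⟩ := H _ h1 ε hε K hK hK0 η hη
      exact ⟨S, a, fun z hz => ⟨h2 (h3 z hz).1, (h3 z hz).2⟩, h4⟩
    · intro H B hB ε hε K hK hK0 η hη
      obtain ⟨s, ε', hs, hε', h1⟩ := lev_closure hF B hB ε hε
      obtain ⟨S, a, h3, h4⟩ := H s hs ε' hε' K hK hK0 η hη
      exact ⟨S, a, fun z hz => ⟨h1 (h3 z hz).1, (h3 z hz).2⟩, h4⟩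
  rw [e12] at m12
  rw [e13] at m13
  tfae_have 1 ↔ 2 := m12
  tfae_have 1 ↔ 3 := m13
  tfae_finish

/-- the characterisation for an arbitrary Douglas algebra -/
theorem main_all (D : Set (Cir → ℂ)) (hD : IsDouglas D) :
    [∀ I ∈ Inv D, IsBlaschke I,
      ∀ B ∈ Inv D, ∀ ε > 0, ∀ h : ℂ → ℝ, PosHarm h →
        BddAbove (h '' Lev B ε) → BddAbove (h '' ball 0 1),
      ∀ B ∈ Inv D, ∀ ε > 0, ∀ K : Set Cir, IsCompact K → mC K = 0 → ∀ η > 0,
        ∃ (S : Finset ℂ) (a : ℂ → ℝ), (∀ z ∈ S, z ∈ Lev B ε ∧ 0 ≤ a z) ∧ ∑ z ∈ S, a z < η ∧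
          ∀ t ∈ K, 1 ≤ ∑ z ∈ S, a z * P z t].TFAE :=
  main D hD (Inv D) subset_rfl fun I hI δ hδ =>
    ⟨I, hI, 1, Hinf.const 1, Eventually.of_forall fun t => by simp [hδ.le]⟩

/-- every family of inner functions generates a Douglas algebra -/
theorem exists_isGen (F : Set (Cir → ℂ)) (hF : ∀ B ∈ F, IsInner B) : ∃ D, IsGen D F := by
  refine ⟨Gen.Alg F, Gen.alg_douglas hF, Gen.sub_alg hF, fun D' hD' hF' f hf => ?_⟩
  refine hD'.closed f hf.1 fun δ hδ => ?_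
  obtain ⟨B, hB, g, hg, h⟩ := hf.2 δ hδ
  exact ⟨cj B * g, hD'.mul _ (Gen.closure_inv hD' hF' hB).2 _ (hD'.hinf hg), h⟩

end

end Pool.Agent.Helper59.DGA
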