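import Pool.Agent.Helper59.DG.Ker

/-! Decomposition of measures. -/

set_option autoImplicit false

namespace Pool.Agent.Helper59.DGA

open MeasureTheory AddCircle Metric Filter Topology

noncomputable section

/-- a finite measure is absolutely continuous or has positive mass on a compact null set -/
theorem exists_compact_or (μ : Measure Cir) [IsFiniteMeasure μ] :
    (∃ K : Set Cir, IsCompact K ∧ mC K = 0 ∧ 0 < μ K) ∨
    ∃ φ : Cir → ℝ, Integrable φ mC ∧ (∀ t, 0 ≤ φ t) ∧
      ∀ z ∈ ball (0 : ℂ) 1, PI μ z = ∫ t, P z t * φ t ∂mC := by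
  by_cases hs : μ.singularPart mC = 0
  · right
    have hac : μ ≪ mC := (Measure.singularPart_eq_zero μ mC).1 hs
    refine ⟨fun t => (μ.rnDeriv mC t).toReal, Measure.integrable_toReal_rnDeriv,
      fun t => ENNReal.toReal_nonneg, ?_⟩
    intro z _
    have h := integral_rnDeriv_smul (E := ℝ) hac (f := fun t => P z t)
    unfold PI
    rw [← h]
    refine integral_congr_ae (Eventually.of_forall fun t => ?_)
    simp only [smul_eq_mul]
    ring
  · left
    obtain ⟨A, hA, hA1, hA2⟩ := Measure.mutuallySingular_singularPart μ mC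
    have hpos : 0 < μ.singularPart mC Aᶜ := by
      rcases eq_or_ne (μ.singularPart mC Aᶜ) 0 with h0 | h0
      · exfalso
        apply hs
        rw [← Measure.measure_univ_eq_zero, ← Set.union_compl_self A]
        exact le_antisymm ((measure_union_le _ _).trans (by rw [hA1, h0]; simp)) (by simp)
      · exact pos_iff_ne_zero.2 h0
    obtain ⟨K, hKA, hK, hKpos⟩ :=
      hA.compl.exists_lt_isCompact_of_ne_top (measure_ne_top (μ.singularPart mC) _) hpos
    refine ⟨K, hK, measure_mono_null hKA hA2, ?_⟩
    exact lt_of_lt_of_le hKpos (Measure.singularPart_le μ mC K)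

end

end Pool.Agent.Helper59.DGA
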