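import Pool.Agent.Helper59.DG.Ker

/-! Herglotz representation. -/

set_option autoImplicit false

namespace Pool.Agent.Helper59.DGA

open MeasureTheory AddCircle Metric Filter Topology

noncomputable section

namespace HergAux

/-- the Poisson formula for the dilated function -/
theorem poisson_formula {h : ℂ → ℝ} (hh : PosHarm h) {r : ℝ} (hr0 : 0 < r) (hr1 : r < 1) {z : ℂ}
    (hz : ‖z‖ < 1) : h (r * z) = ∫ t, P z t * h (r * e t) ∂mC := by
  have hharm : InnerProductSpace.HarmonicOnNhd h (closedBall 0 r) :=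
    fun x hx => hh.1 x (closedBall_subset_ball hr1 hx)
  have hw : (r : ℂ) * z ∈ ball (0 : ℂ) r := by
    rw [mem_ball_zero_iff, norm_mul, Complex.norm_real, Real.norm_of_nonneg hr0.le]
    nlinarith [norm_nonneg z]
  have h1 := InnerProductSpace.HarmonicOnNhd.circleAverage_poissonKernel_smul hharm hw
  rw [← h1, ← integral_circleAverage_real]
  refine integral_congr_ae (Filter.Eventually.of_forall fun t => ?_)
  have h2 : poissonKernel 0 ((r : ℂ) * z) (r * e t) = P z t := by
    rw [poissonKernel, P, sub_zero, sub_zero, ← mul_sub, norm_mul, norm_mul, norm_mul, norm_e,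
      Complex.norm_real, Real.norm_of_nonneg hr0.le]
    have hr2 : r ^ 2 ≠ 0 := by positivity
    rw [show (r * 1) ^ 2 - (r * ‖z‖) ^ 2 = r ^ 2 * (1 - ‖z‖ ^ 2) by ring,
      show (r * ‖e t - z‖) ^ 2 = r ^ 2 * ‖e t - z‖ ^ 2 by ring, mul_div_mul_left _ _ hr2]
  simp only [Pi.smul_apply', smul_eq_mul, h2]

/-- continuity of the dilated function on the circle -/
theorem continuous_dil {h : ℂ → ℝ} (hh : PosHarm h) {r : ℝ} (hr0 : 0 < r) (hr1 : r < 1) :
    Continuous (fun t : Cir => h (r * e t)) := by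
  have hc : ContinuousOn h (ball 0 1) := fun x hx =>
    ((hh.1 x hx).1.continuousAt).continuousWithinAt
  refine hc.comp_continuous (continuous_const.mul continuous_e) fun t => ?_
  rw [mem_ball_zero_iff, norm_mul, norm_e, Complex.norm_real, Real.norm_of_nonneg hr0.le, mul_one]
  exact hr1

theorem dil_nonneg {h : ℂ → ℝ} (hh : PosHarm h) {r : ℝ} (hr0 : 0 < r) (hr1 : r < 1) (t : Cir) :
    0 ≤ h (r * e t) := by
  refine hh.2 _ ?_
  rw [mem_ball_zero_iff, norm_mul, norm_e, Complex.norm_real, Real.norm_of_nonneg hr0.le, mul_one]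
  exact hr1

/-- the dilated function as a finite measure -/
theorem exists_measure {h : ℂ → ℝ} (hh : PosHarm h) {r : ℝ} (hr0 : 0 < r) (hr1 : r < 1) :
    ∃ ν : FiniteMeasure Cir, ν.mass ≤ (h 0).toNNReal ∧
      ∀ g : Cir → ℝ, ∫ t, g t ∂(ν : Measure Cir) = ∫ t, g t * h (r * e t) ∂mC := by
  obtain ⟨d, hd⟩ : ∃ d : Cir → NNReal, d = fun t => (h (r * e t)).toNNReal := ⟨_, rfl⟩
  have hdm : Measurable d := by
    rw [hd]
    exact (continuous_dil hh hr0 hr1).measurable.real_toNNReal
  have hint : ∀ g : Cir → ℝ, ∫ t, g t ∂(mC.withDensity fun t => (d t : ENNReal)) =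
      ∫ t, g t * h (r * e t) ∂mC := by
    intro g
    rw [integral_withDensity_eq_integral_smul hdm]
    refine integral_congr_ae (Filter.Eventually.of_forall fun t => ?_)
    simp only [hd]
    rw [NNReal.smul_def, Real.coe_toNNReal _ (dil_nonneg hh hr0 hr1 t), smul_eq_mul, mul_comm]
  have h0 : ∫ t, h (r * e t) ∂mC = h 0 := by
    have := poisson_formula hh hr0 hr1 (z := 0) (by simp)
    rw [mul_zero] at this
    rw [this]
    refine integral_congr_ae (Filter.Eventually.of_forall fun t => ?_)
    simp only [P_zero, one_mul]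
  have hmass : (mC.withDensity fun t => (d t : ENNReal)) Set.univ = ENNReal.ofReal (h 0) := by
    rw [withDensity_apply _ MeasurableSet.univ, Measure.restrict_univ, ← h0,
      ofReal_integral_eq_lintegral_ofReal]
    · refine lintegral_congr fun t => ?_
      simp only [hd]
      rfl
    · exact (continuous_dil hh hr0 hr1).integrable_of_hasCompactSupport
        (HasCompactSupport.of_compactSpace _)
    · exact Filter.Eventually.of_forall fun t => dil_nonneg hh hr0 hr1 t
  have hfin : IsFiniteMeasure (mC.withDensity fun t => (d t : ENNReal)) :=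
    ⟨by rw [hmass]; exact ENNReal.ofReal_lt_top⟩
  refine ⟨⟨mC.withDensity fun t => (d t : ENNReal), hfin⟩, ?_, hint⟩
  have h2 : (FiniteMeasure.mass ⟨mC.withDensity fun t => (d t : ENNReal), hfin⟩ : NNReal) =
      (h 0).toNNReal := by
    change ENNReal.toNNReal ((mC.withDensity fun t => (d t : ENNReal)) Set.univ) = _
    rw [hmass]
    rfl
  rw [h2]

end HergAux

open HergAux in
/-- Herglotz representation of positive harmonic functions -/
theorem herglotz {h : ℂ → ℝ} (hh : PosHarm h) : ∃ μ : Measure Cir, IsFiniteMeasure μ ∧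
    ∀ z ∈ ball (0 : ℂ) 1, h z = PI μ z := by
  -- the radii
  obtain ⟨r, hr⟩ : ∃ r : ℕ → ℝ, r = fun n : ℕ => (1 : ℝ) - 1 / ((n : ℝ) + 2) := ⟨_, rfl⟩
  have hr0 : ∀ n, 0 < r n := by
    intro n
    rw [hr]
    have : (1 : ℝ) / (n + 2) < 1 := by
      rw [div_lt_one (by positivity)]
      have : (0 : ℝ) ≤ n := Nat.cast_nonneg n
      linarith
    simp only
    linarith
  have hr1 : ∀ n, r n < 1 := by
    intro n
    rw [hr]
    have : (0 : ℝ) < 1 / ((n : ℝ) + 2) := by positivity
    simp only
    linarith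
  have hrlim : Tendsto r atTop (𝓝 1) := by
    rw [hr]
    have h1 : Tendsto (fun n : ℕ => 1 / ((n : ℝ) + 2)) atTop (𝓝 0) := by
      refine Tendsto.div_atTop tendsto_const_nhds ?_
      exact tendsto_atTop_add_const_right _ _ tendsto_natCast_atTop_atTop
    have := h1.const_sub 1
    rwa [sub_zero] at this
  choose ν hν1 hν2 using fun n => exists_measure hh (hr0 n) (hr1 n)
  -- the limit along an ultrafilter
  have hcomp := isCompact_setOfPred_finiteMeasure_le_of_compactSpace Cir (h 0).toNNReal
  have hU : ((Filter.hyperfilter ℕ : Ultrafilter ℕ) : Filter ℕ) ≤ atTop := by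
    rw [← Nat.cofinite_eq_atTop]
    exact Filter.hyperfilter_le_cofinite
  obtain ⟨μ, _, hμ⟩ := hcomp.ultrafilter_le_nhds' ((Filter.hyperfilter ℕ).map ν)
    (by
      rw [Ultrafilter.mem_map]
      exact Filter.Eventually.of_forall fun n => hν1 n)
  have hlim : Tendsto ν (Filter.hyperfilter ℕ : Filter ℕ) (𝓝 μ) := hμ
  rw [FiniteMeasure.tendsto_iff_forall_integral_tendsto] at hlim
  refine ⟨μ, inferInstance, ?_⟩
  intro z hz
  have hz1 : ‖z‖ < 1 := mem_ball_zero_iff.1 hz
  have h1 := hlim (BoundedContinuousFunction.mkOfCompact ⟨P z, continuous_P hz1⟩)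
  simp only [BoundedContinuousFunction.mkOfCompact_apply, ContinuousMap.coe_mk] at h1
  have h2 : ∀ n, ∫ t, P z t ∂(ν n : Measure Cir) = h (r n * z) := by
    intro n
    rw [hν2 n, poisson_formula hh (hr0 n) (hr1 n) hz1]
  simp only [h2] at h1
  -- the left side tends to `h z`
  have h3 : Tendsto (fun n => h (r n * z)) atTop (𝓝 (h z)) := by
    have hc : ContinuousAt h z := (hh.1 z hz).1.continuousAt
    have h4 : Tendsto (fun n => ((r n : ℝ) : ℂ) * z) atTop (𝓝 z) := by
      have h5 : Tendsto (fun n => ((r n : ℝ) : ℂ)) atTop (𝓝 ((1 : ℝ) : ℂ)) :=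
        (Complex.continuous_ofReal.tendsto 1).comp hrlim
      have := h5.mul_const z
      simpa using this
    exact hc.tendsto.comp h4
  exact tendsto_nhds_unique (h3.mono_left hU) h1

end

end Pool.Agent.Helper59.DGA
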