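import Pool.Agent.Helper59.DG.KerA

/-! Poisson and Herglotz integrals of measures. -/

set_option autoImplicit false

namespace Pool.Agent.Helper59.DGA

open MeasureTheory AddCircle Metric Filter Topology

noncomputable section

namespace KerC

theorem sub_norm_ge (z : ℂ) (t : Cir) : 1 - ‖z‖ ≤ ‖e t - z‖ := by
  have h := norm_sub_norm_le (e t) z
  rwa [norm_e] at h

theorem e_sub_ne {z : ℂ} (hz : ‖z‖ < 1) (t : Cir) : e t - z ≠ 0 := by
  intro h
  have h1 := sub_norm_ge z t
  rw [h, norm_zero] at h1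
  linarith

theorem re_formula (w z : ℂ) : ((w + z) / (w - z)).re = (‖w‖ ^ 2 - ‖z‖ ^ 2) / ‖w - z‖ ^ 2 := by
  rw [Complex.div_re, ← Complex.normSq_eq_norm_sq, ← Complex.normSq_eq_norm_sq,
    ← Complex.normSq_eq_norm_sq, ← add_div]
  congr 1
  simp only [Complex.normSq_apply, Complex.add_re, Complex.sub_re, Complex.add_im,
    Complex.sub_im]
  ring

theorem measurable_h (z : ℂ) : Measurable (fun t : Cir => (e t + z) / (e t - z)) := by
  have h1 : Measurable e := continuous_e.measurable
  exact (h1.add_const z).div (h1.sub_const z)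

theorem h_norm_le {z : ℂ} (hz : ‖z‖ < 1) (t : Cir) :
    ‖(e t + z) / (e t - z)‖ ≤ 2 / (1 - ‖z‖) := by
  rw [norm_div]
  have h1 : ‖e t + z‖ ≤ 2 := by
    have := norm_add_le (e t) z
    rw [norm_e] at this
    linarith
  have h2 := sub_norm_ge z t
  exact div_le_div₀ (by norm_num) h1 (by linarith) h2

theorem integrable_h (μ : Measure Cir) [IsFiniteMeasure μ] {z : ℂ} (hz : ‖z‖ < 1) :
    Integrable (fun t : Cir => (e t + z) / (e t - z)) μ := by
  refine Integrable.mono' (integrable_const (2 / (1 - ‖z‖)))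
    (measurable_h z).aestronglyMeasurable ?_
  exact Eventually.of_forall fun t => h_norm_le hz t

theorem integrable_P (μ : Measure Cir) [IsFiniteMeasure μ] {z : ℂ} (hz : ‖z‖ < 1) :
    Integrable (P z) μ := by
  refine Integrable.mono' (integrable_const (2 / (1 - ‖z‖)))
    (continuous_P hz).aestronglyMeasurable ?_
  refine Eventually.of_forall fun t => ?_
  rw [Real.norm_eq_abs, abs_of_pos (P_pos hz t)]
  exact P_le hz t

theorem P_symm {r : ℝ} (s t : Cir) : P (r * e t) s = P (r * e s) t := by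
  unfold P
  have h1 : ‖(r : ℂ) * e t‖ = ‖(r : ℂ) * e s‖ := by
    rw [norm_mul, norm_mul, norm_e, norm_e]
  have h2 : ‖e s - (r : ℂ) * e t‖ ^ 2 = ‖e t - (r : ℂ) * e s‖ ^ 2 := by
    have hs := norm_e s
    have ht := norm_e t
    rw [← sq_eq_sq₀ (norm_nonneg _) zero_le_one] at hs ht
    rw [← Complex.normSq_eq_norm_sq, Complex.normSq_apply] at hs ht
    rw [← Complex.normSq_eq_norm_sq, ← Complex.normSq_eq_norm_sq, Complex.normSq_apply,
      Complex.normSq_apply]
    simp only [Complex.sub_re, Complex.sub_im, Complex.mul_re, Complex.mul_im, Complex.ofReal_re,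
      Complex.ofReal_im]
    linear_combination (1 - r ^ 2) * hs - (1 - r ^ 2) * ht
  rw [h1, h2]

end KerC

section measures

set_option linter.unusedSectionVars false

variable (μ : Measure Cir) [IsFiniteMeasure μ]

theorem HI_analytic : AnalyticOnNhd ℂ (HI μ) (ball 0 1) := by
  apply DifferentiableOn.analyticOnNhd _ isOpen_ball
  intro z hz
  apply DifferentiableAt.differentiableWithinAt
  rw [mem_ball_zero_iff] at hz
  obtain ⟨ρ, h1, h2⟩ := exists_between hz
  have hs : ball (0 : ℂ) ρ ∈ 𝓝 z := isOpen_ball.mem_nhds (by rwa [mem_ball_zero_iff])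
  have key := hasDerivAt_integral_of_dominated_loc_of_deriv_le (μ := μ)
    (F := fun (z : ℂ) (t : Cir) => (e t + z) / (e t - z))
    (F' := fun (z : ℂ) (t : Cir) => 2 * e t / (e t - z) ^ 2) (x₀ := z)
    (bound := fun _ => 2 / (1 - ρ) ^ 2) hs
    (Eventually.of_forall fun w => (KerC.measurable_h w).aestronglyMeasurable)
    (KerC.integrable_h μ hz) ?_ ?_ (integrable_const _) ?_
  · exact key.2.differentiableAt
  · have h1 : Measurable e := continuous_e.measurable
    exact ((h1.const_mul 2).div ((h1.sub_const z).pow_const 2)).aestronglyMeasurable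
  · refine Eventually.of_forall fun t w hw => ?_
    rw [mem_ball_zero_iff] at hw
    rw [norm_div, norm_mul, norm_e, norm_pow]
    have h3 := KerC.sub_norm_ge w t
    have h4 : (1 - ρ) ^ 2 ≤ ‖e t - w‖ ^ 2 :=
      pow_le_pow_left₀ (by linarith) (by linarith) 2
    have h5 : ‖(2 : ℂ)‖ * 1 = 2 := by simp
    rw [h5]
    exact div_le_div_of_nonneg_left (by norm_num) (pow_pos (by linarith) 2) h4
  · refine Eventually.of_forall fun t w hw => ?_
    rw [mem_ball_zero_iff] at hw
    have hne := KerC.e_sub_ne (lt_trans hw h2) t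
    have ha : HasDerivAt (fun z : ℂ => e t + z) 1 w := by
      simpa using (hasDerivAt_id w).const_add (e t)
    have hb : HasDerivAt (fun z : ℂ => e t - z) (-1) w := by
      simpa using (hasDerivAt_id w).const_sub (e t)
    have hd : HasDerivAt (fun z : ℂ => (e t + z) / (e t - z))
        ((1 * (e t - w) - (e t + w) * (-1)) / (e t - w) ^ 2) w := ha.div hb hne
    refine hd.congr_deriv ?_
    ring

theorem HI_re {z : ℂ} (hz : ‖z‖ < 1) : (HI μ z).re = PI μ z := by
  unfold HI PI
  have h := integral_re (KerC.integrable_h μ hz)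
  simp only [RCLike.re_to_complex] at h
  rw [← h]
  apply integral_congr_ae
  refine Eventually.of_forall fun t => ?_
  simp only
  rw [KerC.re_formula, norm_e, one_pow]
  rfl

theorem PI_nonneg {z : ℂ} (hz : ‖z‖ < 1) : 0 ≤ PI μ z :=
  integral_nonneg fun t => (P_pos hz t).le

theorem PI_le {z : ℂ} (hz : ‖z‖ < 1) : PI μ z ≤ 2 / (1 - ‖z‖) * (μ Set.univ).toReal := by
  unfold PI
  calc ∫ t, P z t ∂μ ≤ ∫ _ : Cir, 2 / (1 - ‖z‖) ∂μ :=
        integral_mono (KerC.integrable_P μ hz) (integrable_const _) fun t => P_le hz t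
    _ = 2 / (1 - ‖z‖) * (μ Set.univ).toReal := by
        rw [integral_const, smul_eq_mul, mul_comm]
        rfl

theorem PI_zero : PI μ 0 = (μ Set.univ).toReal := by
  unfold PI
  simp only [P_zero]
  rw [integral_const, smul_eq_mul, mul_one]
  rfl

theorem posHarm_PI : PosHarm (PI μ) := by
  refine ⟨fun z hz => ?_, fun z hz => PI_nonneg μ (by rwa [mem_ball_zero_iff] at hz)⟩
  have h1 : InnerProductSpace.HarmonicAt (fun z => (HI μ z).re) z :=
    (HI_analytic μ z hz).harmonicAt_re
  have h2 : (fun z => (HI μ z).re) =ᶠ[𝓝 z] PI μ := by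
    filter_upwards [isOpen_ball.mem_nhds hz] with w hw
    exact HI_re μ (by rwa [mem_ball_zero_iff] at hw)
  exact (InnerProductSpace.harmonicAt_congr_nhds h2).1 h1

theorem PI_mono {μ ν : Measure Cir} [IsFiniteMeasure ν] (h : μ ≤ ν) {z : ℂ} (hz : ‖z‖ < 1) :
    PI μ z ≤ PI ν z := by
  unfold PI
  exact integral_mono_measure h (Eventually.of_forall fun t => (P_pos hz t).le)
    (KerC.integrable_P ν hz)

/-- the mean of a Poisson integral over a circle -/
theorem integral_PI {r : ℝ} (hr : 0 < r) (hr1 : r < 1) :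
    ∫ t, PI μ (r * e t) ∂mC = (μ Set.univ).toReal := by
  have hn : ∀ t : Cir, ‖(r : ℂ) * e t‖ = r := fun t => by
    rw [norm_mul, norm_e, mul_one, Complex.norm_real, Real.norm_eq_abs, abs_of_pos hr]
  have hlt : ∀ t : Cir, ‖(r : ℂ) * e t‖ < 1 := fun t => by rw [hn]; exact hr1
  have hcont : Continuous (fun p : Cir × Cir => P (r * e p.1) p.2) := by
    unfold P
    have he1 : Continuous (fun p : Cir × Cir => e p.1) := continuous_e.comp continuous_fst
    have he2 : Continuous (fun p : Cir × Cir => e p.2) := continuous_e.comp continuous_snd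
    refine Continuous.div (by fun_prop) (by fun_prop) ?_
    intro p
    exact pow_ne_zero 2 (norm_ne_zero_iff.2 (KerC.e_sub_ne (hlt p.1) p.2))
  have hint : Integrable (Function.uncurry fun t s : Cir => P (r * e t) s) (mC.prod μ) := by
    refine Integrable.mono' (integrable_const (2 / (1 - r))) hcont.aestronglyMeasurable ?_
    refine Eventually.of_forall fun p => ?_
    have h1 := P_pos (hlt p.1) p.2
    have h2 := P_le (hlt p.1) p.2
    rw [hn] at h2
    change ‖P (r * e p.1) p.2‖ ≤ _
    rw [Real.norm_eq_abs, abs_of_pos h1]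
    exact h2
  unfold PI
  rw [integral_integral_swap hint]
  have h3 : ∀ s : Cir, ∫ t, P (r * e t) s ∂mC = 1 := by
    intro s
    refine Eq.trans ?_ (integral_P (hlt s))
    apply integral_congr_ae
    exact Eventually.of_forall fun t => KerC.P_symm s t
  simp only [h3]
  rw [integral_const, smul_eq_mul, mul_one]
  rfl

theorem continuousOn_PI : ContinuousOn (PI μ) (ball 0 1) := by
  have h1 : ContinuousOn (fun z => (HI μ z).re) (ball 0 1) :=
    Complex.continuous_re.comp_continuousOn (HI_analytic μ).continuousOn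
  refine h1.congr fun z hz => ?_
  exact (HI_re μ (by rwa [mem_ball_zero_iff] at hz)).symm

/-- the Herglotz integral extends continuously, with purely imaginary values, to the points
outside the support -/
theorem HI_tendsto {K : Set Cir} (hK : IsCompact K) (hμ : μ Kᶜ = 0) {t : Cir} (ht : t ∉ K) :
    (HI μ (e t)).re = 0 ∧
    Tendsto (fun r : ℝ => HI μ (r * e t)) (𝓝[<] 1) (𝓝 (HI μ (e t))) := by
  obtain ⟨d, hd, hdK⟩ : ∃ d > 0, ∀ s ∈ K, d ≤ ‖e s - e t‖ := by
    by_cases hne : K.Nonempty
    · obtain ⟨s₀, hs₀, hmin⟩ := hK.exists_isMinOn hne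
        (f := fun s => ‖e s - e t‖) (by
          have := continuous_e
          fun_prop)
      refine ⟨‖e s₀ - e t‖, ?_, fun s hs => hmin hs⟩
      rw [gt_iff_lt, norm_pos_iff, sub_ne_zero]
      intro h
      exact ht (e_injective h ▸ hs₀)
    · exact ⟨1, one_pos, fun s hs => (hne ⟨s, hs⟩).elim⟩
  have hae : ∀ᵐ s ∂μ, s ∈ K := by
    rw [ae_iff]
    exact hμ
  have hb : ∀ᶠ r : ℝ in 𝓝[<] 1, ∀ᵐ s ∂μ, ‖(e s + r * e t) / (e s - r * e t)‖ ≤ 2 / (d / 2) := by
    have h1 : ∀ᶠ r : ℝ in 𝓝[<] 1, 1 - d / 2 < r :=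
      mem_nhdsWithin_of_mem_nhds (Ioi_mem_nhds (by linarith))
    have h0 : ∀ᶠ r : ℝ in 𝓝[<] 1, 0 < r :=
      mem_nhdsWithin_of_mem_nhds (Ioi_mem_nhds (by norm_num))
    have h2 : ∀ᶠ r : ℝ in 𝓝[<] 1, r < 1 := self_mem_nhdsWithin
    filter_upwards [h1, h2, h0] with r hr hr1 hr0
    filter_upwards [hae] with s hs
    rw [norm_div]
    have hn : ‖(r : ℂ) * e t‖ = r := by
      rw [norm_mul, norm_e, mul_one, Complex.norm_real, Real.norm_eq_abs, abs_of_pos hr0]
    have h3 : ‖e s + r * e t‖ ≤ 2 := by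
      have := norm_add_le (e s) (r * e t)
      rw [norm_e, hn] at this
      linarith
    have h4 : d / 2 ≤ ‖e s - r * e t‖ := by
      have h5 : e s - e t = (e s - r * e t) + (((r - 1 : ℝ) : ℂ) * e t) := by
        push_cast
        ring
      have h6 := norm_add_le (e s - r * e t) (((r - 1 : ℝ) : ℂ) * e t)
      rw [← h5, norm_mul, norm_e, mul_one, Complex.norm_real, Real.norm_eq_abs,
        abs_of_neg (by linarith : r - 1 < 0)] at h6
      have h7 := hdK s hs
      linarith
    exact div_le_div₀ (by norm_num) h3 (by linarith) h4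
  refine ⟨?_, ?_⟩
  · unfold HI
    by_cases hi : Integrable (fun s : Cir => (e s + e t) / (e s - e t)) μ
    · have h := integral_re hi
      simp only [RCLike.re_to_complex] at h
      rw [← h]
      have h0 : ∀ s : Cir, ((e s + e t) / (e s - e t)).re = 0 := by
        intro s
        rw [KerC.re_formula, norm_e, norm_e, sub_self, zero_div]
      simp only [h0, integral_zero]
    · rw [integral_undef hi, Complex.zero_re]
  · unfold HI
    refine tendsto_integral_filter_of_dominated_convergence (fun _ => 2 / (d / 2)) ?_ hb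
      (integrable_const _) ?_
    · exact Eventually.of_forall fun r => (KerC.measurable_h (r * e t)).aestronglyMeasurable
    · filter_upwards [hae] with s hs
      have hne : e s - ((1 : ℝ) : ℂ) * e t ≠ 0 := by
        rw [Complex.ofReal_one, one_mul]
        intro h
        have := hdK s hs
        rw [h, norm_zero] at this
        linarith
      have hc : ContinuousAt (fun r : ℝ => (e s + (r : ℂ) * e t) / (e s - (r : ℂ) * e t)) 1 := by
        refine ContinuousAt.div ?_ ?_ hne
        · fun_prop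
        · fun_prop
      have h8 := hc.tendsto
      simp only [Complex.ofReal_one, one_mul] at h8
      exact h8.mono_left nhdsWithin_le_nhds

/-- radial limits at points outside the support -/
theorem PI_tendsto {K : Set Cir} (hK : IsCompact K) (hμ : μ Kᶜ = 0) {t : Cir} (ht : t ∉ K) :
    Tendsto (fun r : ℝ => PI μ (r * e t)) (𝓝[<] 1) (𝓝 0) := by
  obtain ⟨h1, h2⟩ := HI_tendsto μ hK hμ ht
  have h3 := (Complex.continuous_re.tendsto _).comp h2
  rw [h1] at h3
  refine h3.congr' ?_
  have h0 : ∀ᶠ r : ℝ in 𝓝[<] 1, 0 < r :=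
    mem_nhdsWithin_of_mem_nhds (Ioi_mem_nhds (by norm_num))
  have h4 : ∀ᶠ r : ℝ in 𝓝[<] 1, r < 1 := self_mem_nhdsWithin
  filter_upwards [h4, h0] with r hr1 hr0
  have hn : ‖(r : ℂ) * e t‖ < 1 := by
    rw [norm_mul, norm_e, mul_one, Complex.norm_real, Real.norm_eq_abs, abs_of_pos hr0]
    exact hr1
  exact HI_re μ hn

end measures

end

end Pool.Agent.Helper59.DGA
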