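import Pool.Agent.Helper59.DG.HinA
import Pool.Agent.Helper59.DG.Ker

/-! Boundary values of bounded analytic functions. -/

set_option autoImplicit false

namespace Pool.Agent.Helper59.DGA

open MeasureTheory AddCircle Metric Filter Topology

noncomputable section

namespace HinB

open HinA

theorem integral_e_zpow (n : ℤ) : ∫ t, (e t : ℂ) ^ n ∂mC = if n = 0 then 1 else 0 := by
  have h := fourierCoeff_one (-n)
  rw [fourierCoeff] at h
  simp only [neg_neg, smul_eq_mul, mul_one, fourier_eq] at h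
  rw [h]
  simp

/-- the Fourier coefficients of a power series on a circle of radius `r < 1` -/
theorem coeff_circle {a : ℕ → ℂ} {G : ℂ → ℂ}
    (h : ∀ z : ℂ, ‖z‖ < 1 → HasSum (fun n : ℕ => a n * z ^ n) (G z)) {r : ℝ} (hr0 : 0 ≤ r)
    (hr : r < 1) (m : ℕ) : fourierCoeff (fun t : Cir => G (r * e t)) m = a m * (r : ℂ) ^ m := by
  have hrn : ‖(r : ℂ)‖ < 1 := by rw [Complex.norm_real, Real.norm_eq_abs, abs_of_nonneg hr0]; exact hr
  have hs : Summable fun n : ℕ => ‖a n * (r : ℂ) ^ n‖ := (h r hrn).summable.norm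
  have hre : ∀ t : Cir, ‖(r : ℂ) * e t‖ < 1 := fun t => by
    rw [norm_mul, norm_e, mul_one]; exact hrn
  have hF : ∀ n : ℕ, ∀ t : Cir, (e t) ^ (-(m : ℤ)) * (a n * ((r : ℂ) * e t) ^ n) =
      (a n * (r : ℂ) ^ n) * (e t) ^ ((n : ℤ) - (m : ℤ)) := by
    intro n t
    have hne : e t ≠ 0 := by
      intro h0; have := norm_e t; rw [h0] at this; simp at this
    rw [mul_pow, sub_eq_add_neg, zpow_add₀ hne, zpow_natCast]
    ring
  have hint : ∀ n : ℕ, Integrable (fun t : Cir => (e t) ^ (-(m : ℤ)) * (a n * ((r : ℂ) * e t) ^ n)) mC := by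
    intro n
    simp_rw [hF]
    refine Integrable.const_mul ?_ _
    have := (fourier (T := (1 : ℝ)) ((n : ℤ) - (m : ℤ))).continuous
    have h2 : Integrable (fun t : Cir => (fourier ((n : ℤ) - (m : ℤ)) t : ℂ)) mC :=
      this.integrable_of_hasCompactSupport (HasCompactSupport.of_compactSpace _)
    simpa only [fourier_eq] using h2
  have hnorm : ∀ n : ℕ, ∫ t, ‖(e t) ^ (-(m : ℤ)) * (a n * ((r : ℂ) * e t) ^ n)‖ ∂mC =
      ‖a n * (r : ℂ) ^ n‖ := by
    intro n
    have : ∀ t : Cir, ‖(e t) ^ (-(m : ℤ)) * (a n * ((r : ℂ) * e t) ^ n)‖ = ‖a n * (r : ℂ) ^ n‖ := by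
      intro t
      rw [hF, norm_mul (a n * (r : ℂ) ^ n), norm_zpow, norm_e, one_zpow, mul_one]
    simp_rw [this]
    simp
  have hsum : Summable fun n : ℕ => ∫ t, ‖(e t) ^ (-(m : ℤ)) * (a n * ((r : ℂ) * e t) ^ n)‖ ∂mC := by
    simp_rw [hnorm]; exact hs
  have hh := hasSum_integral_of_summable_integral_norm hint hsum
  have h4 : (∫ t, ∑' n : ℕ, (e t) ^ (-(m : ℤ)) * (a n * ((r : ℂ) * e t) ^ n) ∂mC) =
      fourierCoeff (fun t : Cir => G (r * e t)) m := by
    rw [fourierCoeff]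
    refine integral_congr_ae (Eventually.of_forall fun t => ?_)
    simp only [smul_eq_mul, fourier_eq]
    exact ((h _ (hre t)).mul_left _).tsum_eq
  rw [h4] at hh
  refine hh.unique ?_
  have h5 : ∀ n : ℕ, ∫ t, (e t) ^ (-(m : ℤ)) * (a n * ((r : ℂ) * e t) ^ n) ∂mC =
      if n = m then a m * (r : ℂ) ^ m else 0 := by
    intro n
    simp_rw [hF]
    rw [integral_const_mul, integral_e_zpow]
    by_cases hnm : n = m
    · subst hnm; simp
    · rw [if_neg (by omega), if_neg hnm, mul_zero]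
  simp_rw [h5]
  exact hasSum_ite_eq m _

theorem sq_sum_le {a : ℕ → ℂ} {G : ℂ → ℂ} {C : ℝ}
    (h : ∀ z : ℂ, ‖z‖ < 1 → HasSum (fun n : ℕ => a n * z ^ n) (G z))
    (hG : ContinuousOn G (ball 0 1)) (hC : ∀ z ∈ ball (0 : ℂ) 1, ‖G z‖ ≤ C) (N : ℕ) :
    ∑ n ∈ Finset.range N, ‖a n‖ ^ 2 ≤ C ^ 2 := by
  have hC0 : 0 ≤ C := (norm_nonneg _).trans (hC 0 (mem_ball_self one_pos))
  have key : ∀ r : ℝ, 0 ≤ r → r < 1 → ∑ n ∈ Finset.range N, (‖a n‖ * r ^ n) ^ 2 ≤ C ^ 2 := by
    intro r hr0 hr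
    have hre : ∀ t : Cir, (r : ℂ) * e t ∈ ball (0 : ℂ) 1 := fun t => by
      rw [mem_ball_zero_iff, norm_mul, norm_e, mul_one, Complex.norm_real, Real.norm_eq_abs,
        abs_of_nonneg hr0]; exact hr
    have hcont : Continuous fun t : Cir => G (r * e t) :=
      hG.comp_continuous (continuous_const.mul continuous_e) hre
    have hmem : MemLp (fun t : Cir => G (r * e t)) 2 mC :=
      (memLp_top_of_bound hcont.aestronglyMeasurable C
        (Eventually.of_forall fun t => hC _ (hre t))).mono_exponent le_top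
    have hP := hasSum_sq_fourierCoeff (T := (1 : ℝ)) hmem.toLp
    have e1 : ∀ i : ℤ, fourierCoeff ((hmem.toLp : Lp ℂ 2 mC) : Cir → ℂ) i =
        fourierCoeff (fun t : Cir => G (r * e t)) i :=
      fun i => congrFun (fourierCoeff_congr_ae hmem.coeFn_toLp) i
    simp_rw [e1] at hP
    have h1 : ∫ t, ‖((hmem.toLp : Lp ℂ 2 mC) : Cir → ℂ) t‖ ^ 2 ∂mC ≤ C ^ 2 := by
      have : ∫ t, ‖((hmem.toLp : Lp ℂ 2 mC) : Cir → ℂ) t‖ ^ 2 ∂mC ≤ ∫ t : Cir, C ^ 2 ∂mC := by
        refine integral_mono_of_nonneg (Eventually.of_forall fun t => by positivity)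
          (integrable_const _) ?_
        filter_upwards [hmem.coeFn_toLp] with t ht
        rw [ht]
        exact pow_le_pow_left₀ (norm_nonneg _) (hC _ (hre t)) 2
      simpa using this
    refine le_trans ?_ h1
    have h2 := sum_le_hasSum ((Finset.range N).map ⟨(fun n : ℕ => (n : ℤ)), Nat.cast_injective⟩)
      (fun i _ => by positivity) hP
    rw [Finset.sum_map] at h2
    refine le_trans (le_of_eq ?_) h2
    refine Finset.sum_congr rfl fun n _ => ?_
    simp only [Function.Embedding.coeFn_mk]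
    rw [coeff_circle h hr0 hr, norm_mul, norm_pow, Complex.norm_real, Real.norm_eq_abs,
      abs_of_nonneg hr0]
  have hlim : Tendsto (fun r : ℝ => ∑ n ∈ Finset.range N, (‖a n‖ * r ^ n) ^ 2) (𝓝[<] 1)
      (𝓝 (∑ n ∈ Finset.range N, ‖a n‖ ^ 2)) := by
    have hcont : Continuous fun r : ℝ => ∑ n ∈ Finset.range N, (‖a n‖ * r ^ n) ^ 2 := by fun_prop
    have := (hcont.tendsto 1).mono_left (nhdsWithin_le_nhds (s := Set.Iio 1))
    simpa using this
  refine le_of_tendsto hlim ?_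
  have : ∀ᶠ r : ℝ in 𝓝[<] 1, 0 < r :=
    nhdsWithin_le_nhds (Ioi_mem_nhds one_pos)
  filter_upwards [this, self_mem_nhdsWithin] with r h1 h2
  exact key r h1.le h2

end HinB

open HinA HinB

/-- a function in `H^∞` whose extension has norm at most `C` is bounded by `C` -/
theorem HinB.norm_le_aux {f : Cir → ℂ} (hf : Integrable f mC) {C : ℝ}
    (hC : ∀ z ∈ ball (0 : ℂ) 1, ‖ext f z‖ ≤ C) : ∀ᵐ t ∂mC, ‖f t‖ ≤ C := by
  obtain ⟨r, hr, -, h1, -⟩ := exists_seq hf hf
  filter_upwards [h1] with t ht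
  refine le_of_tendsto ht.norm (Eventually.of_forall fun k => hC _ ?_)
  rw [mem_ball_zero_iff, norm_mul, norm_e, mul_one, Complex.norm_real, Real.norm_eq_abs,
    abs_of_nonneg (hr k).1.le]
  exact (hr k).2

/-- every bounded analytic function on the disc has boundary values -/
theorem exists_Hinf {F : ℂ → ℂ} (hF : AnalyticOnNhd ℂ F (ball 0 1)) {C : ℝ}
    (hC : ∀ z ∈ ball (0 : ℂ) 1, ‖F z‖ ≤ C) :
    ∃ f ∈ Hinf, (∀ᵐ t ∂mC, ‖f t‖ ≤ C) ∧ ∀ z ∈ ball (0 : ℂ) 1, ext f z = F z := by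
  set a : ℕ → ℂ := fun n => (n.factorial : ℂ)⁻¹ * iteratedDeriv n F 0 with ha
  have hs : ∀ z : ℂ, ‖z‖ < 1 → HasSum (fun n : ℕ => a n * z ^ n) (F z) := by
    intro z hz
    have hz' : z ∈ ball (0 : ℂ) 1 := by rwa [mem_ball_zero_iff]
    have h := Complex.hasSum_taylorSeries_on_ball hF.differentiableOn hz'
    have h2 : ∀ n : ℕ, (n.factorial : ℂ)⁻¹ • (z - 0) ^ n • iteratedDeriv n F 0 = a n * z ^ n := by
      intro n
      rw [ha, sub_zero, smul_eq_mul, smul_eq_mul]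
      ring
    simpa only [h2] using h
  have hsq := sq_sum_le hs hF.continuousOn hC
  set b : ℤ → ℂ := fun i => if 0 ≤ i then a i.toNat else 0 with hb
  have hbl : Memℓp b 2 := by
    refine memℓp_gen' (C := C ^ 2) fun s => ?_
    obtain ⟨N, hN⟩ : ∃ N : ℕ, ∀ i ∈ s, i.toNat < N := by
      refine ⟨s.sup (fun i => i.toNat) + 1, fun i hi => ?_⟩
      exact Nat.lt_succ_of_le (Finset.le_sup (f := fun i : ℤ => i.toNat) hi)
    refine le_trans ?_ (hsq N)
    have h1 : ∑ i ∈ s, ‖b i‖ ^ (2 : ENNReal).toReal = ∑ i ∈ s with 0 ≤ i, ‖a i.toNat‖ ^ 2 := by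
      rw [Finset.sum_filter]
      refine Finset.sum_congr rfl fun i _ => ?_
      simp only [hb]
      split_ifs with h0
      · simp
      · simp
    rw [h1]
    have h2 : ∑ i ∈ s with 0 ≤ i, ‖a i.toNat‖ ^ 2 =
        ∑ n ∈ (s.filter (fun i => 0 ≤ i)).image Int.toNat, ‖a n‖ ^ 2 := by
      rw [Finset.sum_image]
      intro i hi j hj hij
      have hi' := (Finset.mem_filter.1 (Finset.mem_coe.1 hi)).2
      have hj' := (Finset.mem_filter.1 (Finset.mem_coe.1 hj)).2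
      omega
    rw [h2]
    refine Finset.sum_le_sum_of_subset_of_nonneg ?_ (fun _ _ _ => by positivity)
    intro n hn
    obtain ⟨i, hi, rfl⟩ := Finset.mem_image.1 hn
    exact Finset.mem_range.2 (hN i (Finset.mem_filter.1 hi).1)
  set g : Lp ℂ 2 mC := (fourierBasis (T := (1 : ℝ))).repr.symm (⟨b, hbl⟩ : lp (fun _ : ℤ => ℂ) 2)
    with hg
  have hgc : ∀ i : ℤ, fourierCoeff (g : Cir → ℂ) i = b i := by
    intro i
    rw [← fourierBasis_repr, hg, LinearIsometryEquiv.apply_symm_apply]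
  have hgi : Integrable (g : Cir → ℂ) mC := (Lp.memLp g).integrable (by norm_num)
  have hneg : ∀ n : ℤ, n < 0 → fourierCoeff (g : Cir → ℂ) n = 0 := by
    intro n hn
    rw [hgc, hb]
    simp only
    rw [if_neg (by omega)]
  have hext : ∀ z ∈ ball (0 : ℂ) 1, ext (g : Cir → ℂ) z = F z := by
    intro z hz
    rw [mem_ball_zero_iff] at hz
    have h1 := ext_hasSum hgi hneg hz
    have h2 : ∀ n : ℕ, fourierCoeff (g : Cir → ℂ) n * z ^ n = a n * z ^ n := by
      intro n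
      rw [hgc, hb]
      simp
    simp only [h2] at h1
    exact h1.unique (hs z hz)
  have hbd : ∀ᵐ t ∂mC, ‖(g : Cir → ℂ) t‖ ≤ C :=
    HinB.norm_le_aux hgi fun z hz => by rw [hext z hz]; exact hC z hz
  exact ⟨g, ⟨memLp_top_of_bound hgi.aestronglyMeasurable C hbd, hneg⟩, hbd, hext⟩

/-- a function in `H^∞` whose extension has norm at most `C` is bounded by `C` -/
theorem Hinf.norm_le {f : Cir → ℂ} (hf : f ∈ Hinf) {C : ℝ}
    (hC : ∀ z ∈ ball (0 : ℂ) 1, ‖ext f z‖ ≤ C) : ∀ᵐ t ∂mC, ‖f t‖ ≤ C :=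
  HinB.norm_le_aux (Hinf.int hf) hC

end

end Pool.Agent.Helper59.DGA
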