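import Pool.Agent.Helper59.DG.KerA

/-! The algebra of bounded analytic functions. -/

set_option autoImplicit false

namespace Pool.Agent.Helper59.DGA

open MeasureTheory AddCircle Metric Filter Topology

noncomputable section

namespace HinA

theorem fourier_eq (n : ℤ) (t : Cir) : (fourier n t : ℂ) = e t ^ n := by
  rw [fourier_apply, toCircle_zsmul]
  simp [e]

theorem fourierCoeff_one (n : ℤ) : fourierCoeff (fun _ : Cir => (1 : ℂ)) n = if n = 0 then 1 else 0 := by
  have h := congrFun (fourierCoeff_fourier (T := (1 : ℝ)) 0) n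
  have h2 : (fun _ : Cir => (1 : ℂ)) = (fourier (0 : ℤ) : Cir → ℂ) := by
    ext t; simp
  rw [h2, h]
  by_cases hn : n = 0
  · subst hn; simp
  · simp [hn]

theorem memLp_two {f : Cir → ℂ} (hf : MemLp f ⊤ mC) : MemLp f 2 mC := hf.mono_exponent le_top

theorem fourier_mul_memLp {g : Cir → ℂ} (hg : MemLp g 2 mC) (n : ℤ) :
    MemLp (fun t => (fourier n t : ℂ) * g t) 2 mC := by
  refine hg.congr_norm ?_ (Eventually.of_forall fun t => ?_)
  · exact ((fourier n).continuous.aestronglyMeasurable).mul hg.aestronglyMeasurable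
  · rw [norm_mul, fourier_apply, Circle.norm_coe, one_mul]

theorem conv {f g : Cir → ℂ} (hf : MemLp f 2 mC) (hg : MemLp g 2 mC) (n : ℤ) :
    HasSum (fun i : ℤ => fourierCoeff f (-i) * fourierCoeff g (n + i)) (fourierCoeff (f * g) n) := by
  have hfs : MemLp (star f) 2 mC := hf.star
  have hfg := fourier_mul_memLp hg (-n)
  have h := (fourierBasis (T := (1 : ℝ))).hasSum_inner_mul_inner (hfs.toLp) (hfg.toLp)
  have e1 : ∀ i : ℤ, fourierCoeff ((hfs.toLp : Lp ℂ 2 mC) : Cir → ℂ) i = fourierCoeff (star f) i :=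
    fun i => congrFun (fourierCoeff_congr_ae hfs.coeFn_toLp) i
  have e2 : ∀ i : ℤ, fourierCoeff ((hfg.toLp : Lp ℂ 2 mC) : Cir → ℂ) i =
      fourierCoeff (fun t => (fourier (-n) t : ℂ) * g t) i :=
    fun i => congrFun (fourierCoeff_congr_ae hfg.coeFn_toLp) i
  have hE : ∀ i : ℤ, inner ℂ (hfs.toLp : Lp ℂ 2 mC) (fourierBasis (T := (1 : ℝ)) i) *
      inner ℂ (fourierBasis (T := (1 : ℝ)) i) (hfg.toLp : Lp ℂ 2 mC) =
      fourierCoeff f (-i) * fourierCoeff g (n + i) := by
    intro i
    rw [← fourierBasis.repr_apply_apply, fourierBasis_repr, e2]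
    rw [← inner_conj_symm, ← fourierBasis.repr_apply_apply, fourierBasis_repr, e1]
    congr 1
    · rw [fourierCoeff, fourierCoeff, ← integral_conj]
      refine integral_congr_ae (Eventually.of_forall fun t => ?_)
      simp only [smul_eq_mul, Pi.star_apply, map_mul, neg_neg]
      rw [fourier_neg]
      simp
    · rw [fourierCoeff, fourierCoeff]
      refine integral_congr_ae (Eventually.of_forall fun t => ?_)
      simp only [smul_eq_mul]
      rw [← mul_assoc, ← fourier_add]
      congr 2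
      ring_nf
  have hV : inner ℂ (hfs.toLp : Lp ℂ 2 mC) (hfg.toLp : Lp ℂ 2 mC) = fourierCoeff (f * g) n := by
    rw [L2.inner_def, fourierCoeff]
    refine integral_congr_ae ?_
    filter_upwards [hfs.coeFn_toLp, hfg.coeFn_toLp] with t h1 h2
    rw [h1, h2]
    simp only [RCLike.inner_apply', smul_eq_mul, Pi.star_apply, Pi.mul_apply]
    simp
    ring
  simp only [hE] at h
  rw [hV] at h
  exact h

/-- the power series of a Poisson integral -/
theorem ext_hasSum {f : Cir → ℂ} (hf : Integrable f mC) (hneg : ∀ n : ℤ, n < 0 → fourierCoeff f n = 0)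
    {z : ℂ} (hz : ‖z‖ < 1) : HasSum (fun n : ℕ => fourierCoeff f n * z ^ n) (ext f z) := by
  have key : ∀ t : Cir, HasSum (fun n : ℕ => ((z * starRingEnd ℂ (e t)) ^ n +
      (starRingEnd ℂ z * e t) ^ (n + 1)) * f t) ((P z t : ℂ) * f t) := by
    intro t
    refine HasSum.mul_right _ ?_
    have he : ‖e t‖ = 1 := norm_e t
    have hee : e t * starRingEnd ℂ (e t) = 1 := by
      rw [Complex.mul_conj, Complex.normSq_eq_norm_sq, he]; norm_num
    set w : ℂ := z * starRingEnd ℂ (e t) with hw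
    have hw1 : ‖w‖ < 1 := by rw [hw, norm_mul, RCLike.norm_conj, he, mul_one]; exact hz
    have hcw : starRingEnd ℂ w = starRingEnd ℂ z * e t := by rw [hw]; simp
    have h1 := hasSum_geometric_of_norm_lt_one hw1
    have hcw1 : ‖starRingEnd ℂ w‖ < 1 := by rw [RCLike.norm_conj]; exact hw1
    have h2 := (hasSum_geometric_of_norm_lt_one hcw1).mul_left (starRingEnd ℂ w)
    have h3 := h1.add h2
    rw [← hcw]
    have h5 : ∀ n : ℕ, w ^ n + starRingEnd ℂ w * starRingEnd ℂ w ^ n =
        w ^ n + starRingEnd ℂ w ^ (n + 1) := fun n => by ring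
    simp only [h5] at h3
    have hne : (1 - w) ≠ 0 := by
      intro h0
      have : w = 1 := by linear_combination -h0
      rw [this] at hw1; simp at hw1
    have hne2 : (1 - starRingEnd ℂ w) ≠ 0 := by
      intro h0
      have : starRingEnd ℂ w = 1 := by linear_combination -h0
      rw [this] at hcw1; simp at hcw1
    have hnorm : ‖e t - z‖ ^ 2 = ‖1 - w‖ ^ 2 := by
      have : e t - z = e t * (1 - w) := by
        rw [hw]; linear_combination z * hee
      rw [this, norm_mul, he, one_mul]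
    have hz2 : ‖z‖ ^ 2 = ‖w‖ ^ 2 := by
      rw [hw, norm_mul, RCLike.norm_conj, he, mul_one]
    have h6 : ((P z t : ℝ) : ℂ) = (1 - w)⁻¹ + starRingEnd ℂ w * (1 - starRingEnd ℂ w)⁻¹ := by
      unfold P
      rw [hnorm, hz2]
      push_cast
      rw [← Complex.mul_conj' (1 - w), ← Complex.mul_conj' w]
      simp only [map_sub, map_one]
      field_simp
      ring
    rw [h6]
    exact h3
  have hint : ∀ n : ℕ, Integrable (fun t => ((z * starRingEnd ℂ (e t)) ^ n +
      (starRingEnd ℂ z * e t) ^ (n + 1)) * f t) mC := by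
    intro n
    refine hf.bdd_mul (c := 2) ?_ (Eventually.of_forall fun t => ?_)
    · have := continuous_e
      fun_prop
    · have he : ‖e t‖ = 1 := norm_e t
      refine (norm_add_le _ _).trans ?_
      rw [norm_pow, norm_pow, norm_mul, norm_mul, RCLike.norm_conj, RCLike.norm_conj, he, mul_one]
      have h1 : ‖z‖ ^ n ≤ 1 := pow_le_one₀ (norm_nonneg _) hz.le
      have h2 : ‖z‖ ^ (n + 1) ≤ 1 := pow_le_one₀ (norm_nonneg _) hz.le
      linarith
  have hsum : Summable fun n : ℕ => ∫ t, ‖((z * starRingEnd ℂ (e t)) ^ n +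
      (starRingEnd ℂ z * e t) ^ (n + 1)) * f t‖ ∂mC := by
    refine Summable.of_nonneg_of_le (fun n => integral_nonneg fun t => norm_nonneg _)
      (fun n => ?_) ((summable_geometric_of_lt_one (norm_nonneg z) hz).mul_right (2 * ∫ t, ‖f t‖ ∂mC))
    rw [← mul_assoc, ← integral_const_mul]
    refine integral_mono_of_nonneg (Eventually.of_forall fun t => norm_nonneg _)
      (hf.norm.const_mul _) (Eventually.of_forall fun t => ?_)
    have he : ‖e t‖ = 1 := norm_e t
    simp only [norm_mul]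
    refine mul_le_mul_of_nonneg_right ?_ (norm_nonneg _)
    refine (norm_add_le _ _).trans ?_
    rw [norm_pow, norm_pow, norm_mul, norm_mul, RCLike.norm_conj, RCLike.norm_conj, he, mul_one]
    have h2 : ‖z‖ ^ (n + 1) ≤ ‖z‖ ^ n := pow_le_pow_of_le_one (norm_nonneg _) hz.le (by omega)
    linarith
  have h := hasSum_integral_of_summable_integral_norm hint hsum
  have h4 : (∫ t, ∑' n : ℕ, ((z * starRingEnd ℂ (e t)) ^ n +
      (starRingEnd ℂ z * e t) ^ (n + 1)) * f t ∂mC) = ext f z := by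
    unfold ext
    exact integral_congr_ae (Eventually.of_forall fun t => (key t).tsum_eq)
  rw [h4] at h
  have h7 : ∀ n : ℕ, (∫ t, ((z * starRingEnd ℂ (e t)) ^ n +
      (starRingEnd ℂ z * e t) ^ (n + 1)) * f t ∂mC) = fourierCoeff f n * z ^ n := by
    intro n
    have h5 : ∀ t : Cir, ((z * starRingEnd ℂ (e t)) ^ n + (starRingEnd ℂ z * e t) ^ (n + 1)) * f t =
        z ^ n * ((fourier (-(n : ℤ)) t : ℂ) • f t) +
          (starRingEnd ℂ z) ^ (n + 1) * ((fourier (-(-((n : ℤ) + 1))) t : ℂ) • f t) := by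
      intro t
      rw [fourier_neg, neg_neg, fourier_eq, fourier_eq, smul_eq_mul, smul_eq_mul, map_zpow₀,
        zpow_natCast, show ((n : ℤ) + 1) = ((n + 1 : ℕ) : ℤ) by push_cast; rfl, zpow_natCast,
        mul_pow, mul_pow]
      ring
    simp_rw [h5]
    rw [integral_add, integral_const_mul, integral_const_mul]
    · have h6 := hneg (-((n : ℤ) + 1)) (by omega)
      rw [fourierCoeff] at h6
      rw [h6, mul_zero, add_zero, mul_comm, fourierCoeff]
    · exact (hf.fourier_smul _).const_mul _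
    · exact (hf.fourier_smul _).const_mul _
  simp only [h7] at h
  exact h

end HinA

open HinA

theorem Hinf.int {f : Cir → ℂ} (hf : f ∈ Hinf) : Integrable f mC := hf.1.integrable le_top

theorem Hinf.const (c : ℂ) : (fun _ => c) ∈ Hinf := by
  refine ⟨memLp_const c, fun n hn => ?_⟩
  have h := fourierCoeff.const_mul (T := (1:ℝ)) (fun _ => (1:ℂ)) c n
  simp only [mul_one] at h
  rw [h, fourierCoeff_one, if_neg (by omega), mul_zero]

theorem Hinf.add {f g : Cir → ℂ} (hf : f ∈ Hinf) (hg : g ∈ Hinf) : f + g ∈ Hinf := by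
  refine ⟨hf.1.add hg.1, fun n hn => ?_⟩
  rw [fourierCoeff.add (Hinf.int hf) (Hinf.int hg), Pi.add_apply, hf.2 n hn, hg.2 n hn, add_zero]

theorem Hinf.mul {f g : Cir → ℂ} (hf : f ∈ Hinf) (hg : g ∈ Hinf) : f * g ∈ Hinf := by
  refine ⟨hg.1.mul hf.1, fun n hn => ?_⟩
  have h := conv (memLp_two hf.1) (memLp_two hg.1) n
  refine h.unique ?_
  convert hasSum_zero using 1
  ext i
  by_cases hi : 0 < i
  · rw [hf.2 (-i) (by omega), zero_mul]
  · rw [hg.2 (n + i) (by omega), mul_zero]

theorem Hinf.pow {f : Cir → ℂ} (hf : f ∈ Hinf) (n : ℕ) : f ^ n ∈ Hinf := by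
  induction n with
  | zero => rw [pow_zero]; exact Hinf.const 1
  | succ n ih => rw [pow_succ]; exact Hinf.mul ih hf

theorem Hinf.hasSum {f : Cir → ℂ} (hf : f ∈ Hinf) {z : ℂ} (hz : ‖z‖ < 1) :
    HasSum (fun n : ℕ => fourierCoeff f n * z ^ n) (ext f z) := ext_hasSum (Hinf.int hf) hf.2 hz

namespace HinA

theorem coeff_norm_le (f : Cir → ℂ) (n : ℤ) : ‖fourierCoeff f n‖ ≤ ∫ t, ‖f t‖ ∂mC := by
  refine (norm_integral_le_integral_norm _).trans (le_of_eq ?_)
  refine integral_congr_ae (Eventually.of_forall fun t => ?_)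
  simp only [norm_smul]
  rw [fourier_apply, Circle.norm_coe, one_mul]

theorem eball_one_eq : Metric.eball (0 : ℂ) 1 = ball 0 1 := by
  have h := Metric.eball_ofReal (x := (0 : ℂ)) (ε := 1)
  rwa [ENNReal.ofReal_one] at h

theorem analytic_of_hasSum {a : ℕ → ℂ} {C : ℝ} (ha : ∀ n, ‖a n‖ ≤ C) {F : ℂ → ℂ}
    (h : ∀ z : ℂ, ‖z‖ < 1 → HasSum (fun n : ℕ => a n * z ^ n) (F z)) :
    AnalyticOnNhd ℂ F (ball 0 1) := by
  have hb : HasFPowerSeriesOnBall F (FormalMultilinearSeries.ofScalars ℂ a) 0 1 := by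
    refine ⟨?_, one_pos, ?_⟩
    · have := (FormalMultilinearSeries.ofScalars ℂ a).le_radius_of_bound C (r := 1) (fun n => by
        rw [FormalMultilinearSeries.ofScalars_norm]; simpa using ha n)
      simpa using this
    · intro y hy
      have hy' : ‖y‖ < 1 := by
        rwa [eball_one_eq, mem_ball_zero_iff] at hy
      rw [zero_add, FormalMultilinearSeries.ofScalars_apply_eq']
      simpa using h y hy'
  have h2 := hb.analyticOnNhd
  have h3 : Metric.eball (0 : ℂ) 1 = ball 0 1 := eball_one_eq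
  rwa [h3] at h2

theorem summable_norm {f : Cir → ℂ} {z : ℂ} (hz : ‖z‖ < 1) :
    Summable fun n : ℕ => ‖fourierCoeff f n * z ^ n‖ := by
  refine Summable.of_nonneg_of_le (fun n => norm_nonneg _) (fun n => ?_)
    ((summable_geometric_of_lt_one (norm_nonneg z) hz).mul_left (∫ t, ‖f t‖ ∂mC))
  rw [norm_mul, norm_pow]
  exact mul_le_mul_of_nonneg_right (coeff_norm_le f n) (by positivity)

theorem coeff_mul {f g : Cir → ℂ} (hf : f ∈ Hinf) (hg : g ∈ Hinf) (n : ℕ) :
    fourierCoeff (f * g) n =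
      ∑ kl ∈ Finset.HasAntidiagonal.antidiagonal n, fourierCoeff f (kl.1 : ℤ) * fourierCoeff g (kl.2 : ℤ) := by
  have h := conv (memLp_two hf.1) (memLp_two hg.1) (n : ℤ)
  have h2 : HasSum (fun i : ℤ => fourierCoeff f (-i) * fourierCoeff g ((n : ℤ) + i))
      (∑ i ∈ (Finset.HasAntidiagonal.antidiagonal n).image (fun kl => -(kl.1 : ℤ)),
        fourierCoeff f (-i) * fourierCoeff g ((n : ℤ) + i)) := by
    refine hasSum_sum_of_ne_finset_zero fun i hi => ?_
    by_cases h1 : 0 < i
    · rw [hf.2 (-i) (by omega), zero_mul]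
    by_cases h2 : (n : ℤ) + i < 0
    · rw [hg.2 _ h2, mul_zero]
    exfalso
    apply hi
    rw [Finset.mem_image]
    refine ⟨((-i).toNat, ((n : ℤ) + i).toNat), ?_, ?_⟩
    · rw [Finset.HasAntidiagonal.mem_antidiagonal]
      omega
    · simp only
      omega
  rw [h.unique h2, Finset.sum_image]
  · refine Finset.sum_congr rfl fun kl hkl => ?_
    rw [Finset.HasAntidiagonal.mem_antidiagonal] at hkl
    rw [neg_neg]
    congr 2
    omega
  · rintro ⟨a, b⟩ h1 ⟨c, d⟩ h2 h3
    have h1' := Finset.HasAntidiagonal.mem_antidiagonal.1 (Finset.mem_coe.1 h1)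
    have h2' := Finset.HasAntidiagonal.mem_antidiagonal.1 (Finset.mem_coe.1 h2)
    simp only at h1' h2' h3
    ext <;> simp only <;> omega

end HinA

theorem Hinf.analytic {f : Cir → ℂ} (hf : f ∈ Hinf) : AnalyticOnNhd ℂ (ext f) (ball 0 1) :=
  analytic_of_hasSum (fun n => coeff_norm_le f n) (fun _ hz => Hinf.hasSum hf hz)

theorem Hinf.ext_mul {f g : Cir → ℂ} (hf : f ∈ Hinf) (hg : g ∈ Hinf) {z : ℂ} (hz : ‖z‖ < 1) :
    ext (f * g) z = ext f z * ext g z := by
  rw [← (Hinf.hasSum hf hz).tsum_eq, ← (Hinf.hasSum hg hz).tsum_eq,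
    ← (Hinf.hasSum (Hinf.mul hf hg) hz).tsum_eq,
    tsum_mul_tsum_eq_tsum_sum_antidiagonal_of_summable_norm (summable_norm hz) (summable_norm hz)]
  refine tsum_congr fun n => ?_
  rw [coeff_mul hf hg, Finset.sum_mul]
  refine Finset.sum_congr rfl fun kl hkl => ?_
  rw [Finset.HasAntidiagonal.mem_antidiagonal] at hkl
  rw [← hkl, pow_add]
  ring

theorem Hinf.ext_pow {f : Cir → ℂ} (hf : f ∈ Hinf) (n : ℕ) {z : ℂ} (hz : ‖z‖ < 1) :
    ext (f ^ n) z = ext f z ^ n := by
  induction n with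
  | zero =>
    rw [pow_zero, pow_zero]
    unfold ext
    simp only [Pi.one_apply, mul_one]
    rw [integral_complex_ofReal, integral_P hz, Complex.ofReal_one]
  | succ n ih => rw [pow_succ, pow_succ, Hinf.ext_mul (Hinf.pow hf n) hf hz, ih]

end

end Pool.Agent.Helper59.DGA
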