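import Pool.Agent.Helper59.DG.Def

/-! Poisson kernel: basic facts. -/

set_option autoImplicit false

namespace Pool.Agent.Helper59.DGA

open MeasureTheory AddCircle Metric Filter Topology

noncomputable section

theorem norm_e (t : Cir) : ‖e t‖ = 1 := by
  simp [e]

theorem continuous_e : Continuous e :=
  continuous_subtype_val.comp AddCircle.continuous_toCircle

theorem e_injective : Function.Injective e := by
  intro s t h
  exact AddCircle.injective_toCircle one_ne_zero (Subtype.ext h)

namespace KerAx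

theorem sub_ne {z : ℂ} (hz : ‖z‖ < 1) (t : Cir) : e t - z ≠ 0 := by
  intro h
  have h1 : e t = z := sub_eq_zero.mp h
  rw [← h1, norm_e] at hz
  exact lt_irrefl _ hz

theorem le_norm_sub (z : ℂ) (t : Cir) : 1 - ‖z‖ ≤ ‖e t - z‖ := by
  have h := norm_sub_norm_le (e t) z
  rwa [norm_e] at h

end KerAx

theorem continuous_P {z : ℂ} (hz : ‖z‖ < 1) : Continuous (P z) := by
  unfold P
  refine Continuous.div continuous_const ((continuous_e.sub continuous_const).norm.pow 2) ?_
  intro t
  exact pow_ne_zero 2 (norm_ne_zero_iff.mpr (KerAx.sub_ne hz t))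

theorem P_pos {z : ℂ} (hz : ‖z‖ < 1) (t : Cir) : 0 < P z t := by
  unfold P
  have h1 : 0 < ‖e t - z‖ := norm_pos_iff.mpr (KerAx.sub_ne hz t)
  have h2 : 0 < 1 - ‖z‖ ^ 2 := by nlinarith [norm_nonneg z]
  positivity

theorem P_le {z : ℂ} (hz : ‖z‖ < 1) (t : Cir) : P z t ≤ 2 / (1 - ‖z‖) := by
  unfold P
  have h1 : 0 < ‖e t - z‖ := norm_pos_iff.mpr (KerAx.sub_ne hz t)
  have h2 : 0 < 1 - ‖z‖ := by linarith
  have h3 := KerAx.le_norm_sub z t
  have h4 : (1 - ‖z‖) ^ 2 ≤ ‖e t - z‖ ^ 2 := pow_le_pow_left₀ h2.le h3 2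
  rw [div_le_div_iff₀ (by positivity) h2]
  nlinarith [norm_nonneg z]

theorem P_zero (t : Cir) : P 0 t = 1 := by
  simp [P, norm_e]

namespace KerAx

theorem mC_eq : (mC : Measure Cir) = volume := by
  have h : (volume : Measure Cir) = ENNReal.ofReal 1 • (haarAddCircle : Measure Cir) :=
    volume_eq_smul_haarAddCircle
  rw [ENNReal.ofReal_one, one_smul] at h
  exact h.symm

theorem e_coe (x : ℝ) (r : ℝ) : circleMap 0 r (2 * Real.pi * x) = (r : ℂ) * e (x : Cir) := by
  unfold e
  rw [AddCircle.toCircle_apply_mk, Circle.coe_exp, circleMap_zero]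
  simp

theorem gen {E : Type*} [NormedAddCommGroup E] [NormedSpace ℝ E] (g : ℂ → E) (r : ℝ) :
    ∫ t, g (r * e t) ∂mC = Real.circleAverage g 0 r := by
  rw [mC_eq, ← UnitAddCircle.intervalIntegral_preimage 0 (fun t : Cir => g (r * e t))]
  unfold Real.circleAverage
  have h : ∀ x : ℝ, g ((r : ℂ) * e (x : Cir)) = g (circleMap 0 r (2 * Real.pi * x)) := by
    intro x
    rw [e_coe]
  simp_rw [h]
  have hpi : (2 * Real.pi : ℝ) ≠ 0 := by positivity
  rw [intervalIntegral.integral_comp_mul_left (fun y => g (circleMap 0 r y)) hpi]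
  simp

end KerAx

theorem integral_circleAverage (g : ℂ → ℂ) (r : ℝ) :
    ∫ t, g (r * e t) ∂mC = Real.circleAverage g 0 r := KerAx.gen g r

theorem integral_circleAverage_real (g : ℂ → ℝ) (r : ℝ) :
    ∫ t, g (r * e t) ∂mC = Real.circleAverage g 0 r := KerAx.gen g r

theorem integral_P {z : ℂ} (hz : ‖z‖ < 1) : ∫ t, P z t ∂mC = 1 := by
  have h0 : InnerProductSpace.HarmonicOnNhd (fun _ : ℂ => (1 : ℝ)) (closedBall 0 1) := by
    intro x _
    exact ⟨contDiffAt_const, Filter.Eventually.of_forall (fun y => by simp)⟩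
  have h1 := InnerProductSpace.HarmonicOnNhd.circleAverage_poissonKernel_smul h0
    (mem_ball_zero_iff.mpr hz)
  rw [← integral_circleAverage_real] at h1
  refine Eq.trans ?_ h1
  refine integral_congr_ae (Eventually.of_forall fun t => ?_)
  simp [P, poissonKernel_def, norm_e]

theorem ext_congr {f g : Cir → ℂ} (h : f =ᵐ[mC] g) (z : ℂ) : ext f z = ext g z := by
  unfold ext
  refine integral_congr_ae ?_
  filter_upwards [h] with t ht
  rw [ht]

theorem ext_norm_le {f : Cir → ℂ} {C : ℝ} (h : ∀ᵐ t ∂mC, ‖f t‖ ≤ C) {z : ℂ} (hz : ‖z‖ < 1) :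
    ‖ext f z‖ ≤ C := by
  unfold ext
  have hint : Integrable (P z) mC := by
    exact (continuous_P hz).integrable_of_hasCompactSupport
      (HasCompactSupport.of_compactSpace _)
  calc ‖∫ t, (P z t : ℂ) * f t ∂mC‖ ≤ ∫ t, P z t * C ∂mC := by
        refine norm_integral_le_of_norm_le (hint.mul_const C) ?_
        filter_upwards [h] with t ht
        rw [norm_mul, Complex.norm_real, Real.norm_of_nonneg (P_pos hz t).le]
        exact mul_le_mul_of_nonneg_left ht (P_pos hz t).le
    _ = C := by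
        rw [integral_mul_const, integral_P hz, one_mul]

theorem ext_sub {f g : Cir → ℂ} (hf : Integrable f mC) (hg : Integrable g mC) {z : ℂ}
    (hz : ‖z‖ < 1) : ext (f - g) z = ext f z - ext g z := by
  have key : ∀ {h : Cir → ℂ}, Integrable h mC → Integrable (fun t => (P z t : ℂ) * h t) mC := by
    intro h hh
    refine hh.bdd_mul (c := 2 / (1 - ‖z‖)) ?_ ?_
    · exact (Complex.continuous_ofReal.comp (continuous_P hz)).aestronglyMeasurable
    · refine Eventually.of_forall fun t => ?_
      rw [Complex.norm_real, Real.norm_of_nonneg (P_pos hz t).le]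
      exact P_le hz t
  unfold ext
  rw [← integral_sub (key hf) (key hg)]
  refine integral_congr_ae (Eventually.of_forall fun t => ?_)
  simp [mul_sub]

end

end Pool.Agent.Helper59.DGA
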