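import Pool.Agent.Helper59.DG.KerA

/-! Convergence of Poisson integrals. -/

set_option autoImplicit false

namespace Pool.Agent.Helper59.DGA

open MeasureTheory AddCircle Metric Filter Topology

noncomputable section

namespace KerB

theorem norm_re {r : ℝ} (hr0 : 0 ≤ r) (hr1 : r < 1) (t : Cir) : ‖(r : ℂ) * e t‖ < 1 := by
  rw [norm_mul, norm_e, mul_one, Complex.norm_real, Real.norm_of_nonneg hr0]
  exact hr1

theorem P_symm (r : ℝ) (s t : Cir) : P (r * e t) s = P (r * e s) t := by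
  unfold P
  have h1 : ∀ a b : ℂ, ‖a‖ = 1 → ‖b‖ = 1 → ‖a - r * b‖ ^ 2 = ‖b - r * a‖ ^ 2 := by
    intro a b ha hb
    have ha2 : a.re * a.re + a.im * a.im = 1 := by
      have := Complex.sq_norm a
      rw [ha, Complex.normSq_apply] at this
      linarith
    have hb2 : b.re * b.re + b.im * b.im = 1 := by
      have := Complex.sq_norm b
      rw [hb, Complex.normSq_apply] at this
      linarith
    rw [Complex.sq_norm, Complex.sq_norm, Complex.normSq_apply, Complex.normSq_apply]
    simp only [Complex.sub_re, Complex.sub_im, Complex.mul_re, Complex.mul_im, Complex.ofReal_re,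
      Complex.ofReal_im]
    linear_combination (1 - r ^ 2) * ha2 - (1 - r ^ 2) * hb2
  rw [h1 _ _ (norm_e s) (norm_e t), norm_mul, norm_mul, norm_e, norm_e]

theorem P_measurable (r : ℝ) : Measurable (fun p : Cir × Cir => P (r * e p.1) p.2) := by
  have he : Measurable e := continuous_e.measurable
  unfold P
  fun_prop

theorem ker_integrable {f : Cir → ℂ} (hf : Integrable f mC) {r : ℝ} (hr0 : 0 ≤ r) (hr1 : r < 1) :
    Integrable (fun p : Cir × Cir => (P (r * e p.1) p.2 : ℂ) * f p.2) (mC.prod mC) := by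
  refine Integrable.bdd_mul (c := 2 / (1 - r)) (hf.comp_snd mC) ?_ ?_
  · exact (Complex.measurable_ofReal.comp (P_measurable r)).aestronglyMeasurable
  · refine Eventually.of_forall (fun p => ?_)
    have h := norm_re hr0 hr1 p.1
    rw [Complex.norm_real, Real.norm_of_nonneg (P_pos h p.2).le]
    have h2 := P_le h p.2
    rwa [norm_mul, norm_e, mul_one, Complex.norm_real, Real.norm_of_nonneg hr0] at h2

theorem ext_integrable {f : Cir → ℂ} (hf : Integrable f mC) {r : ℝ} (hr0 : 0 ≤ r) (hr1 : r < 1) :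
    Integrable (fun t => ext f (r * e t)) mC :=
  (ker_integrable hf hr0 hr1).integral_prod_left

theorem ext_contr {f : Cir → ℂ} (hf : Integrable f mC) {r : ℝ} (hr0 : 0 ≤ r) (hr1 : r < 1) :
    ∫ t, ‖ext f (r * e t)‖ ∂mC ≤ ∫ t, ‖f t‖ ∂mC := by
  have hk := ker_integrable hf hr0 hr1
  calc ∫ t, ‖ext f (r * e t)‖ ∂mC
      ≤ ∫ t, ∫ s, ‖(P (r * e t) s : ℂ) * f s‖ ∂mC ∂mC := by
        apply integral_mono_of_nonneg (Eventually.of_forall (fun t => norm_nonneg _))
        · exact hk.norm.integral_prod_left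
        · exact Eventually.of_forall (fun t => norm_integral_le_integral_norm _)
    _ = ∫ s, ∫ t, ‖(P (r * e t) s : ℂ) * f s‖ ∂mC ∂mC :=
        integral_integral_swap hk.norm
    _ = ∫ s, ‖f s‖ ∂mC := by
        refine integral_congr_ae (Eventually.of_forall (fun s => ?_))
        show ∫ t, ‖(P (r * e t) s : ℂ) * f s‖ ∂mC = ‖f s‖
        have h1 : ∀ t, ‖(P (r * e t) s : ℂ) * f s‖ = P (r * e s) t * ‖f s‖ := by
          intro t
          rw [norm_mul, Complex.norm_real, P_symm,
            Real.norm_of_nonneg (P_pos (norm_re hr0 hr1 s) t).le]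
        simp_rw [h1]
        rw [integral_mul_const, integral_P (norm_re hr0 hr1 s), one_mul]

/-- the Poisson integral of a monomial -/
theorem ext_pow (n : ℕ) {z : ℂ} (hz : ‖z‖ < 1) : ext (fun t => e t ^ n) z = z ^ n := by
  have h1 : DiffContOnCl ℂ (fun w : ℂ => w ^ n) (ball 0 1) :=
    (differentiable_id.pow n).diffContOnCl
  have h2 := h1.circleAverage_poissonKernel_smul (w := z) (by simpa using hz)
  have h3 := integral_circleAverage (poissonKernel 0 z • fun w : ℂ => w ^ n) 1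
  rw [h2] at h3
  rw [← h3]
  unfold ext
  refine integral_congr_ae (Eventually.of_forall (fun t => ?_))
  simp only [Complex.ofReal_one, one_mul, Pi.smul_apply', poissonKernel, sub_zero, norm_e,
    Complex.real_smul, P]
  norm_num

theorem ext_star (f : Cir → ℂ) (z : ℂ) :
    ext (fun t => starRingEnd ℂ (f t)) z = starRingEnd ℂ (ext f z) := by
  unfold ext
  rw [← integral_conj]
  refine integral_congr_ae (Eventually.of_forall (fun t => ?_))
  simp

theorem ext_fourier (n : ℤ) {r : ℝ} (hr0 : 0 ≤ r) (hr1 : r < 1) (t : Cir) :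
    ext (fun s => (fourier n s : ℂ)) (r * e t) = r ^ n.natAbs * fourier n t := by
  have hpos : ∀ (m : ℕ) (s : Cir), (fourier (m : ℤ) s : ℂ) = e s ^ m := by
    intro m s
    rw [fourier_apply, natCast_zsmul, toCircle_nsmul]
    rfl
  obtain ⟨m, rfl | rfl⟩ := n.eq_nat_or_neg
  · simp_rw [hpos]
    rw [ext_pow _ (norm_re hr0 hr1 t), mul_pow, Int.natAbs_natCast]
  · simp_rw [fourier_neg, hpos]
    rw [ext_star, ext_pow _ (norm_re hr0 hr1 t), mul_pow, Int.natAbs_neg, Int.natAbs_natCast]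
    simp

/-- the distance -/
def N (f : Cir → ℂ) (r : ℝ) : ℝ := ∫ t, ‖ext f (r * e t) - f t‖ ∂mC

theorem N_congr {f g : Cir → ℂ} (h : f =ᵐ[mC] g) (r : ℝ) : N f r = N g r := by
  unfold N
  apply integral_congr_ae
  filter_upwards [h] with t ht
  rw [ext_congr h, ht]

theorem N_nonneg (f : Cir → ℂ) (r : ℝ) : 0 ≤ N f r := integral_nonneg (fun _ => norm_nonneg _)

theorem ext_add' {f g : Cir → ℂ} (hf : Integrable f mC) (hg : Integrable g mC) {z : ℂ}
    (hz : ‖z‖ < 1) : ext (f + g) z = ext f z + ext g z := by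
  have h := ext_sub (hf.add hg) hg hz
  rw [add_sub_cancel_right] at h
  rw [h]
  ring

theorem ext_smul' (c : ℂ) (f : Cir → ℂ) (z : ℂ) : ext (c • f) z = c * ext f z := by
  unfold ext
  rw [← integral_const_mul]
  refine integral_congr_ae (Eventually.of_forall (fun t => ?_))
  simp only [Pi.smul_apply, smul_eq_mul]
  ring

theorem N_add {f g : Cir → ℂ} (hf : Integrable f mC) (hg : Integrable g mC) {r : ℝ}
    (hr0 : 0 ≤ r) (hr1 : r < 1) : N (f + g) r ≤ N f r + N g r := by
  unfold N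
  have h1 : Integrable (fun t => ‖ext f (r * e t) - f t‖) mC :=
    ((ext_integrable hf hr0 hr1).sub hf).norm
  have h2 : Integrable (fun t => ‖ext g (r * e t) - g t‖) mC :=
    ((ext_integrable hg hr0 hr1).sub hg).norm
  rw [← integral_add h1 h2]
  apply integral_mono_of_nonneg (Eventually.of_forall (fun t => norm_nonneg _)) (h1.add h2)
  refine Eventually.of_forall (fun t => ?_)
  show ‖ext (f + g) (r * e t) - (f + g) t‖ ≤ ‖ext f (r * e t) - f t‖ + ‖ext g (r * e t) - g t‖
  rw [ext_add' hf hg (norm_re hr0 hr1 t)]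
  refine (le_of_eq ?_).trans (norm_add_le _ _)
  congr 1
  simp only [Pi.add_apply]
  ring

theorem N_smul (c : ℂ) (f : Cir → ℂ) (r : ℝ) : N (c • f) r = ‖c‖ * N f r := by
  unfold N
  rw [← integral_const_mul]
  refine integral_congr_ae (Eventually.of_forall (fun t => ?_))
  show ‖ext (c • f) (r * e t) - (c • f) t‖ = ‖c‖ * ‖ext f (r * e t) - f t‖
  rw [ext_smul', ← norm_mul, Pi.smul_apply, smul_eq_mul]
  congr 1
  ring

theorem N_le {f : Cir → ℂ} (hf : Integrable f mC) {r : ℝ}
    (hr0 : 0 ≤ r) (hr1 : r < 1) : N f r ≤ 2 * ∫ t, ‖f t‖ ∂mC := by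
  unfold N
  have h1 : Integrable (fun t => ‖ext f (r * e t)‖) mC := (ext_integrable hf hr0 hr1).norm
  have h3 : ∫ t, ‖ext f (r * e t) - f t‖ ∂mC ≤ ∫ t, (‖ext f (r * e t)‖ + ‖f t‖) ∂mC := by
    apply integral_mono_of_nonneg (Eventually.of_forall (fun t => norm_nonneg _)) (h1.add hf.norm)
    exact Eventually.of_forall (fun t => norm_sub_le _ _)
  rw [integral_add h1 hf.norm] at h3
  have h4 := ext_contr hf hr0 hr1
  linarith

theorem ev_Ico : ∀ᶠ r in 𝓝[<] (1 : ℝ), 0 ≤ r ∧ r < 1 := by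
  have h : Set.Ioo (0 : ℝ) 1 ∈ 𝓝[<] (1 : ℝ) := Ioo_mem_nhdsLT (by norm_num)
  filter_upwards [h] with r hr
  exact ⟨hr.1.le, hr.2⟩

theorem tendsto_fourier (n : ℤ) :
    Tendsto (N (fun s => (fourier n s : ℂ))) (𝓝[<] 1) (𝓝 0) := by
  have h1 : ∀ᶠ r in 𝓝[<] (1 : ℝ), |r ^ n.natAbs - 1| = N (fun s => (fourier n s : ℂ)) r := by
    filter_upwards [ev_Ico] with r hr
    unfold N
    have : ∀ t : Cir, ‖ext (fun s => (fourier n s : ℂ)) (r * e t) - fourier n t‖ =
        |r ^ n.natAbs - 1| := by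
      intro t
      rw [ext_fourier n hr.1 hr.2]
      have h2 : (r : ℂ) ^ n.natAbs * fourier n t - fourier n t =
          ((r ^ n.natAbs - 1 : ℝ) : ℂ) * fourier n t := by
        push_cast
        ring
      have h3 : ‖(fourier n t : ℂ)‖ = 1 := by
        rw [fourier_apply]
        exact Circle.norm_coe _
      rw [h2, norm_mul, h3, mul_one, Complex.norm_real, Real.norm_eq_abs]
    simp_rw [this]
    simp
  refine Tendsto.congr' h1 ?_
  have h2 : Tendsto (fun r : ℝ => |r ^ n.natAbs - 1|) (𝓝 1) (𝓝 |(1 : ℝ) ^ n.natAbs - 1|) :=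
    (((continuous_id.pow _).sub continuous_const).abs).tendsto 1
  rw [one_pow, sub_self, abs_zero] at h2
  exact h2.mono_left nhdsWithin_le_nhds

theorem int_Lp (F : Lp ℂ 1 mC) : Integrable (F : Cir → ℂ) mC := L1.integrable_coeFn F

/-- the submodule of good elements -/
def good : Submodule ℂ (Lp ℂ 1 mC) where
  carrier := {F | Tendsto (N F) (𝓝[<] 1) (𝓝 0)}
  add_mem' := by
    intro F G hF hG
    have h := hF.add hG
    rw [add_zero] at h
    refine squeeze_zero' (Eventually.of_forall (fun r => N_nonneg _ r)) ?_ h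
    filter_upwards [ev_Ico] with r hr
    rw [N_congr (Lp.coeFn_add F G)]
    exact N_add (int_Lp F) (int_Lp G) hr.1 hr.2
  zero_mem' := by
    refine squeeze_zero' (Eventually.of_forall (fun r => N_nonneg _ r)) ?_ tendsto_const_nhds
    filter_upwards [ev_Ico] with r hr
    refine (N_le (int_Lp 0) hr.1 hr.2).trans ?_
    have : ∫ t, ‖((0 : Lp ℂ 1 mC) : Cir → ℂ) t‖ ∂mC = 0 := by
      rw [integral_congr_ae (g := fun _ => (0 : ℝ)), integral_zero]
      filter_upwards [Lp.coeFn_zero ℂ 1 mC] with t ht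
      rw [ht]
      simp
    rw [this, mul_zero]
  smul_mem' := by
    intro c F hF
    have h := hF.const_mul ‖c‖
    rw [mul_zero] at h
    refine h.congr (fun r => ?_)
    rw [N_congr (Lp.coeFn_smul c F), N_smul]

theorem good_top : good = ⊤ := by
  have hcl : IsClosed (good : Set (Lp ℂ 1 mC)) := by
    rw [← isSeqClosed_iff_isClosed]
    intro G F hG hF
    show Tendsto (N F) (𝓝[<] 1) (𝓝 0)
    rw [Metric.tendsto_nhds]
    intro δ hδ
    obtain ⟨k, hk⟩ := ((Metric.tendsto_atTop.1 hF) (δ / 4) (by positivity))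
    have hk' := hk k le_rfl
    have hGk : Tendsto (N (G k)) (𝓝[<] 1) (𝓝 0) := hG k
    have h3 := (Metric.tendsto_nhds.1 hGk) (δ / 4) (by positivity)
    filter_upwards [ev_Ico, h3] with r hr h4
    have h5 : ∫ t, ‖((F - G k : Lp ℂ 1 mC) : Cir → ℂ) t‖ ∂mC < δ / 4 := by
      rw [← L1.norm_eq_integral_norm, ← dist_eq_norm, dist_comm]
      exact hk'
    have h6 : N F r ≤ N (F - G k : Lp ℂ 1 mC) r + N (G k) r := by
      have h7 : (F : Cir → ℂ) =ᵐ[mC] ((F - G k : Lp ℂ 1 mC) : Cir → ℂ) + (G k : Cir → ℂ) := by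
        filter_upwards [Lp.coeFn_sub F (G k)] with t ht
        rw [Pi.add_apply, ht]
        simp
      rw [N_congr h7]
      exact N_add (int_Lp _) (int_Lp _) hr.1 hr.2
    have h8 := N_le (int_Lp (F - G k)) hr.1 hr.2
    rw [Real.dist_eq, sub_zero, abs_of_nonneg (N_nonneg _ _)] at h4 ⊢
    linarith
  have h1 : Submodule.span ℂ (Set.range (fourierLp (T := 1) 1)) ≤ good := by
    rw [Submodule.span_le]
    rintro _ ⟨n, rfl⟩
    show Tendsto (N _) (𝓝[<] 1) (𝓝 0)
    refine (tendsto_fourier n).congr (fun r => ?_)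
    exact (N_congr (coeFn_fourierLp 1 n) r).symm
  have h2 : (Submodule.span ℂ (Set.range (fourierLp (T := 1) 1))).topologicalClosure ≤ good :=
    Submodule.topologicalClosure_minimal _ h1 hcl
  have h3 := span_fourierLp_closure_eq_top (T := 1) (p := 1) ENNReal.one_ne_top
  rw [h3] at h2
  exact top_le_iff.1 h2

end KerB

open KerB in
/-- convergence of the Poisson integral in the mean -/
theorem ext_tendsto {f : Cir → ℂ} (hf : Integrable f mC) :
    Tendsto (fun r : ℝ => ∫ t, ‖ext f (r * e t) - f t‖ ∂mC) (𝓝[<] 1) (𝓝 0) := by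
  have h1 : (hf.toL1 f) ∈ good := by rw [good_top]; exact Submodule.mem_top
  have h2 : Tendsto (N (hf.toL1 f)) (𝓝[<] 1) (𝓝 0) := h1
  exact h2.congr (fun r => N_congr (hf.coeFn_toL1) r)

open KerB in
/-- radial convergence along a common sequence -/
theorem exists_seq {f g : Cir → ℂ} (hf : Integrable f mC) (hg : Integrable g mC) :
    ∃ r : ℕ → ℝ, (∀ k, 0 < r k ∧ r k < 1) ∧ Tendsto r atTop (𝓝 1) ∧
      (∀ᵐ t ∂mC, Tendsto (fun k => ext f (r k * e t)) atTop (𝓝 (f t))) ∧
      ∀ᵐ t ∂mC, Tendsto (fun k => ext g (r k * e t)) atTop (𝓝 (g t)) := by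
  -- a subsequence for one function
  have key : ∀ (h : Cir → ℂ), Integrable h mC → ∀ r : ℕ → ℝ, (∀ k, 0 < r k ∧ r k < 1) →
      Tendsto r atTop (𝓝 1) → ∃ ns : ℕ → ℕ, StrictMono ns ∧
        ∀ᵐ t ∂mC, Tendsto (fun k => ext h (r (ns k) * e t)) atTop (𝓝 (h t)) := by
    intro h hh r hr hr1
    have h1 : TendstoInMeasure mC (fun k t => ext h (r k * e t)) atTop h := by
      refine tendstoInMeasure_of_tendsto_eLpNorm (p := 1) one_ne_zero
        (fun k => (ext_integrable hh (hr k).1.le (hr k).2).aestronglyMeasurable)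
        hh.aestronglyMeasurable ?_
      have h2 : Tendsto r atTop (𝓝[<] 1) :=
        tendsto_nhdsWithin_of_tendsto_nhds_of_eventually_within _ hr1
          (Eventually.of_forall (fun k => (hr k).2))
      have h3 := (ext_tendsto hh).comp h2
      have h4 := (ENNReal.continuous_ofReal.tendsto 0).comp h3
      rw [ENNReal.ofReal_zero] at h4
      refine h4.congr (fun k => ?_)
      have h5 : Integrable (fun t => ext h (r k * e t) - h t) mC :=
        (ext_integrable hh (hr k).1.le (hr k).2).sub hh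
      rw [eLpNorm_one_eq_lintegral_enorm]
      exact ofReal_integral_norm_eq_lintegral_enorm h5
    exact h1.exists_seq_tendsto_ae
  obtain ⟨u, hu⟩ : ∃ u : ℕ → ℝ, u = fun k : ℕ => 1 - 1 / ((k : ℝ) + 2) := ⟨_, rfl⟩
  have hu1 : ∀ k, 0 < u k ∧ u k < 1 := by
    intro k
    rw [hu]
    have hk : (0 : ℝ) ≤ k := Nat.cast_nonneg k
    have h2 : (0 : ℝ) < 1 / ((k : ℝ) + 2) := by positivity
    have h3 : 1 / ((k : ℝ) + 2) < 1 := by
      rw [div_lt_one (by positivity)]
      linarith
    constructor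
    · show 0 < 1 - 1 / ((k : ℝ) + 2)
      linarith
    · show 1 - 1 / ((k : ℝ) + 2) < 1
      linarith
  have hu2 : Tendsto u atTop (𝓝 1) := by
    rw [hu]
    have h1 : Tendsto (fun k : ℕ => (k : ℝ) + 2) atTop atTop :=
      tendsto_atTop_add_const_right _ _ tendsto_natCast_atTop_atTop
    have h2 := (h1.inv_tendsto_atTop).const_sub 1
    simp only [sub_zero, Pi.inv_apply] at h2
    simpa using h2
  obtain ⟨ns, hns, h1⟩ := key f hf u hu1 hu2
  obtain ⟨ms, hms, h2⟩ := key g hg (u ∘ ns) (fun k => hu1 _) (hu2.comp hns.tendsto_atTop)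
  refine ⟨fun k => u (ns (ms k)), fun k => hu1 _,
    hu2.comp (hns.tendsto_atTop.comp hms.tendsto_atTop), ?_, h2⟩
  filter_upwards [h1] with t ht
  exact ht.comp hms.tendsto_atTop

end

end Pool.Agent.Helper59.DGA
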