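import Pool.Agent.Helper59.DG.Def

/-! The Littlewood-Paley identity. -/

set_option autoImplicit false

namespace Pool.Agent.Helper59.DGA

open MeasureTheory AddCircle Metric Filter Topology

noncomputable section

/-- the area integral with weight `4 s log (r / s)` -/
def LL {E : Type} [NormedAddCommGroup E] [NormedSpace ℝ E] (r : ℝ) (ψ : ℂ → E) : E :=
  ∫ s in (0 : ℝ)..r, (4 * s * Real.log (r / s)) • Real.circleAverage ψ 0 s

namespace LPaux

/-- the weight is continuous -/
theorem weight_cont {r : ℝ} (hr : 0 < r) : Continuous fun s : ℝ => 4 * s * Real.log (r / s) := by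
  have : (fun s : ℝ => 4 * s * Real.log (r / s)) =
      fun s : ℝ => 4 * (s * Real.log r - s * Real.log s) := by
    funext s
    rcases eq_or_ne s 0 with h | h
    · simp [h]
    · rw [Real.log_div hr.ne' h]; ring
  rw [this]
  have h := Real.continuous_mul_log
  fun_prop

theorem weight_nonneg {r s : ℝ} (_hr : 0 < r) (hs : s ∈ Set.Icc 0 r) :
    0 ≤ 4 * s * Real.log (r / s) := by
  rcases eq_or_lt_of_le hs.1 with h | h
  · simp [← h]
  · have : 0 ≤ Real.log (r / s) := Real.log_nonneg (by rw [le_div_iff₀ h]; linarith [hs.2])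
    positivity

theorem avg_cont {E : Type} [NormedAddCommGroup E] [NormedSpace ℝ E] {r : ℝ}
    {ψ : ℂ → E} (hψ : ContinuousOn ψ (closedBall 0 r)) :
    ContinuousOn (Real.circleAverage ψ 0) (Set.Icc 0 r) := by
  apply Real.ContinuousOn.circleAverage
  · apply hψ.mono
    intro z hz
    simpa using hz.2
  · intro x hx; exact hx.1

theorem int_avg {E : Type} [NormedAddCommGroup E] [NormedSpace ℝ E] {r : ℝ} (hr : 0 < r)
    {ψ : ℂ → E} (hψ : ContinuousOn ψ (closedBall 0 r)) :
    IntervalIntegrable (fun s => (4 * s * Real.log (r / s)) • Real.circleAverage ψ 0 s)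
      volume 0 r := by
  apply ContinuousOn.intervalIntegrable
  rw [Set.uIcc_of_le hr.le]
  exact ((weight_cont hr).continuousOn).smul (avg_cont hψ)

theorem circ_int {E : Type} [NormedAddCommGroup E] [NormedSpace ℝ E] {r s : ℝ}
    (hs : s ∈ Set.Icc 0 r)
    {ψ : ℂ → E} (hψ : ContinuousOn ψ (closedBall 0 r)) : CircleIntegrable ψ 0 s := by
  apply ContinuousOn.circleIntegrable hs.1
  apply hψ.mono
  exact sphere_subset_closedBall.trans (closedBall_subset_closedBall hs.2)

end LPaux

open LPaux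

theorem LL_norm_le {r : ℝ} (hr : 0 < r) {ψ : ℂ → ℂ} (hψ : ContinuousOn ψ (closedBall 0 r)) :
    ‖LL r ψ‖ ≤ LL r (fun z => ‖ψ z‖) := by
  unfold LL
  apply intervalIntegral.norm_integral_le_of_norm_le hr.le
  · filter_upwards with s hs
    have hs' : s ∈ Set.Icc 0 r := ⟨hs.1.le, hs.2⟩
    rw [norm_smul, Real.norm_of_nonneg (weight_nonneg hr hs'), smul_eq_mul]
    apply mul_le_mul_of_nonneg_left _ (weight_nonneg hr hs')
    unfold Real.circleAverage
    rw [norm_smul, smul_eq_mul, Real.norm_of_nonneg (by positivity)]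
    apply mul_le_mul_of_nonneg_left _ (by positivity)
    exact intervalIntegral.norm_integral_le_integral_norm (by positivity)
  · exact int_avg hr hψ.norm

theorem LL_mono {r : ℝ} (hr : 0 < r) {ψ φ : ℂ → ℝ} (hψ : ContinuousOn ψ (closedBall 0 r))
    (hφ : ContinuousOn φ (closedBall 0 r)) (h : ∀ z ∈ closedBall (0 : ℂ) r, ψ z ≤ φ z) :
    LL r ψ ≤ LL r φ := by
  unfold LL
  apply intervalIntegral.integral_mono_on hr.le (int_avg hr hψ) (int_avg hr hφ)
  intro s hs
  simp only [smul_eq_mul]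
  apply mul_le_mul_of_nonneg_left _ (weight_nonneg hr hs)
  apply Real.circleAverage_mono (circ_int hs hψ) (circ_int hs hφ)
  intro z hz
  apply h
  rw [abs_of_nonneg hs.1] at hz
  exact (sphere_subset_closedBall.trans (closedBall_subset_closedBall hs.2)) hz

theorem LPaux.LL_add_gen {E : Type} [NormedAddCommGroup E] [NormedSpace ℝ E] {r : ℝ} (hr : 0 < r)
    {ψ φ : ℂ → E} (hψ : ContinuousOn ψ (closedBall 0 r))
    (hφ : ContinuousOn φ (closedBall 0 r)) :
    LL r (fun z => ψ z + φ z) = LL r ψ + LL r φ := by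
  unfold LL
  rw [← intervalIntegral.integral_add (int_avg hr hψ) (int_avg hr hφ)]
  apply intervalIntegral.integral_congr
  intro s hs
  rw [Set.uIcc_of_le hr.le] at hs
  simp only
  rw [Real.circleAverage_fun_add (circ_int hs hψ) (circ_int hs hφ), smul_add]

theorem LL_add {r : ℝ} (hr : 0 < r) {ψ φ : ℂ → ℝ} (hψ : ContinuousOn ψ (closedBall 0 r))
    (hφ : ContinuousOn φ (closedBall 0 r)) :
    LL r (fun z => ψ z + φ z) = LL r ψ + LL r φ := LL_add_gen hr hψ hφ

theorem LL_add_complex {r : ℝ} (hr : 0 < r) {ψ φ : ℂ → ℂ} (hψ : ContinuousOn ψ (closedBall 0 r))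
    (hφ : ContinuousOn φ (closedBall 0 r)) :
    LL r (fun z => ψ z + φ z) = LL r ψ + LL r φ := LL_add_gen hr hψ hφ

theorem LL_const_mul {r : ℝ} (c : ℝ) (ψ : ℂ → ℝ) :
    LL r (fun z => c * ψ z) = c * LL r ψ := by
  unfold LL
  rw [← intervalIntegral.integral_const_mul]
  apply intervalIntegral.integral_congr
  intro s _
  have : Real.circleAverage (fun z => c * ψ z) 0 s = c * Real.circleAverage ψ 0 s := by
    have := Real.circleAverage_fun_smul (c := (0 : ℂ)) (R := s) (a := c) (f := ψ)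
    simpa [smul_eq_mul] using this
  simp only [smul_eq_mul, this]
  ring


namespace LPaux

/-- `∫₀ʳ 4 s log (r / s) s^(2 n) ds = r^(2 n + 2) / (n + 1)²` -/
theorem int_weight {r : ℝ} (hr : 0 < r) (n : ℕ) :
    ∫ s in (0 : ℝ)..r, (4 * s * Real.log (r / s)) * s ^ (2 * n) = r ^ (2 * n + 2) / (n + 1) ^ 2 := by
  have hn : (n : ℝ) + 1 ≠ 0 := by positivity
  have key := intervalIntegral.integral_eq_sub_of_hasDerivAt_of_le (a := 0) (b := r)
    (f := fun s : ℝ => (2 / ((n : ℝ) + 1)) * (s ^ (2 * n + 1) * (s * Real.log r - s * Real.log s)) +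
      s ^ (2 * n + 2) / (n + 1) ^ 2)
    (f' := fun s : ℝ => (4 * s * Real.log (r / s)) * s ^ (2 * n)) hr.le ?_ ?_ ?_
  · rw [key]
    simp
  · have h := Real.continuous_mul_log
    fun_prop
  · intro x hx
    have hx0 : x ≠ 0 := hx.1.ne'
    have h1 := (((hasDerivAt_id x).mul_const (Real.log r)).sub
      ((hasDerivAt_id x).mul (Real.hasDerivAt_log hx0)))
    have h2 := ((hasDerivAt_pow (2 * n + 1) x).mul h1).const_mul (2 / ((n : ℝ) + 1))
    have h3 := (hasDerivAt_pow (2 * n + 2) x).div_const (((n : ℝ) + 1) ^ 2)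
    have h4 := h2.add h3
    refine h4.congr_deriv ?_
    simp only [id, Pi.sub_apply, Pi.mul_apply]
    rw [Real.log_div hr.ne' hx0]
    push_cast
    field_simp
    ring_nf
  · apply Continuous.intervalIntegrable
    have := weight_cont hr
    fun_prop


theorem avg_monomial (s : ℝ) (m n : ℕ) :
    Real.circleAverage (fun z : ℂ => (starRingEnd ℂ z) ^ m * z ^ n) 0 s =
      if m = n then ((s : ℂ)) ^ (2 * n) else 0 := by
  unfold Real.circleAverage
  have h1 : ∀ θ : ℝ, (starRingEnd ℂ (circleMap 0 s θ)) ^ m * (circleMap 0 s θ) ^ n =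
      (s : ℂ) ^ (m + n) * Complex.exp ((((n : ℂ) - m) * Complex.I) * θ) := by
    intro θ
    simp only [circleMap, zero_add, map_mul, Complex.conj_ofReal]
    rw [← Complex.exp_conj, mul_pow, mul_pow, ← Complex.exp_nat_mul, ← Complex.exp_nat_mul]
    simp only [map_mul, Complex.conj_ofReal, Complex.conj_I]
    have : Complex.exp (((n : ℂ) - m) * Complex.I * θ) =
        Complex.exp (m * (θ * -Complex.I)) * Complex.exp (n * (θ * Complex.I)) := by
      rw [← Complex.exp_add]; congr 1; ring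
    rw [this, pow_add]; ring
  simp_rw [h1]
  rw [intervalIntegral.integral_const_mul]
  split_ifs with h
  · subst h
    simp only [sub_self, zero_mul, Complex.exp_zero, intervalIntegral.integral_const, sub_zero]
    rw [Complex.real_smul, Complex.real_smul]
    push_cast
    have : (Real.pi : ℂ) ≠ 0 := by exact_mod_cast Real.pi_ne_zero
    field_simp
    ring
  · have hc : ((n : ℂ) - m) * Complex.I ≠ 0 := by
      apply mul_ne_zero _ Complex.I_ne_zero
      rw [sub_ne_zero]
      exact_mod_cast (Ne.symm h)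
    rw [integral_exp_mul_complex hc]
    have : Complex.exp (((n : ℂ) - m) * Complex.I * ((2 * Real.pi : ℝ) : ℂ)) = 1 := by
      have := Complex.exp_int_mul_two_pi_mul_I ((n : ℤ) - m)
      rw [← this]
      congr 1
      push_cast
      ring
    rw [this]
    simp

/-- Parseval on the circle of radius `s` -/
theorem parseval {a b : ℕ → ℂ} {u v : ℂ → ℂ} {s : ℝ} (hs : 0 ≤ s)
    (ha : Summable fun n => ‖a n‖ * s ^ n) (hb : Summable fun n => ‖b n‖ * s ^ n)
    (hu : ∀ z : ℂ, ‖z‖ = s → HasSum (fun n => a n * z ^ n) (u z))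
    (hv : ∀ z : ℂ, ‖z‖ = s → HasSum (fun n => b n * z ^ n) (v z)) :
    HasSum (fun n => starRingEnd ℂ (b n) * a n * ((s : ℂ)) ^ (2 * n))
      (Real.circleAverage (fun z => starRingEnd ℂ (v z) * u z) 0 s) := by
  have hnz : ∀ θ : ℝ, ‖circleMap 0 s θ‖ = s := by intro θ; simp [abs_of_nonneg hs]
  have hprod : ∀ z : ℂ, ‖z‖ = s → HasSum (fun p : ℕ × ℕ => (starRingEnd ℂ (b p.1) *
      (starRingEnd ℂ z) ^ p.1) * (a p.2 * z ^ p.2)) (starRingEnd ℂ (v z) * u z) := by
    intro z hz
    have h1 : HasSum (fun n => starRingEnd ℂ (b n) * (starRingEnd ℂ z) ^ n)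
        (starRingEnd ℂ (v z)) := by
      have := (hv z hz).map (starRingEnd ℂ) Complex.continuous_conj
      have he : (starRingEnd ℂ : ℂ → ℂ) ∘ (fun n => b n * z ^ n) =
          fun n => starRingEnd ℂ (b n) * (starRingEnd ℂ z) ^ n := by
        funext n; simp
      rw [he] at this
      exact this
    have n1 : Summable fun n => ‖starRingEnd ℂ (b n) * (starRingEnd ℂ z) ^ n‖ := by
      refine hb.congr ?_; intro n; simp [hz]
    have n2 : Summable fun n => ‖a n * z ^ n‖ := by
      refine ha.congr ?_; intro n; simp [hz]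
    have h3 := summable_mul_of_summable_norm (f := fun n => starRingEnd ℂ (b n) *
      (starRingEnd ℂ z) ^ n) (g := fun n => a n * z ^ n) n1 n2
    exact HasSum.mul (f := fun n => starRingEnd ℂ (b n) *
      (starRingEnd ℂ z) ^ n) (g := fun n => a n * z ^ n) h1 (hu z hz) h3
  have pa : ∀ n, 0 ≤ ‖a n‖ * s ^ n := fun n => mul_nonneg (norm_nonneg _) (pow_nonneg hs n)
  have pb : ∀ n, 0 ≤ ‖b n‖ * s ^ n := fun n => mul_nonneg (norm_nonneg _) (pow_nonneg hs n)
  have hbs : Summable fun p : ℕ × ℕ => (‖b p.1‖ * s ^ p.1) * (‖a p.2‖ * s ^ p.2) :=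
    Summable.mul_of_nonneg (f := fun n => ‖b n‖ * s ^ n) (g := fun n => ‖a n‖ * s ^ n) hb ha pb pa
  have key : HasSum (fun p : ℕ × ℕ => ∫ θ in (0 : ℝ)..2 * Real.pi,
      (starRingEnd ℂ (b p.1) * (starRingEnd ℂ (circleMap 0 s θ)) ^ p.1) *
        (a p.2 * (circleMap 0 s θ) ^ p.2))
      (∫ θ in (0 : ℝ)..2 * Real.pi,
        starRingEnd ℂ (v (circleMap 0 s θ)) * u (circleMap 0 s θ)) := by
    apply intervalIntegral.hasSum_integral_of_dominated_convergence
      (fun p _ => (‖b p.1‖ * s ^ p.1) * (‖a p.2‖ * s ^ p.2))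
    · intro p
      apply Continuous.aestronglyMeasurable
      have := Complex.continuous_conj
      fun_prop
    · intro p
      filter_upwards with θ _
      simp [abs_of_nonneg hs]
    · filter_upwards with θ _
      exact hbs
    · exact intervalIntegrable_const
    · filter_upwards with θ _
      exact hprod _ (hnz θ)
  have key2 := key.const_smul ((2 * Real.pi)⁻¹ : ℝ)
  have hterm : ∀ p : ℕ × ℕ, (2 * Real.pi)⁻¹ • (∫ θ in (0 : ℝ)..2 * Real.pi,
      (starRingEnd ℂ (b p.1) * (starRingEnd ℂ (circleMap 0 s θ)) ^ p.1) *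
        (a p.2 * (circleMap 0 s θ) ^ p.2)) =
      starRingEnd ℂ (b p.1) * a p.2 * (if p.1 = p.2 then ((s : ℂ)) ^ (2 * p.2) else 0) := by
    intro p
    rw [← avg_monomial]
    unfold Real.circleAverage
    have : ∀ θ : ℝ, (starRingEnd ℂ (b p.1) * (starRingEnd ℂ (circleMap 0 s θ)) ^ p.1) *
        (a p.2 * (circleMap 0 s θ) ^ p.2) = (starRingEnd ℂ (b p.1) * a p.2) *
        ((starRingEnd ℂ (circleMap 0 s θ)) ^ p.1 * (circleMap 0 s θ) ^ p.2) := by
      intro θ; ring
    simp_rw [this]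
    rw [intervalIntegral.integral_const_mul, mul_smul_comm]
  simp_rw [hterm] at key2
  have hinj : Function.Injective (fun n : ℕ => (n, n)) := fun x y h => (Prod.mk.inj h).1
  have key3 := (hinj.hasSum_iff (f := fun p : ℕ × ℕ => starRingEnd ℂ (b p.1) * a p.2 *
    (if p.1 = p.2 then ((s : ℂ)) ^ (2 * p.2) else 0)) (a := Real.circleAverage
      (fun z => starRingEnd ℂ (v z) * u z) 0 s) ?_).2 key2
  · simpa [Function.comp_def] using key3
  · rintro ⟨m, n⟩ hmn
    have : m ≠ n := by
      rintro rfl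
      exact hmn ⟨m, rfl⟩
    simp [this]

/-- Taylor coefficients of a function analytic on the unit disc and of its derivative -/
theorem coeffs {u : ℂ → ℂ} (hu : AnalyticOnNhd ℂ u (ball 0 1)) : ∃ a : ℕ → ℂ,
    (∀ z ∈ ball (0 : ℂ) 1, HasSum (fun n => a n * z ^ n) (u z)) ∧
    (∀ z ∈ ball (0 : ℂ) 1, HasSum (fun n : ℕ => ((n : ℂ) + 1) * a (n + 1) * z ^ n)
      (deriv u z)) ∧ a 0 = u 0 := by
  refine ⟨fun n => ((n.factorial : ℂ))⁻¹ * iteratedDeriv n u 0, ?_, ?_, by simp⟩
  · intro z hz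
    have := Complex.hasSum_taylorSeries_on_ball hu.differentiableOn hz
    have he : (fun n : ℕ => ((n.factorial : ℂ))⁻¹ * iteratedDeriv n u 0 * z ^ n) =
        fun n : ℕ => ((n.factorial : ℂ))⁻¹ • (z - 0) ^ n • iteratedDeriv n u 0 := by
      funext n
      rw [smul_eq_mul, smul_eq_mul, sub_zero]
      ring
    rw [he]
    exact this
  · intro z hz
    have := Complex.hasSum_taylorSeries_on_ball hu.deriv.differentiableOn hz
    have he : (fun n : ℕ => ((n : ℂ) + 1) * ((((n + 1).factorial : ℕ) : ℂ)⁻¹ *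
        iteratedDeriv (n + 1) u 0) * z ^ n) =
        fun n : ℕ => ((n.factorial : ℂ))⁻¹ • (z - 0) ^ n • iteratedDeriv n (deriv u) 0 := by
      funext n
      rw [smul_eq_mul, smul_eq_mul, sub_zero, iteratedDeriv_succ', Nat.factorial_succ]
      have h1 : (n.factorial : ℂ) ≠ 0 := by exact_mod_cast n.factorial_ne_zero
      have h2 : (n : ℂ) + 1 ≠ 0 := by exact_mod_cast Nat.succ_ne_zero n
      push_cast
      field_simp
    rw [he]
    exact this

theorem summable_abs {a : ℕ → ℂ} {u : ℂ → ℂ}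
    (h : ∀ z ∈ ball (0 : ℂ) 1, HasSum (fun n => a n * z ^ n) (u z)) {s : ℝ} (hs : 0 ≤ s)
    (hs1 : s < 1) : Summable fun n => ‖a n‖ * s ^ n := by
  have h1 := (h (s : ℂ) (by simpa [abs_of_nonneg hs] using hs1)).summable.norm
  refine h1.congr ?_
  intro n
  simp [abs_of_nonneg hs]

end LPaux

/-- polarised Littlewood-Paley identity -/
theorem lp_identity {u v : ℂ → ℂ} (hu : AnalyticOnNhd ℂ u (ball 0 1))
    (hv : AnalyticOnNhd ℂ v (ball 0 1)) {r : ℝ} (hr : 0 < r) (hr1 : r < 1) :
    Real.circleAverage (fun z => starRingEnd ℂ (v z) * u z) 0 r =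
      starRingEnd ℂ (v 0) * u 0 + LL r (fun z => starRingEnd ℂ (deriv v z) * deriv u z) := by
  obtain ⟨a, ha, ha', ha0⟩ := coeffs hu
  obtain ⟨b, hb, hb', hb0⟩ := coeffs hv
  have hball : ∀ {s : ℝ}, s < 1 → ∀ z : ℂ, ‖z‖ = s → z ∈ ball (0 : ℂ) 1 := by
    intro s hs z hz
    simpa [hz] using hs
  have L1 := parseval hr.le (summable_abs ha hr.le hr1) (summable_abs hb hr.le hr1)
    (fun z hz => ha z (hball hr1 z hz)) (fun z hz => hb z (hball hr1 z hz))
  set c : ℕ → ℂ := fun n => starRingEnd ℂ (((n : ℂ) + 1) * b (n + 1)) *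
    (((n : ℂ) + 1) * a (n + 1)) with hc
  have sa := summable_abs ha' hr.le hr1
  have sb := summable_abs hb' hr.le hr1
  have L2 : ∀ s : ℝ, 0 < s → s ≤ r → HasSum (fun n => c n * ((s : ℂ)) ^ (2 * n))
      (Real.circleAverage (fun z => starRingEnd ℂ (deriv v z) * deriv u z) 0 s) := by
    intro s hs hsr
    have hs1 : s < 1 := lt_of_le_of_lt hsr hr1
    exact parseval hs.le (summable_abs ha' hs.le hs1) (summable_abs hb' hs.le hs1)
      (fun z hz => ha' z (hball hs1 z hz)) (fun z hz => hb' z (hball hs1 z hz))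
  have sc : Summable fun n => ‖c n‖ * r ^ (2 * n) := by
    have h1 := Summable.mul_of_nonneg (f := fun n : ℕ => ‖((n : ℂ) + 1) * b (n + 1)‖ * r ^ n)
      (g := fun n : ℕ => ‖((n : ℂ) + 1) * a (n + 1)‖ * r ^ n) sb sa
      (fun n => mul_nonneg (norm_nonneg _) (pow_nonneg hr.le n))
      (fun n => mul_nonneg (norm_nonneg _) (pow_nonneg hr.le n))
    have hinj : Function.Injective (fun n : ℕ => (n, n)) := fun x y h => (Prod.mk.inj h).1
    have h2 := h1.comp_injective hinj
    refine h2.congr ?_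
    intro n
    simp only [Function.comp_apply, hc, norm_mul, RCLike.norm_conj]
    ring
  have L3 : HasSum (fun n => ∫ s in (0 : ℝ)..r, (4 * s * Real.log (r / s)) •
      (c n * ((s : ℂ)) ^ (2 * n))) (LL r (fun z => starRingEnd ℂ (deriv v z) * deriv u z)) := by
    unfold LL
    apply intervalIntegral.hasSum_integral_of_dominated_convergence
      (fun n _ => 4 * r * (‖c n‖ * r ^ (2 * n)))
    · intro n
      apply Continuous.aestronglyMeasurable
      have := weight_cont hr
      fun_prop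
    · intro n
      filter_upwards with s hs
      rw [Set.uIoc_of_le hr.le] at hs
      have hs' : s ∈ Set.Icc 0 r := ⟨hs.1.le, hs.2⟩
      rw [norm_smul, Real.norm_of_nonneg (weight_nonneg hr hs')]
      have h1 : 4 * s * Real.log (r / s) ≤ 4 * r := by
        have := Real.log_le_self (x := r / s) (by have := hs.1; positivity)
        calc 4 * s * Real.log (r / s) ≤ 4 * s * (r / s) := by
              apply mul_le_mul_of_nonneg_left this; have := hs.1; positivity
          _ = 4 * r := by have := hs.1.ne'; field_simp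
      apply mul_le_mul h1 _ (norm_nonneg _) (by positivity)
      rw [norm_mul, norm_pow, Complex.norm_real, Real.norm_of_nonneg hs'.1]
      apply mul_le_mul_of_nonneg_left _ (norm_nonneg _)
      exact pow_le_pow_left₀ hs'.1 hs'.2 _
    · filter_upwards with s _
      exact sc.mul_left _
    · exact intervalIntegrable_const
    · filter_upwards with s hs
      rw [Set.uIoc_of_le hr.le] at hs
      exact (L2 s hs.1 hs.2).const_smul _
  have L4 : ∀ n, ∫ s in (0 : ℝ)..r, (4 * s * Real.log (r / s)) •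
      (c n * ((s : ℂ)) ^ (2 * n)) =
      starRingEnd ℂ (b (n + 1)) * a (n + 1) * ((r : ℂ)) ^ (2 * (n + 1)) := by
    intro n
    have h1 : ∀ s : ℝ, (4 * s * Real.log (r / s)) • (c n * ((s : ℂ)) ^ (2 * n)) =
        c n * (((4 * s * Real.log (r / s)) * s ^ (2 * n) : ℝ) : ℂ) := by
      intro s
      rw [Complex.real_smul]
      push_cast
      ring
    simp_rw [h1]
    rw [intervalIntegral.integral_const_mul, intervalIntegral.integral_ofReal, int_weight hr]
    have hn : ((n : ℂ) + 1) ≠ 0 := by exact_mod_cast Nat.succ_ne_zero n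
    simp only [hc, map_mul, map_add, map_one, Complex.conj_natCast]
    push_cast
    field_simp
    ring
  simp_rw [L4] at L3
  have L5 := (hasSum_nat_add_iff (f := fun n => starRingEnd ℂ (b n) * a n *
    ((r : ℂ)) ^ (2 * n)) 1).1 L3
  have L6 := L1.unique L5
  rw [L6]
  simp [ha0, hb0]
  ring

theorem lp_sq {u : ℂ → ℂ} (hu : AnalyticOnNhd ℂ u (ball 0 1)) {r : ℝ} (hr : 0 < r) (hr1 : r < 1) :
    LL r (fun z => ‖deriv u z‖ ^ 2) ≤ Real.circleAverage (fun z => ‖u z‖ ^ 2) 0 r := by
  have key := lp_identity hu hu hr hr1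
  have h0 : ∀ f : ℂ → ℂ, (fun z => starRingEnd ℂ (f z) * f z) =
      fun z => ((‖f z‖ ^ 2 : ℝ) : ℂ) := by
    intro f; funext z
    rw [mul_comm, Complex.mul_conj, Complex.normSq_eq_norm_sq]
  have h1 : ∀ (g : ℂ → ℝ) (s : ℝ), Real.circleAverage (fun z => ((g z : ℝ) : ℂ)) 0 s =
      ((Real.circleAverage g 0 s : ℝ) : ℂ) := by
    intro g s
    unfold Real.circleAverage
    rw [intervalIntegral.integral_ofReal, Complex.real_smul]
    simp
  have h2 : ∀ g : ℂ → ℝ, LL r (fun z => ((g z : ℝ) : ℂ)) = ((LL r g : ℝ) : ℂ) := by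
    intro g
    unfold LL
    simp_rw [h1, Complex.real_smul, smul_eq_mul]
    rw [← intervalIntegral.integral_ofReal]
    simp
  rw [h0 u, h0 (deriv u), h1, h2] at key
  have h3 : starRingEnd ℂ (u 0) * u 0 = ((‖u 0‖ ^ 2 : ℝ) : ℂ) := congrFun (h0 u) 0
  rw [h3, ← Complex.ofReal_add, Complex.ofReal_inj] at key
  rw [key]
  have : 0 ≤ ‖u 0‖ ^ 2 := by positivity
  linarith

end

end Pool.Agent.Helper59.DGA
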