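import Pool.Agent.Helper59.DG.Ker

/-! The maximum principle for a bounded analytic function against a Poisson integral of a
singular measure. -/

set_option autoImplicit false

namespace Pool.Agent.Helper59.DGA

open MeasureTheory AddCircle Metric Filter Topology

noncomputable section

namespace MaxP

/-- the distance of the points of the circle with distant parameters is bounded below -/
theorem exists_norm_sub_ge {ρ : ℝ} (hρ : 0 < ρ) :
    ∃ η > 0, ∀ s t : Cir, ρ ≤ dist s t → η ≤ ‖e s - e t‖ := by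
  have hc : IsCompact {p : Cir × Cir | ρ ≤ dist p.1 p.2} :=
    (isClosed_le continuous_const continuous_dist).isCompact
  have hcont : Continuous fun p : Cir × Cir => ‖e p.1 - e p.2‖ :=
    ((continuous_e.comp continuous_fst).sub (continuous_e.comp continuous_snd)).norm
  rcases Set.eq_empty_or_nonempty {p : Cir × Cir | ρ ≤ dist p.1 p.2} with h | h
  · refine ⟨1, one_pos, fun s t hst => ?_⟩
    have : (s, t) ∈ {p : Cir × Cir | ρ ≤ dist p.1 p.2} := hst
    rw [h] at this
    exact this.elim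
  · obtain ⟨p, hp, hmin⟩ := hc.exists_isMinOn h hcont.continuousOn
    refine ⟨‖e p.1 - e p.2‖, ?_, fun s t hst => hmin (show (s, t) ∈ _ from hst)⟩
    rw [gt_iff_lt, norm_pos_iff, sub_ne_zero]
    intro he
    have h1 : p.1 = p.2 := e_injective he
    have h2 : ρ ≤ dist p.1 p.2 := hp
    rw [h1, dist_self] at h2
    linarith

theorem norm_mul_e {r : ℝ} (hr : 0 < r) (t : Cir) : ‖(r : ℂ) * e t‖ = r := by
  rw [norm_mul, norm_e, mul_one, Complex.norm_real, Real.norm_of_nonneg hr.le]

/-- the Poisson kernel is uniformly small away from the diagonal -/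
theorem P_le_of_dist {ρ θ : ℝ} (hρ : 0 < ρ) (hθ : 0 < θ) :
    ∃ r₀ < 1, 0 < r₀ ∧ ∀ r : ℝ, r₀ < r → r < 1 → ∀ s t : Cir, ρ ≤ dist s t →
      P (r * e t) s ≤ θ := by
  obtain ⟨η, hη, h⟩ := exists_norm_sub_ge hρ
  refine ⟨max (1 / 2) (max (1 - η / 2) (1 - θ * η ^ 2 / 8)), ?_, ?_, fun r hr hr1 s t hst => ?_⟩
  · have : 0 < θ * η ^ 2 / 8 := by positivity
    refine max_lt (by norm_num) (max_lt (by linarith) (by linarith))
  · exact lt_of_lt_of_le (by norm_num) (le_max_left _ _)
  have h0 : 0 < r := lt_trans (lt_of_lt_of_le (by norm_num) (le_max_left _ _)) hr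
  have h1 : 1 - r < η / 2 := by
    have := lt_of_le_of_lt ((le_max_left _ _).trans (le_max_right _ _)) hr
    linarith
  have h2 : 1 - r < θ * η ^ 2 / 8 := by
    have := lt_of_le_of_lt ((le_max_right _ _).trans (le_max_right _ _)) hr
    linarith
  have h3 : η / 2 ≤ ‖e s - r * e t‖ := by
    have h4 : ‖e s - e t‖ ≤ ‖e s - r * e t‖ + ‖(r : ℂ) * e t - e t‖ :=
      norm_sub_le_norm_sub_add_norm_sub _ _ _
    have h5 : ‖(r : ℂ) * e t - e t‖ = 1 - r := by
      have : (r : ℂ) * e t - e t = (((r - 1 : ℝ)) : ℂ) * e t := by push_cast; ring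
      rw [this, norm_mul, norm_e, mul_one, Complex.norm_real, Real.norm_eq_abs,
        abs_of_nonpos (by linarith)]
      ring
    have := h s t hst
    linarith
  unfold P
  rw [norm_mul_e h0]
  have h6 : 0 < ‖e s - r * e t‖ := by linarith [half_pos hη]
  rw [div_le_iff₀ (by positivity)]
  have h7 : (η / 2) ^ 2 ≤ ‖e s - r * e t‖ ^ 2 := by
    apply pow_le_pow_left₀ (by positivity) h3
  have h8 : 1 - r ^ 2 ≤ 2 * (1 - r) := by nlinarith
  calc 1 - r ^ 2 ≤ 2 * (1 - r) := h8
    _ ≤ θ * (η / 2) ^ 2 := by nlinarith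
    _ ≤ θ * ‖e s - r * e t‖ ^ 2 := by gcongr

theorem integrable_P (μ : Measure Cir) [IsFiniteMeasure μ] {z : ℂ} (hz : ‖z‖ < 1) :
    Integrable (P z) μ :=
  (continuous_P hz).integrable_of_hasCompactSupport (HasCompactSupport.of_compactSpace _)

/-- the two cases on a circle of radius close to `1` -/
theorem alternative (μ : Measure Cir) [IsFiniteMeasure μ] {K O : Set Cir} (hK : IsCompact K)
    (hμ : μ Kᶜ = 0) (hO : IsOpen O) (hKO : K ⊆ O) {θ : ℝ} (hθ : 0 < θ) :
    ∃ r₀ < 1, 0 < r₀ ∧ ∀ r : ℝ, r₀ < r → r < 1 → ∀ t : Cir,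
      PI μ (r * e t) ≤ θ ∨ 1 / 2 ≤ PI (mC.restrict O) (r * e t) := by
  obtain ⟨ρ, hρ, hρO⟩ := hK.exists_thickening_subset_open hO hKO
  have hm : 0 < (μ Set.univ).toReal + 1 := by positivity
  obtain ⟨r₁, h1, h10, H1⟩ := P_le_of_dist (ρ := ρ / 2) (θ := θ / ((μ Set.univ).toReal + 1))
    (half_pos hρ) (by positivity)
  obtain ⟨r₂, h2, h20, H2⟩ := P_le_of_dist (ρ := ρ / 2) (θ := 1 / 2) (half_pos hρ) (by norm_num)
  refine ⟨max r₁ r₂, max_lt h1 h2, lt_of_lt_of_le h10 (le_max_left _ _),
    fun r hr hr1 t => ?_⟩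
  have hr0 : 0 < r := lt_trans (lt_of_lt_of_le h10 (le_max_left _ _)) hr
  have hz : ‖(r : ℂ) * e t‖ < 1 := by rw [norm_mul_e hr0]; exact hr1
  by_cases ht : ∃ x ∈ K, dist x t < ρ / 2
  · right
    obtain ⟨x, hx, hxt⟩ := ht
    have hOc : ∀ s ∈ Oᶜ, ρ / 2 ≤ dist s t := by
      intro s hs
      by_contra hcon
      push Not at hcon
      apply hs
      apply hρO
      rw [mem_thickening_iff]
      refine ⟨x, hx, ?_⟩
      have := dist_triangle s t x
      rw [dist_comm t x] at this
      linarith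
    have e1 : ∫ s in O, P (r * e t) s ∂mC + ∫ s in Oᶜ, P (r * e t) s ∂mC = 1 := by
      rw [integral_add_compl hO.measurableSet (integrable_P _ hz), integral_P hz]
    have e2 : ∫ s in Oᶜ, P (r * e t) s ∂mC ≤ 1 / 2 := by
      have : ∫ s in Oᶜ, P (r * e t) s ∂mC ≤ ∫ s in Oᶜ, (1 / 2 : ℝ) ∂mC := by
        refine setIntegral_mono_on ?_ ?_ hO.measurableSet.compl ?_
        · exact (integrable_P _ hz).integrableOn
        · exact (integrable_const _).integrableOn
        · exact fun s hs => H2 r (lt_of_le_of_lt (le_max_right _ _) hr) hr1 s t (hOc s hs)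
      refine this.trans ?_
      rw [setIntegral_const, smul_eq_mul]
      have : mC.real Oᶜ ≤ 1 := measureReal_le_one
      nlinarith
    unfold PI
    linarith
  · left
    push Not at ht
    have : PI μ (r * e t) ≤ ∫ s, θ / ((μ Set.univ).toReal + 1) ∂μ := by
      unfold PI
      refine integral_mono_ae (integrable_P _ hz) (integrable_const _) ?_
      have : ∀ᵐ s ∂μ, s ∈ K := by
        rw [ae_iff]; exact hμ
      filter_upwards [this] with s hs
      exact H1 r (lt_of_le_of_lt (le_max_left _ _) hr) hr1 s t (ht s hs)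
    refine this.trans ?_
    rw [integral_const, smul_eq_mul]
    have h3 : μ.real Set.univ = (μ Set.univ).toReal := rfl
    rw [h3, mul_div_assoc', div_le_iff₀ hm]
    nlinarith [ENNReal.toReal_nonneg (a := μ Set.univ)]

/-- the estimate with a barrier -/
theorem barrier (μ : Measure Cir) [IsFiniteMeasure μ] {K O : Set Cir} (hK : IsCompact K)
    (hμ : μ Kᶜ = 0) (hO : IsOpen O) (hKO : K ⊆ O) {B : ℂ → ℂ}
    (hB : AnalyticOnNhd ℂ B (ball 0 1)) (hB1 : ∀ z ∈ ball (0 : ℂ) 1, ‖B z‖ ≤ 1) {c M : ℝ}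
    (hc : 0 < c) (hM : 0 < M)
    (h : ∀ z ∈ ball (0 : ℂ) 1, M ≤ PI μ z → ‖B z‖ ≤ Real.exp (-(c * M))) {θ : ℝ} (hθ : 0 < θ)
    {z₀ : ℂ} (hz₀ : z₀ ∈ ball (0 : ℂ) 1) (hz₀M : PI μ z₀ < M) :
    ‖B z₀‖ ≤ Real.exp (-(c * PI μ z₀) + 2 * c * M * PI (mC.restrict O) z₀ + c * θ) := by
  obtain ⟨r₀, hr₀, hr₀0, H⟩ := alternative μ hK hμ hO hKO hθ
  have hz₀' : ‖z₀‖ < 1 := by simpa using hz₀
  obtain ⟨r, hr, hr1⟩ := exists_between (max_lt hr₀ hz₀')
  have hrr : r₀ < r := lt_of_le_of_lt (le_max_left _ _) hr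
  have hrz : ‖z₀‖ < r := lt_of_le_of_lt (le_max_right _ _) hr
  have hr0 : 0 < r := hr₀0.trans hrr
  set A : ℂ → ℂ := fun z => c * HI μ z - (2 * c * M : ℝ) * HI (mC.restrict O) z with hA
  set Φ : ℂ → ℂ := fun z => B z * Complex.exp (A z) with hΦ
  have hdiff : DifferentiableOn ℂ Φ (ball 0 1) := by
    have h1 := hB.differentiableOn
    have h2 := (HI_analytic μ).differentiableOn
    have h3 := (HI_analytic (mC.restrict O)).differentiableOn
    exact h1.mul (((h2.const_mul _).sub (h3.const_mul _)).cexp)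
  have hnorm : ∀ z : ℂ, ‖z‖ < 1 → ‖Φ z‖ =
      ‖B z‖ * Real.exp (c * PI μ z - 2 * c * M * PI (mC.restrict O) z) := by
    intro z hz
    rw [hΦ]
    simp only [norm_mul, Complex.norm_exp, hA, Complex.sub_re, Complex.re_ofReal_mul,
      HI_re μ hz, HI_re (mC.restrict O) hz]
  set Ω : Set ℂ := ball 0 r ∩ {z | PI μ z < M} with hΩ
  have hsub : closedBall (0 : ℂ) r ⊆ ball 0 1 := closedBall_subset_ball hr1
  have hcl : closure Ω ⊆ closedBall 0 r :=
    (closure_mono Set.inter_subset_left).trans closure_ball_subset_closedBall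
  have hΩo : IsOpen Ω :=
    ((continuousOn_PI μ).mono (ball_subset_ball hr1.le)).isOpen_inter_preimage isOpen_ball
      isOpen_Iio
  have hclM : ∀ z ∈ closure Ω, PI μ z ≤ M := by
    intro z hz
    have hzb : z ∈ ball (0 : ℂ) 1 := hsub (hcl hz)
    have hcat : ContinuousAt (PI μ) z := (continuousOn_PI μ).continuousAt (isOpen_ball.mem_nhds hzb)
    have : ∃ᶠ w in 𝓝 z, PI μ w ≤ M := by
      rw [mem_closure_iff_frequently] at hz
      exact hz.mono fun w hw => le_of_lt hw.2
    exact le_of_tendsto_of_frequently hcat.tendsto this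
  have hfr : ∀ z ∈ frontier Ω, ‖Φ z‖ ≤ Real.exp (c * θ) := by
    intro z hz
    have hzc : z ∈ closure Ω := frontier_subset_closure hz
    have hzb : z ∈ ball (0 : ℂ) 1 := hsub (hcl hzc)
    have hz1 : ‖z‖ < 1 := by simpa using hzb
    have hzr : ‖z‖ ≤ r := by simpa using hcl hzc
    have hzM := hclM z hzc
    have hzn : z ∉ Ω := by
      rw [frontier, hΩo.interior_eq] at hz
      exact hz.2
    rw [hnorm z hz1]
    have hg : 0 ≤ PI (mC.restrict O) z := PI_nonneg _ hz1
    rcases lt_or_eq_of_le hzM with hlt | heq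
    · have hzr' : ‖z‖ = r := by
        by_contra hne
        apply hzn
        refine ⟨?_, hlt⟩
        simpa using lt_of_le_of_ne hzr hne
      obtain ⟨t, ht⟩ : ∃ t : Cir, z = r * e t := by
        obtain ⟨t, ht⟩ : ∃ t : Cir, e t = z / r := by
          have hw : ‖z / r‖ = 1 := by
            rw [norm_div, hzr', Complex.norm_real, Real.norm_of_nonneg hr0.le, div_self hr0.ne']
          obtain ⟨t, ht⟩ := (AddCircle.homeomorphCircle (T := (1 : ℝ)) one_ne_zero).surjective
            (⟨z / r, mem_sphere_zero_iff_norm.mpr hw⟩ : Circle)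
          refine ⟨t, ?_⟩
          rw [AddCircle.homeomorphCircle_apply] at ht
          unfold e
          rw [ht]
        refine ⟨t, ?_⟩
        rw [ht, mul_div_cancel₀]
        exact_mod_cast hr0.ne'
      rw [ht] at hz1 hg hzb ⊢
      rcases H r hrr hr1 t with h1 | h1
      · calc ‖B (r * e t)‖ * Real.exp (c * PI μ (r * e t) -
              2 * c * M * PI (mC.restrict O) (r * e t))
            ≤ 1 * Real.exp (c * θ) := by
              gcongr
              · exact hB1 _ hzb
              · have : 0 ≤ 2 * c * M * PI (mC.restrict O) (r * e t) := by positivity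
                have : c * PI μ (r * e t) ≤ c * θ := by gcongr
                linarith
          _ = Real.exp (c * θ) := one_mul _
      · rw [ht] at hlt
        calc ‖B (r * e t)‖ * Real.exp (c * PI μ (r * e t) -
              2 * c * M * PI (mC.restrict O) (r * e t))
            ≤ 1 * Real.exp (c * θ) := by
              gcongr
              · exact hB1 _ hzb
              · have h2 : 2 * c * M * (1 / 2) ≤ 2 * c * M * PI (mC.restrict O) (r * e t) := by
                  gcongr
                have h3 : c * PI μ (r * e t) ≤ c * M := by gcongr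
                have h4 : 0 < c * θ := by positivity
                linarith
          _ = Real.exp (c * θ) := one_mul _
    · have h1 := h z hzb heq.ge
      calc ‖B z‖ * Real.exp (c * PI μ z - 2 * c * M * PI (mC.restrict O) z)
          ≤ Real.exp (-(c * M)) * Real.exp (c * PI μ z - 2 * c * M * PI (mC.restrict O) z) := by
            gcongr
        _ = Real.exp (-(c * M) + (c * PI μ z - 2 * c * M * PI (mC.restrict O) z)) := by
            rw [Real.exp_add]
        _ ≤ Real.exp (c * θ) := by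
            apply Real.exp_le_exp.mpr
            rw [heq]
            have : 0 ≤ 2 * c * M * PI (mC.restrict O) z := by positivity
            have : 0 < c * θ := by positivity
            linarith
  have hbd : Bornology.IsBounded Ω := isBounded_ball.subset Set.inter_subset_left
  have hdc : DiffContOnCl ℂ Φ Ω := (hdiff.mono (hcl.trans hsub)).diffContOnCl
  have hmem : z₀ ∈ closure Ω := subset_closure ⟨by simpa using hrz, hz₀M⟩
  have hfin := Complex.norm_le_of_forall_mem_frontier_norm_le hbd hdc hfr hmem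
  rw [hnorm z₀ hz₀'] at hfin
  have : ‖B z₀‖ = ‖B z₀‖ * Real.exp (c * PI μ z₀ - 2 * c * M * PI (mC.restrict O) z₀) *
      Real.exp (-(c * PI μ z₀) + 2 * c * M * PI (mC.restrict O) z₀) := by
    rw [mul_assoc, ← Real.exp_add]
    ring_nf
    simp
  rw [this]
  calc _ ≤ Real.exp (c * θ) *
        Real.exp (-(c * PI μ z₀) + 2 * c * M * PI (mC.restrict O) z₀) := by gcongr
    _ = _ := by rw [← Real.exp_add]; ring_nf

end MaxP

theorem maxp (μ : Measure Cir) [IsFiniteMeasure μ] {K : Set Cir} (hK : IsCompact K)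
    (hK0 : mC K = 0) (hμ : μ Kᶜ = 0) {B : ℂ → ℂ} (hB : AnalyticOnNhd ℂ B (ball 0 1))
    (hB1 : ∀ z ∈ ball (0 : ℂ) 1, ‖B z‖ ≤ 1) {ε M : ℝ} (hε : 0 < ε)
    (h : ∀ z ∈ ball (0 : ℂ) 1, 1 - ε < ‖B z‖ → PI μ z ≤ M) :
    ∃ δ > 0, ∀ z ∈ ball (0 : ℂ) 1, ‖B z‖ ≤ Real.exp (-(δ * min 1 (PI μ z))) := by
  set ε' : ℝ := min ε (1 / 2) with hε'
  set M' : ℝ := max M 0 + 1 with hM'
  have e0 : 0 < ε' := lt_min hε (by norm_num)
  have e1 : ε' ≤ 1 / 2 := min_le_right _ _
  have e2 : ε' ≤ ε := min_le_left _ _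
  have m1 : 1 ≤ M' := by
    have := le_max_right M 0
    linarith
  have m2 : M < M' := by
    have := le_max_left M 0
    linarith
  have m0 : 0 < M' := by linarith
  set δ₀ : ℝ := -Real.log (1 - ε') with hδ₀
  have d0 : 0 < δ₀ := by
    have := Real.log_neg (x := 1 - ε') (by linarith) (by linarith)
    linarith
  set c : ℝ := δ₀ / M' with hc
  have c0 : 0 < c := by positivity
  have hcM : c * M' = δ₀ := by rw [hc]; field_simp
  have hbig : ∀ z ∈ ball (0 : ℂ) 1, M' ≤ PI μ z → ‖B z‖ ≤ Real.exp (-(c * M')) := by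
    intro z hz hzM
    rw [hcM, hδ₀, neg_neg, Real.exp_log (by linarith)]
    by_contra hcon
    push Not at hcon
    have := h z hz (by linarith)
    linarith
  have key : ∀ z ∈ ball (0 : ℂ) 1, PI μ z < M' → ‖B z‖ ≤ Real.exp (-(c * PI μ z)) := by
    intro z hz hzM
    have hz' : ‖z‖ < 1 := by simpa using hz
    have hle : ∀ τ > 0, ‖B z‖ ≤ Real.exp (-(c * PI μ z) + τ) := by
      intro τ hτ
      have hden : 0 < 1 - ‖z‖ := by linarith
      set κ : ℝ := τ / 2 / (2 * c * M' * (2 / (1 - ‖z‖))) with hκ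
      have hκ0 : 0 < κ := by positivity
      obtain ⟨O, hKO, hO, hOm⟩ := K.exists_isOpen_lt_of_lt (μ := mC) (ENNReal.ofReal κ)
        (by rw [hK0]; exact ENNReal.ofReal_pos.mpr hκ0)
      have h1 := MaxP.barrier μ hK hμ hO hKO hB hB1 c0 m0 hbig (θ := τ / 2 / c)
        (by positivity) hz hzM
      refine h1.trans (Real.exp_le_exp.mpr ?_)
      have h2 : c * (τ / 2 / c) = τ / 2 := by field_simp
      have h3 : 2 * c * M' * PI (mC.restrict O) z ≤ τ / 2 := by
        have h4 := PI_le (mC.restrict O) hz'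
        have h5 : ((mC.restrict O) Set.univ).toReal ≤ κ := by
          rw [Measure.restrict_apply_univ]
          exact ENNReal.toReal_le_of_le_ofReal hκ0.le hOm.le
        calc 2 * c * M' * PI (mC.restrict O) z
            ≤ 2 * c * M' * (2 / (1 - ‖z‖) * κ) := by
              gcongr
              refine h4.trans ?_
              gcongr
          _ = τ / 2 := by
              rw [hκ]
              field_simp
      linarith
    have hlim : Tendsto (fun τ : ℝ => Real.exp (-(c * PI μ z) + τ)) (𝓝[>] 0)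
        (𝓝 (Real.exp (-(c * PI μ z)))) := by
      have : Continuous fun τ : ℝ => Real.exp (-(c * PI μ z) + τ) := by fun_prop
      have h2 := this.tendsto 0
      rw [add_zero] at h2
      exact h2.mono_left nhdsWithin_le_nhds
    exact ge_of_tendsto hlim (by filter_upwards [self_mem_nhdsWithin] with τ hτ using hle τ hτ)
  refine ⟨c, c0, fun z hz => ?_⟩
  rcases lt_or_ge (PI μ z) M' with h1 | h1
  · refine (key z hz h1).trans (Real.exp_le_exp.mpr ?_)
    have : c * min 1 (PI μ z) ≤ c * PI μ z := by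
      gcongr
      exact min_le_right _ _
    linarith
  · refine (hbig z hz h1).trans (Real.exp_le_exp.mpr ?_)
    have : c * min 1 (PI μ z) ≤ c * M' := by
      gcongr
      exact (min_le_left _ _).trans m1
    linarith

end

end Pool.Agent.Helper59.DGA
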