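import Pool.Agent.Helper59.DG.Def

/-! Distance to H^infty by duality. -/

set_option autoImplicit false

namespace Pool.Agent.Helper59.DGA

open MeasureTheory AddCircle Metric Filter Topology

noncomputable section

namespace NehB

/-- a continuous functional on `L^1` is given on `L^2` by a bounded function -/
theorem dual (Λ : StrongDual ℂ (Lp ℂ 1 mC)) (η : ℝ) (hη : ‖Λ‖ ≤ η) :
    ∃ ψ : Cir → ℂ, MemLp ψ ⊤ mC ∧ (∀ᵐ t ∂mC, ‖ψ t‖ ≤ η) ∧
      ∀ (f : Cir → ℂ) (_ : MemLp f 2 mC) (h1 : MemLp f 1 mC), Λ (h1.toLp f) = ∫ t, ψ t * f t ∂mC := by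
  have mono : ∀ f : Lp ℂ 2 mC, MemLp f 1 mC := fun f => (Lp.memLp f).mono_exponent one_le_two
  have hη0 : 0 ≤ η := (norm_nonneg _).trans hη
  let L : Lp ℂ 2 mC →ₗ[ℂ] ℂ :=
    { toFun := fun f => Λ ((mono f).toLp f)
      map_add' := by
        intro f g
        rw [← map_add]
        congr 1
        apply Lp.ext
        filter_upwards [(mono (f + g)).coeFn_toLp, (mono f).coeFn_toLp, (mono g).coeFn_toLp,
          Lp.coeFn_add f g, Lp.coeFn_add ((mono f).toLp f) ((mono g).toLp g)] with t h1 h2 h3 h4 h5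
        rw [h1, h4, h5, Pi.add_apply, Pi.add_apply, h2, h3]
      map_smul' := by
        intro c f
        rw [RingHom.id_apply, ← map_smul]
        congr 1
        apply Lp.ext
        filter_upwards [(mono (c • f)).coeFn_toLp, (mono f).coeFn_toLp,
          Lp.coeFn_smul c f, Lp.coeFn_smul c ((mono f).toLp f)] with t h1 h2 h4 h5
        rw [h1, h4, h5, Pi.smul_apply, Pi.smul_apply, h2] }
  let M : StrongDual ℂ (Lp ℂ 2 mC) := L.mkContinuous η (by
    intro f
    refine (Λ.le_opNorm _).trans (mul_le_mul hη ?_ (norm_nonneg _) hη0)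
    rw [Lp.norm_toLp, Lp.norm_def]
    exact ENNReal.toReal_mono (Lp.memLp f).2.ne
      (eLpNorm_le_eLpNorm_of_exponent_le one_le_two (Lp.aestronglyMeasurable f)))
  let ψ' := (InnerProductSpace.toDual ℂ (Lp ℂ 2 mC)).symm M
  have hM : ∀ f : Lp ℂ 2 mC, M f = ∫ t, starRingEnd ℂ (ψ' t) * f t ∂mC := by
    intro f
    rw [← InnerProductSpace.toDual_symm_apply (𝕜 := ℂ) (x := f) (y := M), L2.inner_def]
    refine integral_congr_ae (Eventually.of_forall fun t => ?_)
    simp only [RCLike.inner_apply]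
    rw [mul_comm]
  have hψm : AEStronglyMeasurable (fun t => starRingEnd ℂ (ψ' t)) mC :=
    (Complex.continuous_conj.comp_aestronglyMeasurable (Lp.aestronglyMeasurable ψ'))
  have hf : ∀ (f : Cir → ℂ) (_ : MemLp f 2 mC) (h1 : MemLp f 1 mC),
      Λ (h1.toLp f) = ∫ t, starRingEnd ℂ (ψ' t) * f t ∂mC := by
    intro f h2 h1
    have e1 : Λ (h1.toLp f) = M (h2.toLp f) := by
      show Λ (h1.toLp f) = Λ ((mono (h2.toLp f)).toLp _)
      congr 1
      apply Lp.ext
      filter_upwards [h1.coeFn_toLp, h2.coeFn_toLp, (mono (h2.toLp f)).coeFn_toLp] with t a b c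
      rw [a, c, b]
    rw [e1, hM]
    refine integral_congr_ae ?_
    filter_upwards [h2.coeFn_toLp] with t a
    rw [a]
  have hbd : ∀ᵐ t ∂mC, ‖starRingEnd ℂ (ψ' t)‖ ≤ η := by
    have hint : Integrable (fun t => starRingEnd ℂ (ψ' t)) mC := by
      have : MemLp (fun t => starRingEnd ℂ (ψ' t)) 1 mC := by
        refine (mono ψ').of_le hψm (Eventually.of_forall fun t => ?_)
        simp
      exact memLp_one_iff_integrable.1 this
    apply ae_le_of_forall_setIntegral_le hint.norm (integrable_const η)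
    intro s hs _
    let u : ℂ → ℂ := fun z => starRingEnd ℂ z / (‖z‖ : ℂ)
    have hum : Measurable u := by
      exact (Complex.continuous_conj.measurable).div (Complex.measurable_ofReal.comp measurable_norm)
    have hu1 : ∀ z, ‖u z‖ ≤ 1 := by
      intro z
      simp only [u, norm_div, RCLike.norm_conj, Complex.norm_real, norm_norm]
      exact div_self_le_one _
    have hu2 : ∀ z, z * u z = (‖z‖ : ℂ) := by
      intro z
      simp only [u]
      rcases eq_or_ne z 0 with rfl | hz
      · simp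
      · rw [← mul_div_assoc, Complex.mul_conj, Complex.normSq_eq_norm_sq]
        push_cast
        rw [pow_two, mul_div_assoc, div_self, mul_one]
        simpa using hz
    let f : Cir → ℂ := s.indicator (fun t => u (starRingEnd ℂ (ψ' t)))
    have hfm : AEStronglyMeasurable f mC :=
      ((hum.comp_aemeasurable hψm.aemeasurable).aestronglyMeasurable).indicator hs
    have hf1 : ∀ t, ‖f t‖ ≤ 1 := by
      intro t
      by_cases h : t ∈ s
      · simp only [f, Set.indicator_of_mem h]; exact hu1 _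
      · simp only [f, Set.indicator_of_notMem h]; simp
    have hfI : MemLp f ⊤ mC := memLp_top_of_bound hfm 1 (Eventually.of_forall hf1)
    have h1 := hfI.mono_exponent (p := 1) le_top
    have h2 := hfI.mono_exponent (p := 2) le_top
    have key := hf f h2 h1
    have e2 : ∫ t, starRingEnd ℂ (ψ' t) * f t ∂mC =
        ((∫ t in s, ‖starRingEnd ℂ (ψ' t)‖ ∂mC : ℝ) : ℂ) := by
      rw [← integral_complex_ofReal, ← integral_indicator hs]
      refine integral_congr_ae (Eventually.of_forall fun t => ?_)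
      by_cases h : t ∈ s
      · simp only [f, Set.indicator_of_mem h]; exact hu2 _
      · simp only [f, Set.indicator_of_notMem h]; simp
    have e3 : ‖Λ (h1.toLp f)‖ ≤ η * (mC s).toReal := by
      refine (Λ.le_opNorm _).trans (mul_le_mul hη ?_ (norm_nonneg _) hη0)
      rw [Lp.norm_toLp]
      refine ENNReal.toReal_mono (measure_ne_top _ _) ?_
      rw [eLpNorm_one_eq_lintegral_enorm]
      calc ∫⁻ t, ‖f t‖ₑ ∂mC ≤ ∫⁻ t, s.indicator (fun _ => 1) t ∂mC := by
            refine lintegral_mono fun t => ?_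
            by_cases h : t ∈ s
            · rw [Set.indicator_of_mem h]
              have := hf1 t
              rw [← ofReal_norm]
              exact ENNReal.ofReal_le_one.2 this
            · simp [f, Set.indicator_of_notMem h]
        _ = mC s := by rw [lintegral_indicator hs]; simp
    rw [key, e2, Complex.norm_real, Real.norm_of_nonneg
      (integral_nonneg fun t => norm_nonneg _)] at e3
    refine e3.trans (le_of_eq ?_)
    rw [setIntegral_const, Measure.real, smul_eq_mul, mul_comm]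
  exact ⟨_, memLp_top_of_bound hψm η hbd, hbd, hf⟩

theorem fourier_nat (k : ℕ) (t : Cir) : (fourier (k : ℤ) t : ℂ) = e t ^ k := by
  induction k with
  | zero => simp
  | succ k ih =>
    push_cast
    rw [fourier_add, ih, fourier_one, pow_succ]
    rfl

theorem continuous_e : Continuous e :=
  continuous_subtype_val.comp AddCircle.continuous_toCircle

theorem memLp_poly (p : Polynomial ℂ) (q : ENNReal) : MemLp (fun t => p.eval (e t)) q mC := by
  have hc : Continuous fun t : Cir => p.eval (e t) := p.continuous.comp continuous_e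
  obtain ⟨C, hC⟩ := (isCompact_range hc).isBounded.exists_norm_le
  exact (memLp_top_of_bound hc.aestronglyMeasurable C
    (Eventually.of_forall fun t => hC _ ⟨t, rfl⟩)).mono_exponent le_top

end NehB

open NehB in
/-- distance to `H^∞` by duality -/
theorem dist_Hinf (φ : Cir → ℂ) (hφ : MemLp φ ⊤ mC) (η : ℝ) (hη : 0 ≤ η)
    (h : ∀ p : Polynomial ℂ, p.eval 0 = 0 →
      ‖∫ t, φ t * p.eval (e t) ∂mC‖ ≤ η * ∫ t, ‖p.eval (e t)‖ ∂mC) :
    ∃ g ∈ Hinf, ∀ᵐ t ∂mC, ‖φ t - g t‖ ≤ η := by
  have hint : ∀ f : Cir → ℂ, Integrable f mC → Integrable (fun t => φ t * f t) mC :=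
    fun f hf => hf.mul_of_top_right hφ
  let S : Submodule ℂ (Lp ℂ 1 mC) :=
    { carrier := {f | ∃ p : Polynomial ℂ, p.eval 0 = 0 ∧ f =ᵐ[mC] fun t => p.eval (e t)}
      add_mem' := by
        rintro f g ⟨p, hp, hpf⟩ ⟨q, hq, hqg⟩
        refine ⟨p + q, by simp [hp, hq], ?_⟩
        filter_upwards [Lp.coeFn_add f g, hpf, hqg] with t a b c
        rw [a, Pi.add_apply, b, c, Polynomial.eval_add]
      zero_mem' := by
        refine ⟨0, by simp, ?_⟩
        filter_upwards [Lp.coeFn_zero ℂ 1 mC] with t a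
        rw [a]; simp
      smul_mem' := by
        rintro c f ⟨p, hp, hpf⟩
        refine ⟨c • p, by simp [hp], ?_⟩
        filter_upwards [Lp.coeFn_smul c f, hpf] with t a b
        rw [a, Pi.smul_apply, b, Polynomial.eval_smul] }
  let L0 : S →ₗ[ℂ] ℂ :=
    { toFun := fun f => ∫ t, φ t * (f : Lp ℂ 1 mC) t ∂mC
      map_add' := by
        intro f g
        rw [← integral_add (hint _ (L1.integrable_coeFn _)) (hint _ (L1.integrable_coeFn _))]
        refine integral_congr_ae ?_
        filter_upwards [Lp.coeFn_add (f : Lp ℂ 1 mC) g] with t a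
        rw [Submodule.coe_add, a, Pi.add_apply, mul_add]
      map_smul' := by
        intro c f
        rw [RingHom.id_apply, smul_eq_mul, ← integral_const_mul]
        refine integral_congr_ae ?_
        filter_upwards [Lp.coeFn_smul c (f : Lp ℂ 1 mC)] with t a
        rw [Submodule.coe_smul, a, Pi.smul_apply, smul_eq_mul, mul_left_comm] }
  have hL0 : ∀ f : S, ‖L0 f‖ ≤ η * ‖f‖ := by
    rintro ⟨f, p, hp, hpf⟩
    have e1 : L0 ⟨f, p, hp, hpf⟩ = ∫ t, φ t * p.eval (e t) ∂mC := by
      refine integral_congr_ae ?_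
      filter_upwards [hpf] with t a
      show φ t * f t = _
      rw [a]
    have e2 : ‖(⟨f, p, hp, hpf⟩ : S)‖ = ∫ t, ‖p.eval (e t)‖ ∂mC := by
      show ‖f‖ = _
      rw [L1.norm_eq_integral_norm]
      refine integral_congr_ae ?_
      filter_upwards [hpf] with t a
      rw [a]
    rw [e1, e2]
    exact h p hp
  obtain ⟨Λ, hΛ1, hΛ2⟩ := exists_extension_norm_eq S (L0.mkContinuous η hL0)
  obtain ⟨ψ, hψ1, hψ2, hψ3⟩ := dual Λ η (hΛ2 ▸ L0.mkContinuous_norm_le hη hL0)
  refine ⟨fun t => φ t - ψ t, ⟨hφ.sub hψ1, ?_⟩, ?_⟩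
  · intro n hn
    obtain ⟨k, hk⟩ : ∃ k : ℕ, -n = ((k + 1 : ℕ) : ℤ) := ⟨(-n - 1).toNat, by omega⟩
    set p : Polynomial ℂ := Polynomial.X ^ (k + 1) with hp
    have h1 := memLp_poly p 1
    have h2 := memLp_poly p 2
    have e1 := hψ3 _ h2 h1
    have hmem : h1.toLp _ ∈ S := ⟨p, by simp [hp], h1.coeFn_toLp⟩
    have e2 := hΛ1 ⟨_, hmem⟩
    have e3 : (L0.mkContinuous η hL0) ⟨_, hmem⟩ = ∫ t, φ t * p.eval (e t) ∂mC := by
      show ∫ t, φ t * (h1.toLp _ : Lp ℂ 1 mC) t ∂mC = _
      refine integral_congr_ae ?_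
      filter_upwards [h1.coeFn_toLp] with t a
      rw [a]
    have e4 : ∫ t, ψ t * p.eval (e t) ∂mC = ∫ t, φ t * p.eval (e t) ∂mC := by
      rw [← e1, ← e3]; exact e2
    have hpi : Integrable (fun t => p.eval (e t)) mC := memLp_one_iff_integrable.1 h1
    have hψi : Integrable (fun t => ψ t * p.eval (e t)) mC := hpi.mul_of_top_right hψ1
    unfold fourierCoeff
    rw [hk]
    have e5 : ∀ t : Cir, fourier ((k + 1 : ℕ) : ℤ) t • (φ t - ψ t) =
        φ t * p.eval (e t) - ψ t * p.eval (e t) := by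
      intro t
      rw [fourier_nat, smul_eq_mul, hp, Polynomial.eval_pow, Polynomial.eval_X]
      ring
    simp_rw [e5]
    rw [integral_sub (hint _ hpi) hψi, e4, sub_self]
  · filter_upwards [hψ2] with t a
    rw [sub_sub_cancel]
    exact a

end

end Pool.Agent.Helper59.DGA
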