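import Pool.Agent.Helper59.DG.NehA
import Pool.Agent.Helper59.DG.NehB
import Pool.Agent.Helper59.DG.KerA

/-! Nehari duality. -/

set_option autoImplicit false

namespace Pool.Agent.Helper59.DGA

open MeasureTheory AddCircle Metric Filter Topology

noncomputable section

theorem nehari (φ : Cir → ℂ) (hφ : MemLp φ ⊤ mC) (η : ℝ) (hη : 0 ≤ η)
    (h : ∀ f g : ℂ → ℂ, DiffContOnCl ℂ f (ball 0 1) → DiffContOnCl ℂ g (ball 0 1) →
      f 0 * g 0 = 0 → ‖∫ t, φ t * (f (e t) * g (e t)) ∂mC‖ ≤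
        η * (∫ t, ‖f (e t)‖ ^ 2 ∂mC + ∫ t, ‖g (e t)‖ ^ 2 ∂mC)) :
    ∃ g ∈ Hinf, ∀ᵐ t ∂mC, ‖φ t - g t‖ ≤ 2 * η := by
  refine dist_Hinf φ hφ (2 * η) (by positivity) fun p hp => ?_
  obtain ⟨f, g, hf, hg, h1, h2, h3⟩ := factor p
  have h0 : f 0 * g 0 = 0 := by rw [← h1 0 (by simp), hp]
  have h4 : ∀ t, p.eval (e t) = f (e t) * g (e t) := fun t => h1 _ (by simp [norm_e])
  have h5 := h f g hf hg h0
  simp only [← h4] at h5
  refine h5.trans (le_of_eq ?_)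
  simp only [h2, h3]
  ring

end

end Pool.Agent.Helper59.DGA
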