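import Pool.Agent.Helper59.DG.Sing
import Pool.Agent.Helper59.DG.Est
import Pool.Agent.Helper59.DG.Neh
import Pool.Agent.Helper59.DG.MaxP
import Pool.Agent.Helper59.DG.Herg
import Pool.Agent.Helper59.DG.Bla
import Pool.Agent.Helper59.DG.Dual

/-! Douglas algebras in which all invertible inner functions are Blaschke products. -/

set_option autoImplicit false

namespace Pool.Agent.Helper59.DGA

open MeasureTheory AddCircle Metric Filter Topology

noncomputable section

theorem norm_mul_e {r : ℝ} (hr : 0 < r) (hr1 : r < 1) (t : Cir) : ‖(r : ℂ) * e t‖ < 1 := by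
  rw [norm_mul, norm_e, mul_one, Complex.norm_real, Real.norm_eq_abs, abs_of_pos hr]
  exact hr1

theorem IsInner.ext_le {I : Cir → ℂ} (hI : IsInner I) {z : ℂ} (hz : ‖z‖ < 1) : ‖ext I z‖ ≤ 1 :=
  ext_norm_le (hI.2.mono fun _ h => h.le) hz

theorem Inv.pow {D : Set (Cir → ℂ)} (hD : IsDouglas D) {B : Cir → ℂ} (hB : B ∈ Inv D) (n : ℕ) :
    cj B ^ (n + 1) ∈ D := by
  induction n with
  | zero => simpa using hB.2
  | succ n ih => rw [pow_succ]; exact hD.mul _ ih _ hB.2

/-- the limit of the test functions -/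
theorem limit_est {μ : Measure Cir} [IsFiniteMeasure μ] {K : Set Cir} (hK : IsCompact K)
    (hK0 : mC K = 0) (hμ : μ Kᶜ = 0) {B S : Cir → ℂ} (hB : IsInner B)
    (hS : ∀ᵐ t ∂mC, S t = Complex.exp (-HI μ (e t))) {C : ℝ} (n : ℕ)
    (hC : ∀ f g : ℂ → ℂ, AnalyticOnNhd ℂ f (ball 0 1) → AnalyticOnNhd ℂ g (ball 0 1) →
      f 0 * g 0 = 0 → ∀ r : ℝ, 0 < r → r < 1 →
      ‖Real.circleAverage (Phi (HI μ) (ext B) f g n) 0 r‖ ≤
        C * (Real.circleAverage (fun z => ‖f z‖ ^ 2) 0 r +
          Real.circleAverage (fun z => ‖g z‖ ^ 2) 0 r)) {f g : ℂ → ℂ}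
    (hf : DiffContOnCl ℂ f (ball 0 1)) (hg : DiffContOnCl ℂ g (ball 0 1)) (h0 : f 0 * g 0 = 0) :
    ‖∫ t, (cj S t * B t ^ (n + 2)) * (f (e t) * g (e t)) ∂mC‖ ≤
      C * (∫ t, ‖f (e t)‖ ^ 2 ∂mC + ∫ t, ‖g (e t)‖ ^ 2 ∂mC) := by
  obtain ⟨r, hr, hr1, hB3, -⟩ := exists_seq (Hinf.int hB.1) (Hinf.int hB.1)
  have h1 : Tendsto r atTop (𝓝[<] 1) :=
    tendsto_nhdsWithin_iff.2 ⟨hr1, Eventually.of_forall fun k => (hr k).2⟩
  have hfa : AnalyticOnNhd ℂ f (ball 0 1) := hf.differentiableOn.analyticOnNhd isOpen_ball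
  have hga : AnalyticOnNhd ℂ g (ball 0 1) := hg.differentiableOn.analyticOnNhd isOpen_ball
  have hcl : closure (ball (0 : ℂ) 1) = closedBall 0 1 := closure_ball _ one_ne_zero
  -- bounds
  have hbd : ∀ {u : ℂ → ℂ}, DiffContOnCl ℂ u (ball 0 1) → ∃ M, ∀ z ∈ closedBall (0 : ℂ) 1, ‖u z‖ ≤ M := by
    intro u hu
    have := hu.continuousOn
    rw [hcl] at this
    exact (isCompact_closedBall (0 : ℂ) 1).exists_bound_of_continuousOn this
  obtain ⟨Mf, hMf⟩ := hbd hf
  obtain ⟨Mg, hMg⟩ := hbd hg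
  have hmem : ∀ k t, ‖((r k : ℝ) : ℂ) * e t‖ < 1 := fun k t => norm_mul_e (hr k).1 (hr k).2 t
  have hmemB : ∀ k t, ((r k : ℝ) : ℂ) * e t ∈ ball (0 : ℂ) 1 := fun k t => by
    rw [mem_ball_zero_iff]; exact hmem k t
  have hmem' : ∀ k t, ((r k : ℝ) : ℂ) * e t ∈ closedBall (0 : ℂ) 1 := fun k t =>
    ball_subset_closedBall (hmemB k t)
  -- convergence of the points
  have hpt : ∀ t, Tendsto (fun k => ((r k : ℝ) : ℂ) * e t) atTop (𝓝[closedBall 0 1] (e t)) := by
    intro t
    refine tendsto_nhdsWithin_iff.2 ⟨?_, Eventually.of_forall fun k => hmem' k t⟩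
    have h2 : Tendsto (fun k => ((r k : ℝ) : ℂ)) atTop (𝓝 ((1 : ℝ) : ℂ)) :=
      (Complex.continuous_ofReal.tendsto _).comp hr1
    simpa using h2.mul_const (e t)
  have hcont : ∀ {u : ℂ → ℂ}, DiffContOnCl ℂ u (ball 0 1) → ∀ t,
      Tendsto (fun k => u (((r k : ℝ) : ℂ) * e t)) atTop (𝓝 (u (e t))) := by
    intro u hu t
    have h2 := hu.continuousOn
    rw [hcl] at h2
    exact (h2 (e t) (by simp [norm_e])).tendsto.comp (hpt t)
  -- squares
  have hsq : ∀ {u : ℂ → ℂ}, DiffContOnCl ℂ u (ball 0 1) →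
      Tendsto (fun k => Real.circleAverage (fun z => ‖u z‖ ^ 2) 0 (r k)) atTop
        (𝓝 (∫ t, ‖u (e t)‖ ^ 2 ∂mC)) := by
    intro u hu
    obtain ⟨M, hM⟩ := hbd hu
    have h2 : ∀ k, Real.circleAverage (fun z => ‖u z‖ ^ 2) 0 (r k) =
        ∫ t, ‖u (((r k : ℝ) : ℂ) * e t)‖ ^ 2 ∂mC := fun k =>
      (integral_circleAverage_real (fun z => ‖u z‖ ^ 2) (r k)).symm
    simp_rw [h2]
    refine tendsto_integral_of_dominated_convergence (fun _ => M ^ 2) ?_ (integrable_const _) ?_ ?_
    · intro k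
      have h3 : Continuous (fun t : Cir => u (((r k : ℝ) : ℂ) * e t)) := by
        have h4 := hu.continuousOn
        rw [hcl] at h4
        exact h4.comp_continuous (continuous_const.mul continuous_e) (hmem' k)
      exact (h3.norm.pow 2).aestronglyMeasurable
    · intro k
      filter_upwards with t
      rw [Real.norm_of_nonneg (by positivity)]
      have := hM _ (hmem' k t)
      gcongr
    · filter_upwards with t
      exact ((hcont hu t).norm).pow 2
  have hlim : Tendsto (fun k => Real.circleAverage (Phi (HI μ) (ext B) f g n) 0 (r k)) atTop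
      (𝓝 (∫ t, (cj S t * B t ^ (n + 2)) * (f (e t) * g (e t)) ∂mC)) := by
    have h2 : ∀ k, Real.circleAverage (Phi (HI μ) (ext B) f g n) 0 (r k) =
        ∫ t, Phi (HI μ) (ext B) f g n (((r k : ℝ) : ℂ) * e t) ∂mC := fun k =>
      (integral_circleAverage _ _).symm
    simp_rw [h2]
    refine tendsto_integral_of_dominated_convergence (fun _ => 5 * (Mf * Mg)) ?_
      (integrable_const _) ?_ ?_
    · intro k
      have h3 : ContinuousOn (Phi (HI μ) (ext B) f g n) (ball 0 1) := by
        unfold Phi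
        have hA := (HI_analytic μ).continuousOn
        have hB' := (Hinf.analytic hB.1).continuousOn
        have hf' := hfa.continuousOn
        have hg' := hga.continuousOn
        refine ContinuousOn.mul (ContinuousOn.mul ?_ ?_) ((hB'.pow _).mul (hf'.mul hg'))
        · exact Complex.continuous_exp.comp_continuousOn
            (Complex.continuous_conj.comp_continuousOn hA).neg
        · have h5 : ContinuousOn (fun z => (HI μ z).re) (ball 0 1) :=
            Complex.continuous_re.comp_continuousOn hA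
          exact Complex.continuous_ofReal.comp_continuousOn
            ((continuousOn_const.add (continuousOn_const.mul h5)).add
              (continuousOn_const.mul (h5.pow 2)))
      have h4 : Continuous (fun t : Cir => Phi (HI μ) (ext B) f g n (((r k : ℝ) : ℂ) * e t)) :=
        h3.comp_continuous (continuous_const.mul continuous_e) (hmemB k)
      exact h4.aestronglyMeasurable
    · intro k
      filter_upwards with t
      unfold Phi
      have hP := PI_nonneg μ (hmem k t)
      have hB1 := hB.ext_le (hmem k t)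
      have hf1 := hMf _ (hmem' k t)
      have hg1 := hMg _ (hmem' k t)
      have hMf0 : 0 ≤ Mf := (norm_nonneg _).trans hf1
      rw [norm_mul, norm_mul, Complex.norm_exp, norm_mul, norm_mul, norm_pow, Complex.norm_real,
        Complex.neg_re, Complex.conj_re, HI_re μ (hmem k t)]
      generalize PI μ (((r k : ℝ) : ℂ) * e t) = p at hP
      have h5 : Real.exp (-p) * ‖1 + 2 * p + 2 * p ^ 2‖ ≤ 5 := by
        rw [Real.norm_of_nonneg (by positivity), Real.exp_neg, inv_mul_le_iff₀ (Real.exp_pos _)]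
        have h6 := Real.quadratic_le_exp_of_nonneg hP
        nlinarith
      have h6 : ‖ext B (((r k : ℝ) : ℂ) * e t)‖ ^ (n + 2) ≤ 1 := pow_le_one₀ (norm_nonneg _) hB1
      calc _ ≤ 5 * (1 * (Mf * Mg)) := by gcongr
        _ = _ := by ring
    · filter_upwards [hB3, hS, ae_notMem hK0] with t ht1 ht2 ht3
      have hA := (HI_tendsto μ hK hμ ht3).2.comp h1
      have hre := (HI_tendsto μ hK hμ ht3).1
      have hP0 : Tendsto (fun k => (HI μ (((r k : ℝ) : ℂ) * e t)).re) atTop (𝓝 0) := by
        have := (Complex.continuous_re.tendsto _).comp hA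
        rwa [hre] at this
      have e1 : cj S t = Complex.exp (-starRingEnd ℂ (HI μ (e t))) := by
        unfold cj
        rw [ht2, ← Complex.exp_conj, map_neg]
      have e2 : Tendsto (fun k => Complex.exp (-starRingEnd ℂ (HI μ (((r k : ℝ) : ℂ) * e t)))) atTop
          (𝓝 (cj S t)) := by
        rw [e1]
        exact (((Complex.continuous_conj.tendsto _).comp hA).neg).cexp
      have e3 : Tendsto (fun k => ((1 + 2 * (HI μ (((r k : ℝ) : ℂ) * e t)).re +
          2 * (HI μ (((r k : ℝ) : ℂ) * e t)).re ^ 2 : ℝ) : ℂ)) atTop (𝓝 1) := by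
        have h7 := (tendsto_const_nhds (x := (1 : ℝ))).add (hP0.const_mul 2) |>.add
          ((hP0.pow 2).const_mul 2)
        have h8 := (Complex.continuous_ofReal.tendsto _).comp h7
        have h9 : (((1 : ℝ) + 2 * 0 + 2 * 0 ^ 2 : ℝ) : ℂ) = 1 := by norm_num
        rw [h9] at h8
        exact h8
      have e4 := ((ht1.pow (n + 2)).mul ((hcont hf t).mul (hcont hg t)))
      have e5 := (e2.mul e3).mul e4
      rw [mul_one, ← mul_assoc] at e5
      exact e5
  have hR := ((hsq hf).add (hsq hg)).const_mul C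
  exact le_of_tendsto_of_tendsto hlim.norm hR (Eventually.of_forall fun k =>
    hC f g hfa hga h0 (r k) (hr k).1 (hr k).2)

/-- the main step -/
theorem step_sing {D : Set (Cir → ℂ)} (hD : IsDouglas D) {B : Cir → ℂ} (hB : B ∈ Inv D) {ε : ℝ}
    (hε : 0 < ε) (μ : Measure Cir) [IsFiniteMeasure μ] {K : Set Cir} (hK : IsCompact K)
    (hK0 : mC K = 0) (hμ : μ Kᶜ = 0) {M : ℝ} (hM : ∀ z ∈ Lev B ε, PI μ z ≤ M) :
    ∃ S ∈ Inv D, ∀ z ∈ ball (0 : ℂ) 1, ext S z = Complex.exp (-HI μ z) := by
  obtain ⟨δ, hδ, hδ'⟩ := maxp μ hK hK0 hμ (Hinf.analytic hB.1.1)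
    (fun z hz => hB.1.ext_le (by simpa using hz)) hε
    (fun z hz hz' => hM z ⟨by simpa using hz, hz'⟩)
  obtain ⟨S, hS, hS1, hS2⟩ := exists_sing μ hK hK0 hμ
  obtain ⟨C, hC, hest⟩ := est δ hδ
  refine ⟨S, ⟨hS, hD.closed _ ?_ ?_⟩, hS1⟩
  · refine MemLp.of_bound ?_ 1 ?_
    · exact Complex.continuous_conj.comp_aestronglyMeasurable hS.1.1.1
    · filter_upwards [hS.2] with t ht
      unfold cj
      rw [RCLike.norm_conj, ht]
  · intro δ' hδ'0
    obtain ⟨n, hn⟩ := exists_nat_gt (2 * C / δ')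
    have hn' : 2 * (C / (n + 1)) ≤ δ' := by
      rw [← mul_div_assoc, div_le_iff₀ (by positivity)]
      rw [div_lt_iff₀ hδ'0] at hn
      nlinarith
    have hmeas : AEStronglyMeasurable (fun t => cj S t * B t ^ (n + 2)) mC :=
      (Complex.continuous_conj.comp_aestronglyMeasurable hS.1.1.1).mul (hB.1.1.1.1.pow _)
    obtain ⟨g, hg, hg1⟩ := nehari (fun t => cj S t * B t ^ (n + 2))
      (MemLp.of_bound hmeas 1 (by
        filter_upwards [hS.2, hB.1.2] with t h1 h2
        unfold cj
        rw [norm_mul, norm_pow, RCLike.norm_conj, h1, h2, one_pow, one_mul]))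
      (C / (n + 1)) (by positivity) (fun f g hf hg h0 => by
        refine limit_est hK hK0 hμ hB.1 hS2 n ?_ hf hg h0
        intro f g hf hg h0 r hr hr1
        refine hest (HI μ) (ext B) f g (HI_analytic μ) (Hinf.analytic hB.1.1) hf hg ?_ ?_ h0 n r
          hr hr1
        · intro z hz
          rw [HI_re μ (by simpa using hz)]
          exact PI_nonneg μ (by simpa using hz)
        · intro z hz
          rw [HI_re μ (by simpa using hz)]
          exact hδ' z hz)
    refine ⟨cj B ^ (n + 1 + 1) * g, hD.mul _ (Inv.pow hD hB _) _ (hD.hinf hg), ?_⟩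
    filter_upwards [hg1, hB.1.2] with t h1 h2
    refine le_trans (le_of_eq ?_) (h1.trans hn')
    have h3 : starRingEnd ℂ (B t) * B t = 1 := by
      rw [← Complex.normSq_eq_conj_mul_self, Complex.normSq_eq_norm_sq, h2]
      norm_num
    have h4 : cj S t - (cj B ^ (n + 1 + 1) * g) t =
        (starRingEnd ℂ (B t)) ^ (n + 2) * (cj S t * B t ^ (n + 2) - g t) := by
      have h5 : (starRingEnd ℂ (B t)) ^ (n + 2) * B t ^ (n + 2) = 1 := by
        rw [← mul_pow, h3, one_pow]
      have h6 : (cj B ^ (n + 1 + 1) * g) t = (starRingEnd ℂ (B t)) ^ (n + 2) * g t := rfl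
      rw [h6, mul_sub, mul_comm (cj S t), ← mul_assoc, h5, one_mul]
    rw [h4, norm_mul, norm_pow, RCLike.norm_conj, h2, one_pow, one_mul]

theorem main (D : Set (Cir → ℂ)) (hD : IsDouglas D) (BB : Set (Cir → ℂ)) (hBB : BB ⊆ Inv D)
    (hcof : ∀ I ∈ Inv D, ∀ δ > 0, ∃ B ∈ BB, ∃ g ∈ Hinf, ∀ᵐ t ∂mC, ‖cj I t - cj B t * g t‖ ≤ δ) :
    [∀ I ∈ Inv D, IsBlaschke I,
      ∀ B ∈ BB, ∀ ε > 0, ∀ h : ℂ → ℝ, PosHarm h →
        BddAbove (h '' Lev B ε) → BddAbove (h '' ball 0 1),
      ∀ B ∈ BB, ∀ ε > 0, ∀ K : Set Cir, IsCompact K → mC K = 0 → ∀ η > 0,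
        ∃ (s : Finset ℂ) (a : ℂ → ℝ), (∀ z ∈ s, z ∈ Lev B ε ∧ 0 ≤ a z) ∧ ∑ z ∈ s, a z < η ∧
          ∀ t ∈ K, 1 ≤ ∑ z ∈ s, a z * P z t].TFAE := by
  have hint : ∀ (μ : Measure Cir) [IsFiniteMeasure μ] (K : Set Cir), IsCompact K →
      ∀ (s : Finset ℂ) (a : ℂ → ℝ) (M : ℝ), (∀ z ∈ s, ‖z‖ < 1 ∧ 0 ≤ a z ∧ PI μ z ≤ M) →
      (∀ t ∈ K, 1 ≤ ∑ z ∈ s, a z * P z t) → (μ K).toReal ≤ (∑ z ∈ s, a z) * M := by
    intro μ _ K hK s a M hs h1
    have hcont : Continuous fun t => ∑ z ∈ s, a z * P z t :=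
      continuous_finsetSum _ fun z hz => continuous_const.mul (continuous_P (hs z hz).1)
    have hnn : ∀ t, 0 ≤ ∑ z ∈ s, a z * P z t := fun t => Finset.sum_nonneg fun z hz =>
      mul_nonneg (hs z hz).2.1 (P_pos (hs z hz).1 t).le
    have hI : Integrable (fun t => ∑ z ∈ s, a z * P z t) μ := by
      obtain ⟨C, hC⟩ := isCompact_univ.exists_bound_of_continuousOn hcont.continuousOn
      exact Integrable.of_bound hcont.aestronglyMeasurable C
        (Eventually.of_forall fun t => hC t (Set.mem_univ t))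
    have h2 : (μ K).toReal = ∫ t in K, (1 : ℝ) ∂μ := by simp [Measure.real]
    calc (μ K).toReal = ∫ t in K, (1 : ℝ) ∂μ := h2
      _ ≤ ∫ t in K, ∑ z ∈ s, a z * P z t ∂μ := by
          refine setIntegral_mono_on (integrable_const _).integrableOn hI.integrableOn
            hK.measurableSet h1
      _ ≤ ∫ t, ∑ z ∈ s, a z * P z t ∂μ :=
          setIntegral_le_integral hI (Eventually.of_forall hnn)
      _ = ∑ z ∈ s, a z * PI μ z := by
          rw [integral_finsetSum]
          · exact Finset.sum_congr rfl fun z _ => by rw [integral_const_mul]; rfl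
          · intro z hz
            obtain ⟨C, hC⟩ := isCompact_univ.exists_bound_of_continuousOn
              (continuous_P (hs z hz).1).continuousOn
            exact (Integrable.of_bound (continuous_P (hs z hz).1).aestronglyMeasurable C
              (Eventually.of_forall fun t => hC t (Set.mem_univ t))).const_mul _
      _ ≤ ∑ z ∈ s, a z * M := Finset.sum_le_sum fun z hz =>
          mul_le_mul_of_nonneg_left (hs z hz).2.2 (hs z hz).2.1
      _ = _ := by rw [Finset.sum_mul]
  tfae_have 1 → 3 := by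
    intro h1 B hB ε hε K hK hK0 η hη
    by_contra hn
    obtain ⟨μ, hμf, hμ, hμK, M, hM⟩ := exists_measure (E := Lev B ε) (fun z hz => hz.1) hK hη hn
    obtain ⟨S, hS, hS1⟩ := step_sing hD (hBB hB) hε μ hK hK0 hμ hM
    rcases (h1 S hS).zero_or_const with ⟨z, hz, h2⟩ | h2
    · rw [hS1 z hz] at h2
      exact Complex.exp_ne_zero _ h2
    · rw [hS1 0 (by simp), Complex.norm_exp, Complex.neg_re, HI_re μ (by simp), PI_zero,
        Real.exp_eq_one_iff, neg_eq_zero, ENNReal.toReal_eq_zero_iff] at h2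
      rcases h2 with h2 | h2
      · exact hμK.ne' (measure_mono_null (Set.subset_univ _) h2)
      · exact measure_ne_top _ _ h2
  tfae_have 3 → 1 := by
    intro h3 I hI
    by_contra hn
    obtain ⟨h, hh, hh0, hhI⟩ := exists_harmonic hI.1 hn
    obtain ⟨μ, hμf, hμ⟩ := herglotz hh
    rcases exists_compact_or μ with ⟨K, hK, hK0, hKμ⟩ | ⟨φ, hφ, hφ0, hφ1⟩
    · obtain ⟨B, hB, g, hg, hBg⟩ := hcof I hI (1 / 4) (by norm_num)
      have hBi := (hBB hB).1
      obtain ⟨s, a, hs, hs1, hs2⟩ := h3 B hB (1 / 4) (by norm_num) K hK hK0 (μ K).toReal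
        (ENNReal.toReal_pos hKμ.ne' (measure_ne_top _ _))
      have hg1 : ∀ᵐ t ∂mC, ‖g t‖ ≤ 5 / 4 := by
        filter_upwards [hBg, hI.1.2, hBi.2] with t h1 h2 h4
        have h5 : ‖cj B t * g t‖ = ‖g t‖ := by
          unfold cj
          rw [norm_mul, RCLike.norm_conj, h4, one_mul]
        have h6 : ‖cj I t‖ = 1 := by
          unfold cj
          rw [RCLike.norm_conj, h2]
        have h7 := norm_sub_norm_le (cj B t * g t) (cj I t)
        rw [norm_sub_rev, h5, h6] at h7
        linarith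
      have hd : ∀ᵐ t ∂mC, ‖(B - I * g) t‖ ≤ 1 / 4 := by
        filter_upwards [hBg, hI.1.2, hBi.2] with t h1 h2 h4
        refine le_trans (le_of_eq ?_) h1
        have h5 : starRingEnd ℂ (B t) * B t = 1 := by
          rw [← Complex.normSq_eq_conj_mul_self, Complex.normSq_eq_norm_sq, h4]
          norm_num
        have h6 : I t * starRingEnd ℂ (I t) = 1 := by
          rw [mul_comm, ← Complex.normSq_eq_conj_mul_self, Complex.normSq_eq_norm_sq, h2]
          norm_num
        have h7 : (B - I * g) t = I t * B t * (cj I t - cj B t * g t) := by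
          have e1 : (B - I * g) t = B t - I t * g t := rfl
          rw [e1]
          unfold cj
          linear_combination (-(B t)) * h6 + I t * g t * h5
        rw [h7, norm_mul, norm_mul, h2, h4, one_mul, one_mul]
      have hlev : ∀ z ∈ Lev B (1 / 4), PI μ z ≤ 1 := by
        rintro z ⟨hz, hz1⟩
        have h4 := ext_norm_le hd hz
        rw [ext_sub (Hinf.int hBi.1) (Hinf.int (Hinf.mul hI.1.1 hg)) hz,
          Hinf.ext_mul hI.1.1 hg hz] at h4
        have h5 := ext_norm_le hg1 hz
        have h6 : ‖ext B z‖ ≤ 1 / 4 + ‖ext I z‖ * (5 / 4) := by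
          calc ‖ext B z‖ = ‖(ext B z - ext I z * ext g z) + ext I z * ext g z‖ := by
                rw [sub_add_cancel]
            _ ≤ ‖ext B z - ext I z * ext g z‖ + ‖ext I z * ext g z‖ := norm_add_le _ _
            _ ≤ 1 / 4 + ‖ext I z‖ * (5 / 4) := by
                rw [norm_mul]
                gcongr
        have h7 := hhI z (by simpa using hz)
        rw [← hμ z (by simpa using hz)]
        by_contra hlt
        push Not at hlt
        have h8 : Real.exp (-h z) ≤ Real.exp (-1) := Real.exp_le_exp.2 (by linarith)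
        have h9 : Real.exp (-1) < 2 / 5 := by
          have := Real.exp_one_gt_d9
          rw [Real.exp_neg, inv_lt_comm₀ (Real.exp_pos _) (by norm_num)]
          norm_num
          linarith
        linarith
      have h4 := hint μ K hK s a 1 (fun z hz => ⟨(hs z hz).1.1, (hs z hz).2, hlev z (hs z hz).1⟩)
        hs2
      linarith
    · have hφc : Integrable (fun t => (φ t : ℂ)) mC := hφ.ofReal
      obtain ⟨r, hr, hr1, h4, h5⟩ := exists_seq (Hinf.int hI.1.1) hφc
      have hext : ∀ z ∈ ball (0 : ℂ) 1, ext (fun t => (φ t : ℂ)) z = (h z : ℂ) := by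
        intro z hz
        rw [hμ z hz, hφ1 z hz]
        unfold ext
        have h7 := integral_ofReal (𝕜 := ℂ) (f := fun t => P z t * φ t) (μ := mC)
        simpa using h7
      have h6 : ∀ᵐ t ∂mC, φ t = 0 := by
        filter_upwards [h4, h5, hI.1.2] with t t1 t2 t3
        have hk : ∀ k, ‖((r k : ℝ) : ℂ) * e t‖ < 1 := fun k => norm_mul_e (hr k).1 (hr k).2 t
        have t4 : Tendsto (fun k => h (((r k : ℝ) : ℂ) * e t)) atTop (𝓝 (φ t)) := by
          have h7 := (Complex.continuous_re.tendsto _).comp t2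
          rw [Complex.ofReal_re] at h7
          refine h7.congr fun k => ?_
          rw [Function.comp_apply, hext _ (by simpa using hk k), Complex.ofReal_re]
        have t5 : Tendsto (fun k => ‖ext I (((r k : ℝ) : ℂ) * e t)‖) atTop (𝓝 1) := by
          have := t1.norm
          rwa [t3] at this
        have t6 : Tendsto (fun k => Real.exp (-h (((r k : ℝ) : ℂ) * e t))) atTop
            (𝓝 (Real.exp (-φ t))) := (Real.continuous_exp.tendsto _).comp t4.neg
        have t7 : 1 ≤ Real.exp (-φ t) := le_of_tendsto_of_tendsto t5 t6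
          (Eventually.of_forall fun k => hhI _ (by simpa using hk k))
        have t8 : 0 ≤ -φ t := Real.exp_le_exp.1 (by rwa [Real.exp_zero])
        linarith [hφ0 t]
      have h7 : h 0 = 0 := by
        rw [hμ 0 (by simp), hφ1 0 (by simp)]
        rw [integral_eq_zero_of_ae]
        filter_upwards [h6] with t ht
        simp [ht]
      linarith
  tfae_have 3 → 2 := by
    intro h3 B hB ε hε h hh ⟨M, hM⟩
    have hBi := (hBB hB).1
    have hM' : ∀ z ∈ Lev B ε, h z ≤ M := fun z hz => hM ⟨z, hz, rfl⟩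
    obtain ⟨μ, hμf, hμ⟩ := herglotz hh
    rcases exists_compact_or μ with ⟨K, hK, hK0, hKμ⟩ | ⟨φ, hφ, hφ0, hφ1⟩
    · exfalso
      have hpos : 0 < (μ K).toReal := ENNReal.toReal_pos hKμ.ne' (measure_ne_top _ _)
      have hM1 : 0 < |M| + 1 := by positivity
      obtain ⟨s, a, hs, hs1, hs2⟩ := h3 B hB ε hε K hK hK0 ((μ K).toReal / (|M| + 1))
        (by positivity)
      have h4 := hint μ K hK s a (|M| + 1) (fun z hz => ⟨(hs z hz).1.1, (hs z hz).2, by
        rw [← hμ z (by simpa using (hs z hz).1.1)]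
        have := hM' z (hs z hz).1
        have := le_abs_self M
        linarith⟩) hs2
      rw [lt_div_iff₀ hM1] at hs1
      linarith
    · have hφc : Integrable (fun t => (φ t : ℂ)) mC := hφ.ofReal
      obtain ⟨r, hr, hr1, h4, h5⟩ := exists_seq (Hinf.int hBi.1) hφc
      have hext : ∀ z ∈ ball (0 : ℂ) 1, ext (fun t => (φ t : ℂ)) z = (h z : ℂ) := by
        intro z hz
        rw [hμ z hz, hφ1 z hz]
        unfold ext
        have h7 := integral_ofReal (𝕜 := ℂ) (f := fun t => P z t * φ t) (μ := mC)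
        simpa using h7
      have h6 : ∀ᵐ t ∂mC, φ t ≤ M := by
        filter_upwards [h4, h5, hBi.2] with t t1 t2 t3
        have hk : ∀ k, ‖((r k : ℝ) : ℂ) * e t‖ < 1 := fun k => norm_mul_e (hr k).1 (hr k).2 t
        have t4 : Tendsto (fun k => h (((r k : ℝ) : ℂ) * e t)) atTop (𝓝 (φ t)) := by
          have h7 := (Complex.continuous_re.tendsto _).comp t2
          rw [Complex.ofReal_re] at h7
          refine h7.congr fun k => ?_
          rw [Function.comp_apply, hext _ (by simpa using hk k), Complex.ofReal_re]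
        have t5 : Tendsto (fun k => ‖ext B (((r k : ℝ) : ℂ) * e t)‖) atTop (𝓝 1) := by
          have := t1.norm
          rwa [t3] at this
        refine le_of_tendsto t4 ?_
        filter_upwards [t5.eventually (lt_mem_nhds (show 1 - ε < 1 by linarith))] with k hk1
        exact hM' _ ⟨hk k, hk1⟩
      refine ⟨M, ?_⟩
      rintro _ ⟨z, hz, rfl⟩
      have hz' : ‖z‖ < 1 := by simpa using hz
      rw [hμ z hz, hφ1 z hz]
      have hPI : Integrable (P z) mC := by
        obtain ⟨C, hC⟩ := isCompact_univ.exists_bound_of_continuousOn (continuous_P hz').continuousOn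
        exact Integrable.of_bound (continuous_P hz').aestronglyMeasurable C
          (Eventually.of_forall fun t => hC t (Set.mem_univ t))
      calc ∫ t, P z t * φ t ∂mC ≤ ∫ t, P z t * M ∂mC := by
            refine integral_mono_ae ?_ (hPI.mul_const _) ?_
            · obtain ⟨C, hC⟩ := isCompact_univ.exists_bound_of_continuousOn
                (continuous_P hz').continuousOn
              exact hφ.bdd_mul (continuous_P hz').aestronglyMeasurable
                (Eventually.of_forall fun t => hC t (Set.mem_univ t))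
            · filter_upwards [h6] with t ht
              exact mul_le_mul_of_nonneg_left ht (P_pos hz' t).le
        _ = M := by rw [integral_mul_const, integral_P hz', one_mul]
  tfae_have 2 → 3 := by
    intro h2 B hB ε hε K hK hK0 η hη
    by_contra hn
    obtain ⟨μ, hμf, hμ, hμK, M, hM⟩ := exists_measure (E := Lev B ε) (fun z hz => hz.1) hK hη hn
    obtain ⟨M', hM'⟩ := h2 B hB ε hε (PI μ) (posHarm_PI μ)
      ⟨M, by rintro _ ⟨z, hz, rfl⟩; exact hM z hz⟩
    have hM'' : ∀ z : ℂ, ‖z‖ < 1 → PI μ z ≤ M' := fun z hz => hM' ⟨z, by simpa using hz, rfl⟩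
    have hr : ∀ k : ℕ, 0 < 1 - 1 / ((k : ℝ) + 2) ∧ 1 - 1 / ((k : ℝ) + 2) < 1 := by
      intro k
      have h4 : (0 : ℝ) < (k : ℝ) + 2 := by positivity
      constructor
      · rw [sub_pos, div_lt_one h4]
        have : (0 : ℝ) ≤ k := Nat.cast_nonneg k
        linarith
      · have : 0 < 1 / ((k : ℝ) + 2) := by positivity
        linarith
    have hr1 : Tendsto (fun k : ℕ => 1 - 1 / ((k : ℝ) + 2)) atTop (𝓝 1) := by
      have h4 : Tendsto (fun k : ℕ => 1 / ((k : ℝ) + 2)) atTop (𝓝 0) := by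
        have := tendsto_one_div_add_atTop_nhds_zero_nat (𝕜 := ℝ)
        have h5 := this.comp (tendsto_add_atTop_nat 1)
        refine h5.congr fun k => ?_
        simp only [Function.comp_apply]
        push_cast
        ring_nf
      simpa using tendsto_const_nhds (x := (1 : ℝ)) |>.sub h4
    have h1 : Tendsto (fun k : ℕ => 1 - 1 / ((k : ℝ) + 2)) atTop (𝓝[<] 1) :=
      tendsto_nhdsWithin_iff.2 ⟨hr1, Eventually.of_forall fun k => (hr k).2⟩
    have h4 : Tendsto (fun k : ℕ => ∫ t, PI μ (((1 - 1 / ((k : ℝ) + 2) : ℝ) : ℂ) * e t) ∂mC) atTop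
        (𝓝 (∫ _t : Cir, (0 : ℝ) ∂mC)) := by
      refine tendsto_integral_of_dominated_convergence (fun _ => M') ?_ (integrable_const _) ?_ ?_
      · intro k
        refine Continuous.aestronglyMeasurable ?_
        refine (continuousOn_PI μ).comp_continuous (continuous_const.mul continuous_e) ?_
        intro t
        rw [mem_ball_zero_iff]
        exact norm_mul_e (hr k).1 (hr k).2 t
      · intro k
        filter_upwards with t
        have h5 := norm_mul_e (hr k).1 (hr k).2 t
        rw [Real.norm_of_nonneg (PI_nonneg μ h5)]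
        exact hM'' _ h5
      · filter_upwards [ae_notMem hK0] with t ht
        exact (PI_tendsto μ hK hμ ht).comp h1
    simp only [integral_zero] at h4
    have h5 : ∀ k : ℕ, ∫ t, PI μ (((1 - 1 / ((k : ℝ) + 2) : ℝ) : ℂ) * e t) ∂mC =
        (μ Set.univ).toReal := fun k => integral_PI μ (hr k).1 (hr k).2
    simp only [h5] at h4
    have h6 := tendsto_nhds_unique h4 tendsto_const_nhds
    have h7 : (μ Set.univ).toReal = 0 := h6.symm
    rw [ENNReal.toReal_eq_zero_iff] at h7
    rcases h7 with h7 | h7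
    · exact hμK.ne' (measure_mono_null (Set.subset_univ _) h7)
    · exact measure_ne_top _ _ h7
  tfae_finish

end

end Pool.Agent.Helper59.DGA
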