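import Pool.Agent.Helper59.DG.Def

/-! Factorisation of polynomials. -/

set_option autoImplicit false

namespace Pool.Agent.Helper59.DGA

open MeasureTheory AddCircle Metric Filter Topology

noncomputable section

namespace NehA

theorem norm_e (t : Cir) : ‖e t‖ = 1 := by
  unfold e; exact Circle.norm_coe _

/-- the square root -/
def sq (w : ℂ) : ℂ := w ^ (((2 : ℕ) : ℂ)⁻¹)

theorem sq_sq (w : ℂ) : sq w ^ 2 = w := Complex.cpow_nat_inv_pow w two_ne_zero

theorem sq_mul (w : ℂ) : sq w * sq w = w := by rw [← pow_two]; exact sq_sq w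

theorem norm_sq_sq (w : ℂ) : ‖sq w‖ ^ 2 = ‖w‖ := by rw [← norm_pow, sq_sq]

theorem sq_cont {w : ℂ} (h : 0 ≤ w.re) : ContinuousWithinAt sq {z | 0 ≤ z.re} w := by
  by_cases hw : w = 0
  · subst hw
    apply ContinuousAt.continuousWithinAt
    have h1 : ContinuousAt (fun x : ℂ × ℂ => x.1 ^ x.2) (0, ((2 : ℕ) : ℂ)⁻¹) :=
      Complex.continuousAt_cpow_zero_of_re_pos (by norm_num)
    exact ContinuousAt.comp (f := fun z : ℂ => (z, ((2 : ℕ) : ℂ)⁻¹)) h1 (by fun_prop)
  · apply ContinuousAt.continuousWithinAt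
    unfold sq
    refine ContinuousAt.cpow continuousAt_id continuousAt_const ?_
    rw [Complex.mem_slitPlane_iff]
    rcases h.lt_or_eq with h | h
    · exact Or.inl h
    · right
      intro hi
      exact hw (Complex.ext h.symm hi)

theorem sq_diff (w : ℂ → ℂ) (hd : Differentiable ℂ w) (h : ∀ z ∈ closedBall (0 : ℂ) 1, 0 ≤ (w z).re)
    (hb : ∀ z ∈ ball (0 : ℂ) 1, 0 < (w z).re) : DiffContOnCl ℂ (fun z => sq (w z)) (ball 0 1) := by
  constructor
  · intro z hz
    unfold sq
    apply DifferentiableAt.differentiableWithinAt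
    exact (hd z).cpow_const (Complex.mem_slitPlane_iff.2 (Or.inl (hb z hz)))
  · rw [closure_ball _ one_ne_zero]
    intro z hz
    exact ContinuousWithinAt.comp (f := w) (t := {z : ℂ | 0 ≤ z.re}) (sq_cont (h z hz))
      hd.continuous.continuousWithinAt (fun y hy => h y hy)

/-- the property -/
def Q (p : ℂ → ℂ) : Prop := ∃ f g : ℂ → ℂ, DiffContOnCl ℂ f (ball 0 1) ∧
    DiffContOnCl ℂ g (ball 0 1) ∧ (∀ z ∈ closedBall (0 : ℂ) 1, p z = f z * g z) ∧
    (∀ t, ‖f (e t)‖ ^ 2 = ‖p (e t)‖) ∧ ∀ t, ‖g (e t)‖ ^ 2 = ‖p (e t)‖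

theorem Q.mul {p q : ℂ → ℂ} (hp : Q p) (hq : Q q) : Q (fun z => p z * q z) := by
  obtain ⟨f, g, hf, hg, h1, h2, h3⟩ := hp
  obtain ⟨f', g', hf', hg', h1', h2', h3'⟩ := hq
  refine ⟨fun z => f z * f' z, fun z => g z * g' z, ?_, ?_, ?_, ?_, ?_⟩
  · exact hf.smul hf'
  · exact hg.smul hg'
  · intro z hz
    simp only [h1 z hz, h1' z hz]
    ring
  · intro t
    simp only [norm_mul, mul_pow, h2, h2']
  · intro t
    simp only [norm_mul, mul_pow, h3, h3']

theorem Q_const (c : ℂ) : Q (fun _ => c) :=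
  ⟨fun _ => sq c, fun _ => sq c, diffContOnCl_const, diffContOnCl_const,
    fun _ _ => (sq_mul c).symm, fun _ => norm_sq_sq c, fun _ => norm_sq_sq c⟩

theorem Q_lin (a : ℂ) : Q (fun z => z - a) := by
  by_cases ha : ‖a‖ < 1
  · have hre : ∀ z ∈ closedBall (0 : ℂ) 1, 0 < (1 - starRingEnd ℂ a * z).re := by
      intro z hz
      rw [mem_closedBall_zero_iff] at hz
      have h1 : (starRingEnd ℂ a * z).re ≤ ‖starRingEnd ℂ a * z‖ := Complex.re_le_norm _
      have h2 : ‖starRingEnd ℂ a * z‖ ≤ ‖a‖ := by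
        rw [norm_mul, Complex.norm_conj]
        exact mul_le_of_le_one_right (norm_nonneg _) hz
      rw [Complex.sub_re, Complex.one_re]
      linarith
    have hne : ∀ z ∈ closedBall (0 : ℂ) 1, (1 - starRingEnd ℂ a * z) ≠ 0 := by
      intro z hz h0
      have := hre z hz
      rw [h0] at this
      simp at this
    have hg : DiffContOnCl ℂ (fun z => sq (1 - starRingEnd ℂ a * z)) (ball 0 1) := by
      apply sq_diff (fun z => 1 - starRingEnd ℂ a * z) (by fun_prop)
      · intro z hz; exact (hre z hz).le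
      · intro z hz; exact hre z (ball_subset_closedBall hz)
    have hb : DiffContOnCl ℂ (fun z => (z - a) * (1 - starRingEnd ℂ a * z)⁻¹) (ball 0 1) := by
      have h1 : DiffContOnCl ℂ (fun z : ℂ => z - a) (ball 0 1) :=
        (by fun_prop : Differentiable ℂ (fun z : ℂ => z - a)).diffContOnCl
      have h2 : DiffContOnCl ℂ (fun z : ℂ => (1 - starRingEnd ℂ a * z)) (ball 0 1) :=
        (by fun_prop : Differentiable ℂ (fun z : ℂ => (1 - starRingEnd ℂ a * z))).diffContOnCl
      refine h1.smul (h2.inv ?_)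
      rw [closure_ball _ one_ne_zero]
      exact hne
    have hcirc : ∀ t, ‖e t - a‖ = ‖1 - starRingEnd ℂ a * e t‖ := by
      intro t
      have h1 : e t * starRingEnd ℂ (e t) = 1 := by
        rw [Complex.mul_conj, Complex.normSq_eq_norm_sq, norm_e]; norm_num
      have h2 : (1 - starRingEnd ℂ a * e t) = e t * starRingEnd ℂ (e t - a) := by
        rw [map_sub, mul_sub, h1]; ring
      rw [h2, norm_mul, norm_e, one_mul, Complex.norm_conj]
    have het : ∀ t, e t ∈ closedBall (0 : ℂ) 1 := fun t => by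
      rw [mem_closedBall_zero_iff, norm_e]
    refine ⟨fun z => ((z - a) * (1 - starRingEnd ℂ a * z)⁻¹) * sq (1 - starRingEnd ℂ a * z),
      fun z => sq (1 - starRingEnd ℂ a * z), hb.smul hg, hg, ?_, ?_, ?_⟩
    · intro z hz
      rw [mul_assoc _ (sq _) (sq _), sq_mul, mul_assoc, inv_mul_cancel₀ (hne z hz), mul_one]
    · intro t
      rw [norm_mul, mul_pow, norm_sq_sq, norm_mul, norm_inv, ← hcirc]
      have h0 : ‖e t - a‖ ≠ 0 := by
        rw [hcirc]; exact norm_ne_zero_iff.2 (hne _ (het t))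
      field_simp
    · intro t
      rw [norm_sq_sq, hcirc]
  · push Not at ha
    have ha0 : a ≠ 0 := by
      rintro rfl; rw [norm_zero] at ha; linarith
    have hz1 : ∀ z : ℂ, (1 - z / a).re ≥ 1 - ‖z‖ / ‖a‖ := by
      intro z
      rw [Complex.sub_re, Complex.one_re, ← norm_div]
      have := Complex.re_le_norm (z / a)
      linarith
    have hg : DiffContOnCl ℂ (fun z => sq (1 - z / a)) (ball 0 1) := by
      apply sq_diff (fun z => 1 - z / a) (by fun_prop)
      · intro z hz
        rw [mem_closedBall_zero_iff] at hz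
        have h2 : ‖z‖ / ‖a‖ ≤ 1 := by
          rw [div_le_one (by linarith)]; linarith
        have := hz1 z
        linarith
      · intro z hz
        rw [mem_ball_zero_iff] at hz
        have h2 : ‖z‖ / ‖a‖ < 1 := by
          rw [div_lt_one (by linarith)]; linarith
        have := hz1 z
        linarith
    have h1 : Q (fun z => 1 - z / a) := ⟨fun z => sq (1 - z / a), fun z => sq (1 - z / a), hg, hg,
      fun z _ => (sq_mul _).symm, fun t => norm_sq_sq _, fun t => norm_sq_sq _⟩
    have h2 := (Q_const (-a)).mul h1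
    have h3 : (fun z : ℂ => -a * (1 - z / a)) = fun z => z - a := by
      funext z; field_simp; ring
    rw [h3] at h2
    exact h2

end NehA

open NehA in
/-- every polynomial is a product of two functions in the disc algebra of equal modulus on the
unit circle -/
theorem factor (p : Polynomial ℂ) : ∃ f g : ℂ → ℂ, DiffContOnCl ℂ f (ball 0 1) ∧
    DiffContOnCl ℂ g (ball 0 1) ∧ (∀ z ∈ closedBall (0 : ℂ) 1, p.eval z = f z * g z) ∧
    (∀ t, ‖f (e t)‖ ^ 2 = ‖p.eval (e t)‖) ∧ ∀ t, ‖g (e t)‖ ^ 2 = ‖p.eval (e t)‖ := by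
  change Q (fun z => p.eval z)
  have key : ∀ s : Multiset ℂ, Q (fun z => (s.map (fun a => z - a)).prod) := by
    intro s
    induction s using Multiset.induction with
    | empty => simpa using Q_const 1
    | cons a s ih =>
      have := (Q_lin a).mul ih
      simpa using this
  have h := (IsAlgClosed.splits p).eq_prod_roots
  have h2 := (Q_const p.leadingCoeff).mul (key p.roots)
  convert h2 using 2 with z
  conv_lhs => rw [h]
  rw [Polynomial.eval_mul, Polynomial.eval_C, Polynomial.eval_multiset_prod, Multiset.map_map]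
  simp

end

end Pool.Agent.Helper59.DGA
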