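import Pool.Agent.Helper59.DG.Hin

/-! Singular inner functions. -/

set_option autoImplicit false

namespace Pool.Agent.Helper59.DGA

open MeasureTheory AddCircle Metric Filter Topology

noncomputable section

theorem ae_notMem {K : Set Cir} (hK0 : mC K = 0) : ∀ᵐ t ∂mC, t ∉ K := by
  rw [ae_iff]
  simpa using hK0

theorem exists_sing (μ : Measure Cir) [IsFiniteMeasure μ] {K : Set Cir} (hK : IsCompact K)
    (hK0 : mC K = 0) (hμ : μ Kᶜ = 0) : ∃ S : Cir → ℂ, IsInner S ∧
      (∀ z ∈ ball (0 : ℂ) 1, ext S z = Complex.exp (-HI μ z)) ∧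
      ∀ᵐ t ∂mC, S t = Complex.exp (-HI μ (e t)) := by
  have hF : AnalyticOnNhd ℂ (fun z => Complex.exp (-HI μ z)) (ball 0 1) := fun z hz =>
    (HI_analytic μ z hz).neg.cexp
  obtain ⟨S, hS, hS1, hS2⟩ := exists_Hinf hF (C := 1) (fun z hz => by
    have hz' : ‖z‖ < 1 := by simpa using hz
    rw [Complex.norm_exp, Complex.neg_re, HI_re μ hz']
    exact Real.exp_le_one_iff.2 (neg_nonpos.2 (PI_nonneg μ hz')))
  obtain ⟨r, hr, hr1, hS3, -⟩ := exists_seq (Hinf.int hS) (Hinf.int hS)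
  have h1 : Tendsto r atTop (𝓝[<] 1) :=
    tendsto_nhdsWithin_iff.2 ⟨hr1, Eventually.of_forall fun k => (hr k).2⟩
  have key : ∀ᵐ t ∂mC, S t = Complex.exp (-HI μ (e t)) := by
    filter_upwards [hS3, ae_notMem hK0] with t ht htK
    have h2 := ((HI_tendsto μ hK hμ htK).2.comp h1).neg.cexp
    refine tendsto_nhds_unique ht (h2.congr fun k => ?_)
    rw [hS2]
    · rfl
    · rw [mem_ball_zero_iff, norm_mul, norm_e, mul_one, Complex.norm_real, Real.norm_eq_abs,
        abs_of_pos (hr k).1]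
      exact (hr k).2
  refine ⟨S, ⟨hS, ?_⟩, hS2, key⟩
  filter_upwards [key, ae_notMem hK0] with t ht htK
  rw [ht, Complex.norm_exp, Complex.neg_re, (HI_tendsto μ hK hμ htK).1, neg_zero, Real.exp_zero]

end

end Pool.Agent.Helper59.DGA
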